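import Pool.Agent.MP_c903c4_nt.K.Defs

/-! The Selberg upper bound sieve for primes in a progression. -/

open Finset
open scoped Pointwise Classical

noncomputable section

namespace Pool.Agent.MP_c903c4_nt.K

open Real

section abstract

variable {P : Finset ℕ} {ν g : ℕ → ℝ} {L : Finset (Finset ℕ)}

/-- the product measure on subsets -/
def mu_BT (P : Finset ℕ) (ν : ℕ → ℝ) (S : Finset ℕ) : ℝ :=
  (∏ p ∈ S, ν p) * ∏ p ∈ P \ S, (1 - ν p)

lemma prod_BT (P : Finset ℕ) (ν u v : ℕ → ℝ) :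
    ∑ S ∈ P.powerset, mu_BT P ν S * ∏ p ∈ P, (if p ∈ S then u p else v p) =
      ∏ p ∈ P, (ν p * u p + (1 - ν p) * v p) := by
  rw [prod_add]
  refine sum_congr rfl fun S hS => ?_
  rw [prod_ite, filter_mem_eq_inter, inter_eq_right.2 (mem_powerset.1 hS), filter_notMem_eq_sdiff,
    mu_BT, prod_mul_distrib, prod_mul_distrib]
  ring

lemma ind_BT (ν : ℕ → ℝ) {d : Finset ℕ} (hd : d ⊆ P) :
    ∑ S ∈ P.powerset, mu_BT P ν S * (if d ⊆ S then 1 else 0) = ∏ p ∈ d, ν p := by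
  have h := prod_BT P ν (fun _ => 1) (fun p => if p ∈ d then 0 else 1)
  have h1 : ∏ p ∈ P, (ν p * 1 + (1 - ν p) * if p ∈ d then 0 else 1) = ∏ p ∈ d, ν p := by
    rw [← inter_eq_right.2 hd, ← prod_ite_mem, inter_eq_right.2 hd]
    refine prod_congr rfl fun p _ => ?_
    split_ifs <;> ring
  rw [← h1, ← h]
  refine sum_congr rfl fun S _ => ?_
  congr 1
  split_ifs with hS
  · refine (prod_eq_one fun p _ => ?_).symm
    split_ifs with h2 h3
    · rfl
    · exact absurd (hS h3) h2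
    · rfl
  · obtain ⟨p, hp, hp'⟩ := not_subset.1 hS
    exact (prod_eq_zero (hd hp) (by rw [if_neg hp', if_pos hp])).symm

/-- the orthogonal functions -/
def h_BT (g : ℕ → ℝ) (l S : Finset ℕ) : ℝ := ∏ p ∈ l, if p ∈ S then -1 else g p

lemma orth_BT (hg : ∀ p ∈ P, (1 - ν p) * g p = ν p) {l l' : Finset ℕ} (hl : l ⊆ P)
    (hl' : l' ⊆ P) : ∑ S ∈ P.powerset, mu_BT P ν S * (h_BT g l S * h_BT g l' S) =
      if l = l' then ∏ p ∈ l, g p else 0 := by
  have h := prod_BT P ν (fun p => (if p ∈ l then -1 else 1) * if p ∈ l' then -1 else 1)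
    (fun p => (if p ∈ l then g p else 1) * if p ∈ l' then g p else 1)
  have h1 : ∀ S, h_BT g l S * h_BT g l' S = ∏ p ∈ P, if p ∈ S then
      ((if p ∈ l then -1 else 1) * if p ∈ l' then -1 else 1) else
      ((if p ∈ l then g p else 1) * if p ∈ l' then g p else 1) := by
    intro S
    rw [h_BT, h_BT, ← inter_eq_right.2 hl, ← inter_eq_right.2 hl', ← prod_ite_mem,
      ← prod_ite_mem, inter_eq_right.2 hl, inter_eq_right.2 hl', ← prod_mul_distrib]
    refine prod_congr rfl fun p _ => ?_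
    split_ifs <;> rfl
  simp only [h1]
  rw [h]
  split_ifs with he
  · subst he
    rw [← inter_eq_right.2 hl, ← prod_ite_mem, inter_eq_right.2 hl]
    refine prod_congr rfl fun p hp => ?_
    have := hg p hp
    split_ifs
    · linear_combination (g p - 1) * this
    · ring
  · obtain ⟨p, hp⟩ := not_forall.1 fun h2 => he (Finset.ext h2)
    by_cases h2 : p ∈ l
    · have h3 : p ∉ l' := fun h3 => hp (iff_of_true h2 h3)
      refine prod_eq_zero (hl h2) ?_
      simp only [if_pos h2, if_neg h3]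
      linear_combination hg p (hl h2)
    · have h3 : p ∈ l' := by_contra fun h3 => hp (iff_of_false h2 h3)
      refine prod_eq_zero (hl' h3) ?_
      simp only [if_neg h2, if_pos h3]
      linear_combination hg p (hl' h3)

/-- the sieve weights -/
def lam_BT (g : ℕ → ℝ) (L : Finset (Finset ℕ)) (d : Finset ℕ) : ℝ :=
  (∏ p ∈ d, -(1 + g p)) * ∑ l ∈ L with d ⊆ l, ∏ p ∈ l \ d, g p

lemma exp_BT (hL : ∀ l ∈ L, ∀ d ⊆ l, d ∈ L) (S : Finset ℕ) :
    ∑ l ∈ L, h_BT g l S = ∑ d ∈ L, lam_BT g L d * if d ⊆ S then 1 else 0 := by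
  have h1 : ∀ l, h_BT g l S = ∑ d ∈ l.powerset,
      ((∏ p ∈ d, -(1 + g p)) * ∏ p ∈ l \ d, g p) * if d ⊆ S then 1 else 0 := by
    intro l
    have h2 : h_BT g l S = ∏ p ∈ l, ((if p ∈ S then -(1 + g p) else 0) + g p) :=
      prod_congr rfl fun p _ => by split_ifs <;> ring
    rw [h2, prod_add]
    refine sum_congr rfl fun d _ => ?_
    rw [prod_ite_zero]
    by_cases h3 : d ⊆ S
    · rw [if_pos h3, if_pos fun i hi => h3 hi, mul_one]
    · rw [if_neg h3, if_neg fun h4 => h3 fun i hi => h4 i hi, mul_zero, zero_mul]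
  simp only [h1, lam_BT, mul_sum, sum_mul]
  refine sum_comm' fun l d => ?_
  simp only [mem_powerset, mem_filter]
  exact ⟨fun h => ⟨h, hL l h.1 d h.2⟩, fun h => h.1⟩

lemma abs_BT (hg : ∀ p, 0 ≤ g p) (hL : ∀ l ∈ L, ∀ d ⊆ l, d ∈ L) (d : Finset ℕ) :
    |lam_BT g L d| ≤ ∑ l ∈ L, ∏ p ∈ l, g p := by
  have h0 : ∀ l : Finset ℕ, 0 ≤ ∏ p ∈ l, g p := fun l => prod_nonneg fun p _ => hg p
  rw [lam_BT, abs_mul, abs_prod, abs_of_nonneg (sum_nonneg fun l _ => h0 _),
    prod_congr rfl fun p _ => (abs_neg _).trans (abs_of_nonneg (add_nonneg zero_le_one (hg p))),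
    prod_one_add, sum_mul_sum, ← sum_product']
  have hd : ∀ x ∈ d.powerset ×ˢ (L.filter fun l => d ⊆ l), Disjoint x.1 (x.2 \ d) := fun x hx =>
    disjoint_sdiff.mono_left (mem_powerset.1 (mem_product.1 hx).1)
  rw [sum_congr rfl fun x hx => (prod_union (hd x hx)).symm,
    ← sum_image (f := fun l => ∏ p ∈ l, g p) (g := fun x : Finset ℕ × Finset ℕ => x.1 ∪ x.2 \ d)]
  · refine sum_le_sum_of_subset_of_nonneg (fun l hl => ?_) fun l _ _ => h0 l
    obtain ⟨x, hx, rfl⟩ := mem_image.1 hl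
    obtain ⟨h1, h2⟩ := mem_product.1 hx
    obtain ⟨h3, h4⟩ := mem_filter.1 h2
    exact hL _ h3 _ (union_subset ((mem_powerset.1 h1).trans h4) sdiff_subset)
  · rintro ⟨k, l⟩ hx ⟨k', l'⟩ hx' he
    simp only [coe_product, Set.mem_prod, mem_coe, mem_powerset, mem_filter] at hx hx'
    have h1 : ∀ p, p ∈ k ∪ l \ d ↔ p ∈ k' ∪ l' \ d := fun p => by
      rw [show k ∪ l \ d = k' ∪ l' \ d from he]
    simp only [mem_union, mem_sdiff] at h1
    refine Prod.ext (Finset.ext fun p => ?_) (Finset.ext fun p => ?_)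
    · exact ⟨fun h => ((h1 p).1 (Or.inl h)).resolve_right fun h2 => h2.2 (hx.1 h),
        fun h => ((h1 p).2 (Or.inl h)).resolve_right fun h2 => h2.2 (hx'.1 h)⟩
    · by_cases hp : p ∈ d
      · exact iff_of_true (hx.2.2 hp) (hx'.2.2 hp)
      · exact ⟨fun h => (((h1 p).1 (Or.inr ⟨h, hp⟩)).resolve_left fun h2 => hp (hx'.1 h2)).1,
          fun h => (((h1 p).2 (Or.inr ⟨h, hp⟩)).resolve_left fun h2 => hp (hx.1 h2)).1⟩

lemma main_BT (hg : ∀ p ∈ P, (1 - ν p) * g p = ν p) (hP : ∀ l ∈ L, l ⊆ P)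
    (hL : ∀ l ∈ L, ∀ d ⊆ l, d ∈ L) :
    ∑ d ∈ L, ∑ e ∈ L, lam_BT g L d * lam_BT g L e * ∏ p ∈ d ∪ e, ν p =
      ∑ l ∈ L, ∏ p ∈ l, g p := by
  have h1 : ∑ S ∈ P.powerset, mu_BT P ν S *
      ((∑ l ∈ L, h_BT g l S) * ∑ l ∈ L, h_BT g l S) = ∑ l ∈ L, ∏ p ∈ l, g p := by
    simp only [sum_mul_sum]
    simp only [mul_sum]
    rw [sum_comm]
    refine sum_congr rfl fun l hl => ?_
    rw [sum_comm, sum_congr rfl fun l' hl' => orth_BT hg (hP l hl) (hP l' hl'), sum_ite_eq,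
      if_pos hl]
  rw [← h1]
  simp only [exp_BT hL, sum_mul_sum]
  simp only [mul_sum]
  rw [sum_comm (s := P.powerset)]
  refine sum_congr rfl fun d hd => ?_
  rw [sum_comm]
  refine sum_congr rfl fun e he => ?_
  rw [← ind_BT ν (union_subset (hP d hd) (hP e he)), mul_sum]
  refine sum_congr rfl fun S _ => ?_
  simp only [union_subset_iff]
  by_cases h2 : d ⊆ S <;> by_cases h3 : e ⊆ S <;> simp [h2, h3]
  ring

end abstract

/-- the sets of primes with product at most `R` -/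
def L_BT (R : ℕ) : Finset (Finset ℕ) :=
  ((Icc 1 R).filter Nat.Prime).powerset.filter fun l => ∏ p ∈ l, p ≤ R

lemma prime_BT {R : ℕ} {l : Finset ℕ} (hl : l ∈ L_BT R) {p : ℕ} (hp : p ∈ l) :
    p.Prime ∧ p ≤ R := by
  have h := mem_filter.1 (mem_powerset.1 (mem_filter.1 hl).1 hp)
  exact ⟨h.2, (mem_Icc.1 h.1).2⟩

lemma down_BT {R : ℕ} : ∀ l ∈ L_BT R, ∀ d ⊆ l, d ∈ L_BT R := by
  intro l hl d hd
  refine mem_filter.2 ⟨mem_powerset.2 (hd.trans (mem_powerset.1 (mem_filter.1 hl).1)),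
    le_trans ?_ (mem_filter.1 hl).2⟩
  exact Nat.le_of_dvd (prod_pos fun p hp => (prime_BT hl hp).1.pos)
    (prod_dvd_prod_of_subset _ _ _ hd)

lemma card_BT (R : ℕ) : (L_BT R).card ≤ R := by
  refine (card_le_card_of_injOn (t := Icc 1 R) (fun l => ∏ p ∈ l, p) (fun l hl => ?_)
    fun l hl l' hl' e => ?_).trans (by simp)
  · exact mem_Icc.2 ⟨prod_pos fun p hp => (prime_BT hl hp).1.pos, (mem_filter.1 hl).2⟩
  · rw [← Nat.primeFactors_prod (s := l) fun p hp => (prime_BT hl hp).1,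
      ← Nat.primeFactors_prod (s := l') fun p hp => (prime_BT hl' hp).1]
    exact congrArg _ e

lemma fib_BT {l T : Finset ℕ} (hl : ∀ p ∈ l, p.Prime) (hT : ∀ n ∈ T, n ≠ 0 ∧ n.primeFactors = l) :
    ∑ n ∈ T, (n : ℝ)⁻¹ ≤ ∏ p ∈ l, ((p : ℝ) - 1)⁻¹ := by
  let f : ℕ →* ℝ := ⟨⟨fun n => (n : ℝ)⁻¹, by simp⟩, fun a b => by simp [mul_comm]⟩
  have hf : ∀ n, f n = (n : ℝ)⁻¹ := fun _ => rfl
  have h := (EulerProduct.summable_and_hasSum_factoredNumbers_prod_filter_prime_geometric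
    (f := f) (fun {p} hp => by
      rw [hf, norm_inv, Real.norm_natCast]
      exact inv_lt_one_of_one_lt₀ (by exact_mod_cast hp.one_lt)) l).2
  rw [filter_true_of_mem hl] at h
  have hd : ∀ n ∈ T, ∏ p ∈ l, p ∣ n := fun n hn => (hT n hn).2 ▸ Nat.prod_primeFactors_dvd n
  have h1 := sum_le_hasSum ((T.image fun n => n / ∏ p ∈ l, p).subtype (· ∈ Nat.factoredNumbers l))
    (fun n _ => by rw [hf]; positivity) h
  rw [sum_subtype_of_mem (fun n => f n), sum_image] at h1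
  · have h2 : ∑ n ∈ T, (n : ℝ)⁻¹ = (∏ p ∈ l, (p : ℝ)⁻¹) * ∑ n ∈ T, f (n / ∏ p ∈ l, p) := by
      rw [mul_sum]
      refine sum_congr rfl fun n hn => ?_
      rw [hf, prod_inv_distrib, ← mul_inv, ← Nat.cast_prod, ← Nat.cast_mul,
        Nat.mul_div_cancel' (hd n hn)]
    rw [h2]
    refine (mul_le_mul_of_nonneg_left h1 (prod_nonneg fun p _ => by positivity)).trans_eq ?_
    rw [← prod_mul_distrib]
    refine prod_congr rfl fun p hp => ?_
    have h3 : (p : ℝ) ≠ 0 := by exact_mod_cast (hl p hp).ne_zero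
    rw [hf, ← mul_inv, mul_sub, mul_one, mul_inv_cancel₀ h3]
  · intro a ha b hb hab
    rw [← Nat.mul_div_cancel' (hd a ha), ← Nat.mul_div_cancel' (hd b hb)]
    exact congrArg _ hab
  · intro k hk
    obtain ⟨n, hn, rfl⟩ := mem_image.1 hk
    refine Nat.mem_factoredNumbers'.2 fun p hp hpn => ?_
    rw [← (hT n hn).2]
    exact Nat.mem_primeFactors.2 ⟨hp, hpn.trans (Nat.div_dvd_of_dvd (hd n hn)), (hT n hn).1⟩

lemma G_BT (R : ℕ) : log (R + 1 : ℕ) ≤ ∑ l ∈ L_BT R, ∏ p ∈ l, ((p : ℝ) - 1)⁻¹ := by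
  have h := log_add_one_le_harmonic R
  rw [harmonic_eq_sum_Icc] at h
  push_cast at h ⊢
  refine h.trans ?_
  have hm : ∀ n ∈ Icc 1 R, n.primeFactors ∈ L_BT R := by
    intro n hn
    obtain ⟨h1, h2⟩ := mem_Icc.1 hn
    refine mem_filter.2 ⟨mem_powerset.2 fun p hp => mem_filter.2 ⟨mem_Icc.2
      ⟨(Nat.prime_of_mem_primeFactors hp).pos, (Nat.le_of_mem_primeFactors hp).trans h2⟩,
      Nat.prime_of_mem_primeFactors hp⟩,
      (Nat.le_of_dvd h1 (Nat.prod_primeFactors_dvd n)).trans h2⟩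
  rw [← sum_fiberwise_of_maps_to hm]
  refine sum_le_sum fun l hl => fib_BT (fun p hp => (prime_BT hl hp).1) fun n hn => ?_
  obtain ⟨h1, h2⟩ := mem_filter.1 hn
  exact ⟨Nat.one_le_iff_ne_zero.1 (mem_Icc.1 h1).1, h2⟩

/-- the sets of primes prime to `a` with product at most `R` -/
def Ld_BT (R a : ℕ) : Finset (Finset ℕ) := (L_BT R).filter fun l => ∀ p ∈ l, ¬ p ∣ a

lemma downd_BT {R a : ℕ} : ∀ l ∈ Ld_BT R a, ∀ d ⊆ l, d ∈ Ld_BT R a := fun l hl d hd =>
  mem_filter.2 ⟨down_BT l (mem_filter.1 hl).1 d hd, fun p hp => (mem_filter.1 hl).2 p (hd hp)⟩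

lemma split_BT {g : ℕ → ℝ} (hg : ∀ p, 0 ≤ g p) (R : ℕ) {a : ℕ} (ha : a ≠ 0) :
    ∑ l ∈ L_BT R, ∏ p ∈ l, g p ≤
      (∏ q ∈ a.primeFactors, (1 + g q)) * ∑ l ∈ Ld_BT R a, ∏ p ∈ l, g p := by
  rw [prod_one_add, sum_mul_sum, ← sum_product',
    sum_congr rfl fun l _ => (prod_inter_mul_prod_sdiff l a.primeFactors g).symm,
    ← sum_image (f := fun x : Finset ℕ × Finset ℕ => (∏ p ∈ x.1, g p) * ∏ p ∈ x.2, g p)
      (g := fun l : Finset ℕ => (l ∩ a.primeFactors, l \ a.primeFactors))]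
  · refine sum_le_sum_of_subset_of_nonneg (fun x hx => ?_) fun x _ _ =>
      mul_nonneg (prod_nonneg fun p _ => hg p) (prod_nonneg fun p _ => hg p)
    obtain ⟨l, hl, rfl⟩ := mem_image.1 hx
    refine mem_product.2 ⟨mem_powerset.2 inter_subset_right,
      mem_filter.2 ⟨down_BT l hl _ sdiff_subset, fun p hp h => (mem_sdiff.1 hp).2 ?_⟩⟩
    exact Nat.mem_primeFactors.2 ⟨(prime_BT hl (mem_sdiff.1 hp).1).1, h, ha⟩
  · intro l _ l' _ e
    obtain ⟨e1, e2⟩ := Prod.mk.inj e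
    rw [← sdiff_union_inter l a.primeFactors, e1, e2, sdiff_union_inter]

lemma tot_BT (a : ℕ) :
    (a.totient : ℝ) * ∏ q ∈ a.primeFactors, (1 + ((q : ℝ) - 1)⁻¹) = a := by
  have h := congrArg (Rat.cast : ℚ → ℝ) (Nat.totient_eq_mul_prod_factors a)
  push_cast at h
  rw [h, mul_assoc, ← prod_mul_distrib, prod_eq_one, mul_one]
  intro q hq
  have h2 : (1 : ℝ) < q := by exact_mod_cast (Nat.prime_of_mem_primeFactors hq).one_lt
  have h3 : (q : ℝ) - 1 ≠ 0 := by linarith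
  field_simp
  ring

lemma cnt_BT (h : ℕ) {a q : ℕ} (hq : 0 < q) (hc : a.Coprime q) :
    |(∑ i ∈ range h, if q ∣ a * i + 1 then (1 : ℝ) else 0) - h * (q : ℝ)⁻¹| ≤ 1 := by
  obtain ⟨c, -, h1⟩ := Nat.exists_mul_mod_eq_of_coprime (q - 1) hc hq.ne'
  have h2 : a * c + 1 ≡ 0 [MOD q] := by
    have h3 := Nat.ModEq.add_right 1 (show a * c ≡ q - 1 [MOD q] from h1)
    rw [Nat.sub_add_cancel hq] at h3
    exact h3.trans (Nat.modEq_zero_iff_dvd.2 dvd_rfl)
  have h3 : ∀ i, q ∣ a * i + 1 ↔ i ≡ c [MOD q] := fun i => by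
    rw [← Nat.modEq_zero_iff_dvd]
    exact ⟨fun h4 => Nat.ModEq.cancel_left_of_coprime hc.symm
      (Nat.ModEq.add_right_cancel' 1 (h4.trans h2.symm)),
      fun h4 => ((h4.mul_left a).add_right 1).trans h2⟩
  simp only [h3]
  rw [sum_boole, ← Nat.count_eq_card_filter_range, Nat.count_modEq_card h hq c]
  have hq' : (0 : ℝ) < q := by exact_mod_cast hq
  have h4 : ((h / q : ℕ) : ℝ) ≤ h / q := Nat.cast_div_le
  have h5 := Nat.lt_floor_add_one ((h : ℝ) / q)
  rw [Nat.floor_div_natCast, Nat.floor_natCast] at h5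
  rw [← div_eq_mul_inv, abs_le]
  split_ifs <;> push_cast <;> constructor <;> linarith

theorem stBT : StBT := by
  intro a R x ha hax hR
  set g : ℕ → ℝ := fun p => ((p : ℝ) - 1)⁻¹ ⊔ 0 with hgd
  have hg : ∀ p : ℕ, p.Prime → g p = ((p : ℝ) - 1)⁻¹ := fun p hp =>
    sup_eq_left.2 (inv_nonneg.2 (sub_nonneg.2 (by exact_mod_cast hp.pos)))
  set L := Ld_BT R a with hLd
  set G : ℝ := ∑ l ∈ L, ∏ p ∈ l, g p with hG
  set h : ℕ := x / a + 1 with hh
  have hp : ∀ {l}, l ∈ L → ∀ {p}, p ∈ l → p.Prime ∧ p ≤ R := fun hl _ hp =>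
    prime_BT (mem_filter.1 hl).1 hp
  have hR1 : (1 : ℝ) < R := by exact_mod_cast hR
  have hφ : (0 : ℝ) < a.totient := by exact_mod_cast Nat.totient_pos.2 ha
  have hlog : a.totient * log R ≤ a * G := by
    have h1 : log R ≤ ∑ l ∈ L_BT R, ∏ p ∈ l, g p := by
      refine (log_le_log (by linarith) (by push_cast; linarith)).trans ((G_BT R).trans_eq ?_)
      exact sum_congr rfl fun l hl => prod_congr rfl fun p hp => (hg p (prime_BT hl hp).1).symm
    have h2 := mul_le_mul_of_nonneg_left (h1.trans (split_BT (fun p => le_sup_right) R ha.ne'))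
      hφ.le
    rwa [← mul_assoc, prod_congr rfl fun q hq => congrArg (1 + ·)
      (hg q (Nat.prime_of_mem_primeFactors hq)), tot_BT] at h2
  have hl0 := mul_pos hφ (log_pos hR1)
  have hG0 : 0 < G := (pos_iff_pos_of_mul_pos (hl0.trans_le hlog)).1 (Nat.cast_pos.2 ha)
  have hmain := main_BT (P := (Icc 1 R).filter Nat.Prime) (ν := fun p => (p : ℝ)⁻¹) (g := g)
    (L := L) (fun p hp => by
      have h1 := (mem_filter.1 hp).2
      have h2 : (1 : ℝ) < p := by exact_mod_cast h1.one_lt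
      have h3 : (p : ℝ) - 1 ≠ 0 := by linarith
      rw [hg p h1]
      field_simp) (fun l hl => mem_powerset.1 (mem_filter.1 (mem_filter.1 hl).1).1) downd_BT
  have habs := abs_BT (g := g) (fun p => le_sup_right) (downd_BT (R := R) (a := a))
  let F : ℕ → ℝ := fun m => ∑ d ∈ L, lam_BT g L d * if ∏ p ∈ d, p ∣ m then 1 else 0
  set S := (range h).filter fun i => (a * i + 1).Prime ∧ R < a * i + 1 with hS
  have hF : ∀ i ∈ S, F (a * i + 1) * F (a * i + 1) = G * G := by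
    intro i hi
    obtain ⟨h2, h3⟩ := (mem_filter.1 hi).2
    have h4 : F (a * i + 1) = G := by
      have h5 := exp_BT (g := g) (downd_BT (R := R) (a := a)) ∅
      simp only [h_BT, notMem_empty, if_false] at h5
      rw [hG, hLd, h5]
      refine sum_congr rfl fun d hd => ?_
      congr 2
      refine propext ⟨fun h6 p hp' => ?_, fun h6 => by simp [subset_empty.1 h6]⟩
      have h7 := hp hd hp'
      have h8 := (Nat.prime_dvd_prime_iff_eq h7.1 h2).1 ((dvd_prod_of_mem _ hp').trans h6)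
      omega
    rw [h4]
  have hu : ∀ d ∈ L, ∀ e ∈ L, ∀ p ∈ d ∪ e, p.Prime ∧ ¬ p ∣ a := fun d hd e he p hp' =>
    (mem_union.1 hp').elim (fun h2 => ⟨(hp hd h2).1, (mem_filter.1 hd).2 p h2⟩)
      fun h2 => ⟨(hp he h2).1, (mem_filter.1 he).2 p h2⟩
  have hdvd : ∀ d ∈ L, ∀ e ∈ L, ∀ m : ℕ,
      (∏ p ∈ d ∪ e, p ∣ m ↔ ∏ p ∈ d, p ∣ m ∧ ∏ p ∈ e, p ∣ m) := by
    intro d hd e he m
    refine ⟨fun h1 => ⟨(prod_dvd_prod_of_subset _ _ _ subset_union_left).trans h1,
      (prod_dvd_prod_of_subset _ _ _ subset_union_right).trans h1⟩, fun h1 => ?_⟩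
    refine prod_primes_dvd m (fun p hp' => (hu d hd e he p hp').1.prime) fun p hp' => ?_
    rcases mem_union.1 hp' with h2 | h2
    · exact (dvd_prod_of_mem _ h2).trans h1.1
    · exact (dvd_prod_of_mem _ h2).trans h1.2
  have h1 : ∑ i ∈ range h, F (a * i + 1) * F (a * i + 1) = ∑ d ∈ L, ∑ e ∈ L,
      lam_BT g L d * lam_BT g L e *
        ∑ i ∈ range h, if ∏ p ∈ d ∪ e, p ∣ a * i + 1 then (1 : ℝ) else 0 := by
    simp only [F, sum_mul_sum]
    simp only [mul_sum]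
    rw [sum_comm]
    refine sum_congr rfl fun d hd => ?_
    rw [sum_comm]
    refine sum_congr rfl fun e he => sum_congr rfl fun m _ => ?_
    simp only [hdvd d hd e he]
    by_cases h2 : ∏ p ∈ d, p ∣ a * m + 1 <;> by_cases h3 : ∏ p ∈ e, p ∣ a * m + 1 <;>
      simp [h2, h3]
  have h2 : ∑ i ∈ range h, F (a * i + 1) * F (a * i + 1) ≤ h * G + (R : ℝ) ^ 2 * (G * G) := by
    have h3 : (L.card : ℝ) ≤ R := by exact_mod_cast (card_filter_le _ _).trans (card_BT R)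
    have h4 : ∑ d ∈ L, ∑ e ∈ L, G * G ≤ (R : ℝ) ^ 2 * (G * G) := by
      rw [sum_const, sum_const, nsmul_eq_mul, nsmul_eq_mul, ← mul_assoc, ← sq]
      exact mul_le_mul_of_nonneg_right (pow_le_pow_left₀ (Nat.cast_nonneg _) h3 2)
        (mul_self_nonneg G)
    refine le_trans ?_ (add_le_add_right h4 _)
    rw [h1]
    conv_rhs => rw [show h * G = h * _ from congrArg _ hmain.symm]
    simp only [mul_sum (a := (h : ℝ)), ← sum_add_distrib]
    refine sum_le_sum fun d hd => sum_le_sum fun e he => ?_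
    have h5 := cnt_BT h (a := a) (q := ∏ p ∈ d ∪ e, p)
      (prod_pos fun p hp' => (hu d hd e he p hp').1.pos)
      (Nat.Coprime.prod_right fun p hp' =>
        (((hu d hd e he p hp').1.coprime_iff_not_dvd).2 (hu d hd e he p hp').2).symm)
    rw [Nat.cast_prod, ← prod_inv_distrib] at h5
    have h6 : |lam_BT g L d * lam_BT g L e| ≤ G * G := by
      rw [abs_mul]
      exact mul_le_mul (habs d) (habs e) (abs_nonneg _) hG0.le
    have h7 := (le_abs_self _).trans ((abs_mul _ _).trans_le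
      (mul_le_mul h6 h5 (abs_nonneg _) (mul_self_nonneg G)))
    linarith
  have h3 : (S.card : ℝ) * (G * G) ≤ ∑ i ∈ range h, F (a * i + 1) * F (a * i + 1) := by
    rw [← nsmul_eq_mul, ← sum_const, ← sum_congr rfl hF]
    exact sum_le_sum_of_subset_of_nonneg (filter_subset _ _) fun m _ _ => mul_self_nonneg _
  have h4 : h * G ≤ 2 * x / (a.totient * log R) * (G * G) := by
    have h5 : h * a ≤ 2 * x := by
      have := Nat.div_mul_le_self x a
      rw [hh, add_mul]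
      omega
    have h6 : (h : ℝ) * a ≤ 2 * x := by exact_mod_cast h5
    rw [div_mul_eq_mul_div, le_div_iff₀ hl0]
    calc h * G * (a.totient * log R) ≤ h * G * (a * G) :=
          mul_le_mul_of_nonneg_left hlog (by positivity)
      _ = h * a * (G * G) := by ring
      _ ≤ _ := mul_le_mul_of_nonneg_right h6 (mul_self_nonneg G)
  have h5 : ((Ioc R x).filter fun p => p.Prime ∧ a ∣ p - 1).card ≤ S.card := by
    refine (card_le_card fun p hp' => ?_).trans (card_image_le (f := fun i => a * i + 1))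
    obtain ⟨h6, h7, i, h8⟩ := mem_filter.1 hp'
    obtain ⟨h9, h10⟩ := mem_Ioc.1 h6
    have e : a * i + 1 = p := by omega
    refine mem_image.2 ⟨i, mem_filter.2 ⟨mem_range.2 (Nat.lt_succ_of_le
      ((Nat.le_div_iff_mul_le ha).2 ?_)), e ▸ ⟨h7, h9⟩⟩, e⟩
    rw [mul_comm]
    omega
  refine (Nat.cast_le.2 h5).trans (le_of_mul_le_mul_right ?_ (mul_pos hG0 hG0))
  rw [add_mul]
  linarith

end Pool.Agent.MP_c903c4_nt.K
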