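import Pool.Agent.MP_c903c4_nt.K.Defs

open Finset
open scoped Pointwise Classical

noncomputable section

namespace Pool.Agent.MP_c903c4_nt.K

theorem cs_Avg {α β : Type} [DecidableEq β] (S : Finset α) (T : Finset β) (g : α → β) (h : ∀ a ∈ S, g a ∈ T) :
    S.card ^ 2 ≤ T.card * ((S ×ˢ S).filter fun q => g q.1 = g q.2).card := by
  rw [card_eq_sum_card_fiberwise (f := g) (t := T) h,
    card_eq_sum_card_fiberwise (f := fun q : α × α => g q.1) (t := T)
      (s := (S ×ˢ S).filter fun q => g q.1 = g q.2)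
      fun q hq => h _ (mem_product.1 (mem_filter.1 hq).1).1]
  refine sq_sum_le_card_mul_sum_sq.trans (le_of_eq ?_)
  congr 1
  refine sum_congr rfl fun v _ => ?_
  rw [sq, ← card_product]
  congr 1
  ext q
  simp only [mem_product, mem_filter]
  constructor
  · rintro ⟨⟨h1, h2⟩, h3, h4⟩
    exact ⟨⟨⟨h1, h3⟩, h2.trans h4.symm⟩, h2⟩
  · rintro ⟨⟨⟨h1, h2⟩, h3⟩, h4⟩
    exact ⟨⟨h1, h4⟩, h2, h3 ▸ h4⟩

theorem tot_Avg (p : ℕ) [Fact p.Prime] (S : Finset (ZMod p × ZMod p)) :
    ∑ y : ZMod p, ((S ×ˢ S).filter fun q => q.1.1 - y * q.1.2 = q.2.1 - y * q.2.2).card ≤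
      S.card ^ 2 + p * S.card := by
  simp only [card_filter]
  rw [sum_comm, sum_product]
  have h : ∀ a ∈ S, ∑ b ∈ S, ∑ y : ZMod p, (if a.1 - y * a.2 = b.1 - y * b.2 then 1 else 0) ≤
      S.card + p := by
    intro a ha
    have h1 : ∀ b ∈ S, ∑ y : ZMod p, (if a.1 - y * a.2 = b.1 - y * b.2 then 1 else 0) ≤
        1 + if b = a then p else 0 := by
      intro b _
      rw [← card_filter]
      split_ifs with e
      · refine (card_le_univ _).trans ?_
        rw [ZMod.card]; omega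
      · refine card_le_one.2 fun y hy z hz => ?_
        have hy := (mem_filter.1 hy).2
        have hz := (mem_filter.1 hz).2
        by_contra hne
        have h2 : (y - z) * (a.2 - b.2) = 0 := by linear_combination hz - hy
        have h3 : a.2 = b.2 := sub_eq_zero.1 ((mul_eq_zero.1 h2).resolve_left (sub_ne_zero.2 hne))
        rw [h3] at hy
        exact e (Prod.ext (by linear_combination -hy) h3.symm)
    refine (sum_le_sum h1).trans ?_
    rw [sum_add_distrib, sum_ite_eq' S a, if_pos ha]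
    simp
  refine (sum_le_sum h).trans (le_of_eq ?_)
  rw [sum_const, smul_eq_mul]
  ring

theorem stAvg : StAvg := by
  intro p _ B Y L hB hY hL
  obtain ⟨Q, hQ⟩ : ∃ Q : ZMod p → ℕ, ∀ y, Q y = (((B ×ˢ B) ×ˢ (B ×ˢ B)).filter
      fun q => q.1.1 - y * q.1.2 = q.2.1 - y * q.2.2).card := ⟨_, fun _ => rfl⟩
  have hp : (0 : ℝ) < p := by exact_mod_cast (Fact.out : p.Prime).pos
  have hb : (0 : ℝ) < B.card := by exact_mod_cast hB.card_pos
  have hy : (0 : ℝ) < Y.card := by exact_mod_cast hY.card_pos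
  have h1 : ∀ y, (B.card : ℝ) ^ 4 ≤ p * Q y := fun y => by
    have := cs_Avg (B ×ˢ B) univ (fun q => q.1 - y * q.2) fun _ _ => mem_univ _
    rw [card_product, card_univ, ZMod.card] at this
    have h : B.card ^ 4 ≤ p * Q y := by
      rw [hQ]
      convert this using 1
      ring
    exact_mod_cast h
  have h2 : ∀ y, (B.card : ℝ) ^ 4 ≤ (B - y • B).card * Q y := fun y => by
    have := cs_Avg (B ×ˢ B) (B - y • B) (fun q => q.1 - y * q.2) fun q hq =>
      sub_mem_sub (mem_product.1 hq).1 (smul_mem_smul_finset (mem_product.1 hq).2)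
    rw [card_product] at this
    have h : B.card ^ 4 ≤ (B - y • B).card * Q y := by
      rw [hQ]
      convert this using 1
      ring
    exact_mod_cast h
  have h3 : ∑ y, (Q y : ℝ) ≤ (B.card : ℝ) ^ 4 + p * B.card ^ 2 := by
    have := tot_Avg p (B ×ˢ B)
    rw [card_product] at this
    have h : ∑ y, Q y ≤ B.card ^ 4 + p * B.card ^ 2 := by
      simp only [hQ]
      convert this using 2 <;> ring
    exact_mod_cast h
  have h4 : ∑ y ∈ Y, ((Q y : ℝ) - B.card ^ 4 / p) ≤ p * B.card ^ 2 := by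
    refine (sum_le_sum_of_subset_of_nonneg (subset_univ Y) fun y _ _ => ?_).trans ?_
    · rw [sub_nonneg, div_le_iff₀ hp]; linarith [h1 y]
    · rw [sum_sub_distrib, sum_const, card_univ, ZMod.card, nsmul_eq_mul, mul_div_cancel₀ _ hp.ne']
      linarith
  obtain ⟨y, hyY, h5⟩ := exists_le_of_sum_le (f := fun y => (Q y : ℝ) - B.card ^ 4 / p)
    (g := fun _ => p * (B.card : ℝ) ^ 2 / Y.card) hY (by
      rw [sum_const, nsmul_eq_mul, mul_div_cancel₀ _ hy.ne']; exact h4)
  have h6 : (0 : ℝ) ≤ L * B.card := (Nat.cast_nonneg _).trans (hL y hyY)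
  have h7 : (B.card : ℝ) ^ 4 ≤ L * B.card * (B.card ^ 4 / p + p * B.card ^ 2 / Y.card) :=
    (h2 y).trans (mul_le_mul (hL y hyY) (by linarith) (Nat.cast_nonneg _) h6)
  refine le_of_mul_le_mul_left (h7.trans' ?_ |>.trans (le_of_eq ?_)) (pow_pos hb 4)
  · rw [mul_one]
  · field_simp

theorem stInv : StInv := by
  intro p _ H A B K D hH hA hBA hB hK hD
  obtain ⟨h0, h1, hm, hi⟩ := hH
  have hn : ∀ x ∈ H, x ≠ 0 := fun x hx e => h0 (e ▸ hx)
  have hb : (0 : ℝ) < B.card := by exact_mod_cast hB.card_pos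
  have hh : (0 : ℝ) < H.card := by exact_mod_cast card_pos.2 ⟨1, h1⟩
  have hK0 : 0 < K := by
    have : (B.card : ℝ) ≤ A.card := by exact_mod_cast card_le_card hBA
    by_contra h
    nlinarith
  have c1 := cs_Avg (H ×ˢ B) A (fun q => q.1 * q.2) fun q hq =>
    hA _ (mem_product.1 hq).1 _ (hBA (mem_product.1 hq).2)
  have c2 : (((H ×ˢ B) ×ˢ (H ×ˢ B)).filter fun q => q.1.1 * q.1.2 = q.2.1 * q.2.2).card ≤
      (H ×ˢ (H ×ˢ B).filter fun q => q.2 ∈ q.1 • B).card := by
    refine card_le_card_of_injOn (fun q => (q.1.1, q.1.1⁻¹ * q.2.1, q.1.2)) ?_ ?_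
    · intro q hq
      simp only [coe_filter, mem_product, Set.mem_ofPred_eq] at hq
      obtain ⟨⟨⟨a1, a2⟩, a3, a4⟩, a5⟩ := hq
      simp only [coe_product, Set.mem_prod, mem_coe, mem_filter, mem_product]
      refine ⟨a1, ⟨hm _ (hi _ a1) _ a3, a2⟩, mem_smul_finset.2 ⟨_, a4, ?_⟩⟩
      have := hn _ a1
      rw [smul_eq_mul, mul_assoc, ← a5]
      field_simp
    · intro q hq r hr e
      simp only [coe_filter, mem_product, Set.mem_ofPred_eq] at hq hr
      simp only [Prod.mk.injEq] at e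
      obtain ⟨e1, e2, e3⟩ := e
      rw [e1] at e2
      have e4 := mul_left_cancel₀ (inv_ne_zero (hn _ hr.1.1.1)) e2
      have e5 : q.2.2 = r.2.2 := by
        refine mul_left_cancel₀ (hn _ hr.1.2.1) ?_
        rw [← hr.2, ← e4, ← hq.2, e1, e3]
      exact Prod.ext (Prod.ext e1 e3) (Prod.ext e4 e5)
  have c3 : ((H ×ˢ B).filter fun q => q.2 ∈ q.1 • B).card = ∑ x ∈ H, (B ∩ x • B).card := by
    rw [card_filter, sum_product]
    refine sum_congr rfl fun x _ => ?_
    rw [← card_filter, ← filter_mem_eq_inter]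
  rw [card_product, c3] at c2
  rw [card_product] at c1
  have c4 : ((H.card : ℝ) * B.card) ^ 2 ≤
      A.card * (H.card * ∑ x ∈ H, ((B ∩ x • B).card : ℝ)) := by
    have := c1.trans (Nat.mul_le_mul_left _ (by convert c2))
    exact_mod_cast this
  have hs : (0 : ℝ) ≤ ∑ x ∈ H, ((B ∩ x • B).card : ℝ) := sum_nonneg fun _ _ => Nat.cast_nonneg _
  have c5 : (H.card : ℝ) * B.card ≤ K * ∑ x ∈ H, ((B ∩ x • B).card : ℝ) := by
    refine le_of_mul_le_mul_left ?_ (mul_pos hh hb)
    have := mul_le_mul_of_nonneg_right hK (mul_nonneg hh.le hs)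
    nlinarith
  refine ⟨H.filter fun x => (B.card : ℝ) ≤ 2 * K * (B ∩ x • B).card, ?_, fun x hx => ?_⟩
  · have c6 : ∀ x ∈ H, 2 * K * ((B ∩ x • B).card : ℝ) ≤ B.card +
        if (B.card : ℝ) ≤ 2 * K * (B ∩ x • B).card then 2 * K * B.card else 0 := by
      intro x _
      split_ifs with e
      · have : ((B ∩ x • B).card : ℝ) ≤ B.card := by
          exact_mod_cast card_le_card inter_subset_left
        nlinarith
      · linarith
    have c7 := sum_le_sum c6
    rw [← mul_sum, sum_add_distrib, sum_const, ← sum_filter, sum_const, nsmul_eq_mul,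
      nsmul_eq_mul] at c7
    refine le_of_mul_le_mul_right ?_ hb
    linarith
  · obtain ⟨hx, hx'⟩ := mem_filter.1 hx
    have r1 := ruzsa_triangle_inequality_sub_sub_sub B (B ∩ x • B) (x • B)
    have r2 : (B - B ∩ x • B).card ≤ (B - B).card :=
      card_le_card (sub_subset_sub_left inter_subset_left)
    have r3 : (x • B - B ∩ x • B).card ≤ (B - B).card := by
      refine (card_le_card (t := x • (B - B)) fun z hz => ?_).trans card_smul_finset_le
      obtain ⟨u, hu, v, hv, rfl⟩ := mem_sub.1 hz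
      obtain ⟨u', hu', rfl⟩ := mem_smul_finset.1 hu
      obtain ⟨v', hv', rfl⟩ := mem_smul_finset.1 (mem_inter.1 hv).2
      exact mem_smul_finset.2 ⟨u' - v', sub_mem_sub hu' hv', smul_sub _ _ _⟩
    have r4 : ((B - x • B).card : ℝ) * (B ∩ x • B).card ≤ (B - B).card * (B - B).card := by
      exact_mod_cast r1.trans (Nat.mul_le_mul r2 r3)
    have r5 : ((B - B).card : ℝ) * (B - B).card ≤ (D * B.card) * (D * B.card) :=
      mul_self_le_mul_self (Nat.cast_nonneg _) hD
    refine le_of_mul_le_mul_right ?_ hb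
    have r6 := mul_le_mul_of_nonneg_left hx' (Nat.cast_nonneg (α := ℝ) (B - x • B).card)
    have r7 := mul_le_mul_of_nonneg_left (r4.trans r5) (by linarith : 0 ≤ 2 * K)
    nlinarith

end Pool.Agent.MP_c903c4_nt.K
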