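import Pool.Agent.MP_c903c4_nt.K.Defs

open Finset
open scoped Pointwise Classical

noncomputable section

namespace Pool.Agent.MP_c903c4_nt.K

theorem rr_BSG {p : ℕ} (A : Finset (ZMod p)) (d : ZMod p) :
    rr A d = (A.filter fun a => a - d ∈ A).card := by
  refine card_nbij' (fun x => x.1) (fun a => (a, a - d)) ?_ ?_ ?_ ?_
  · rintro ⟨a, b⟩ h
    simp only [coe_filter, mem_product, Set.mem_ofPred_eq] at h ⊢
    exact ⟨h.1.1, by rw [← h.2, sub_sub_cancel]; exact h.1.2⟩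
  · intro a h
    simp only [coe_filter, mem_product, Set.mem_ofPred_eq] at h ⊢
    exact ⟨h, sub_sub_cancel _ _⟩
  · rintro ⟨a, b⟩ h
    simp only [coe_filter, mem_product, Set.mem_ofPred_eq] at h ⊢
    rw [← h.2, sub_sub_cancel]
  · intro a _
    rfl

variable {G : Type} [AddCommGroup G] [Fintype G] [DecidableEq G]

theorem sum_BSG (A : Finset G) :
    ∑ d : G, ((A.filter fun a => a - d ∈ A).card : ℝ) = (A.card : ℝ) ^ 2 := by
  simp only [card_filter, Nat.cast_sum]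
  rw [sum_comm]
  have h : ∀ a ∈ A, ∑ d : G, (((if a - d ∈ A then 1 else 0 : ℕ)) : ℝ) = A.card := fun a _ => by
    rw [Fintype.sum_equiv (Equiv.subLeft a) _ fun u => (((if u ∈ A then 1 else 0 : ℕ)) : ℝ)]
    · simp
    · intro d
      rfl
  rw [sum_congr rfl h, sum_const, nsmul_eq_mul, sq]

theorem pair_BSG (A : Finset G) (a b : G) :
    ∑ s : G, (if a - s ∈ A ∧ b - s ∈ A then (1 : ℝ) else 0) =
      ((A.filter fun u => u - (a - b) ∈ A).card : ℝ) := by
  rw [Fintype.sum_equiv (Equiv.subLeft a) _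
    fun u => if u ∈ A ∧ u - (a - b) ∈ A then (1 : ℝ) else 0]
  · rw [sum_boole]
    congr 2
    ext u
    simp
  · intro s
    have : a - s - (a - b) = b - s := by abel
    simp only [Equiv.subLeft_apply, this]

theorem pick_BSG (A : Finset G) (r : G → ℝ) (K τ : ℝ) (hA : A.Nonempty) (hK : 1 ≤ K)
    (hr : ∀ d, r d = ((A.filter fun a => a - d ∈ A).card : ℝ)) (hτ : 16 * K ^ 2 * τ = A.card)
    (hE : (A.card : ℝ) ^ 3 ≤ K * ∑ d, r d ^ 2) : ∃ X ⊆ A, (A.card : ℝ) ^ 2 +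
      16 * K ^ 2 * ∑ a ∈ X, ((X.filter fun b => r (a - b) < τ).card : ℝ) ≤
        2 * K ^ 2 * (X.card : ℝ) ^ 2 := by
  have hn : (0 : ℝ) < A.card := by exact_mod_cast hA.card_pos
  have hK0 : 0 < K := by linarith
  have hτ0 : 0 < τ := by
    by_contra h
    have : 16 * K ^ 2 * τ ≤ 0 := mul_nonpos_of_nonneg_of_nonpos (by positivity) (not_lt.1 h)
    linarith
  have r0 : ∀ d, 0 ≤ r d := fun d => by rw [hr]; positivity
  have r1 : ∀ d, r d ≤ A.card := fun d => by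
    rw [hr]
    exact_mod_cast card_filter_le _ _
  have r2 : ∑ d, r d = (A.card : ℝ) ^ 2 := by
    simp only [hr]
    exact sum_BSG A
  set bd : G → ℝ := fun s => ∑ a ∈ A.filter (fun a => a - s ∈ A),
    (((A.filter fun a => a - s ∈ A).filter fun b => r (a - b) < τ).card : ℝ) with hbd
  have b0 : ∀ s, 0 ≤ bd s := fun s => sum_nonneg fun _ _ => by positivity
  have b1 : ∑ s, bd s ≤ (A.card : ℝ) ^ 2 * τ := by
    have e : ∀ s, bd s = ∑ a ∈ A, ∑ b ∈ A, (if r (a - b) < τ then (1 : ℝ) else 0) *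
        if a - s ∈ A ∧ b - s ∈ A then (1 : ℝ) else 0 := fun s => by
      simp only [hbd, card_filter, sum_filter, Nat.cast_sum]
      refine sum_congr rfl fun a _ => ?_
      by_cases h : a - s ∈ A
      · rw [if_pos h]
        refine sum_congr rfl fun b _ => ?_
        by_cases h1 : b - s ∈ A <;> by_cases h2 : r (a - b) < τ <;> simp [h, h1, h2]
      · simp [h]
    simp only [e]
    rw [sum_comm]
    have e2 : ∀ a ∈ A, ∑ s : G, ∑ b ∈ A, (if r (a - b) < τ then (1 : ℝ) else 0) *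
        (if a - s ∈ A ∧ b - s ∈ A then (1 : ℝ) else 0) ≤ A.card * τ := fun a _ => by
      rw [sum_comm, ← nsmul_eq_mul]
      refine sum_le_card_nsmul _ _ _ fun b _ => ?_
      rw [← mul_sum, pair_BSG, ← hr]
      split_ifs with h
      · linarith
      · linarith
    refine (sum_le_card_nsmul _ _ _ e2).trans (le_of_eq ?_)
    rw [nsmul_eq_mul]
    ring
  have b2 : ∑ s, r s * bd s ≤ A.card * ((A.card : ℝ) ^ 2 * τ) := by
    refine le_trans (sum_le_sum fun s _ => mul_le_mul_of_nonneg_right (r1 s) (b0 s)) ?_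
    rw [← mul_sum]
    exact mul_le_mul_of_nonneg_left b1 hn.le
  have c1 : (∑ d, r d ^ 2) ^ 2 ≤ (∑ d, r d) * ∑ d, r d ^ 3 :=
    sum_sq_le_sum_mul_sum_of_sq_le_mul univ (fun d _ => r0 d) (fun d _ => pow_nonneg (r0 d) 3)
      fun d _ => le_of_eq (by ring)
  have c2 : (A.card : ℝ) ^ 4 ≤ K ^ 2 * ∑ d, r d ^ 3 := by
    have h1 := pow_le_pow_left₀ (by positivity) hE 2
    rw [r2] at c1
    have h2 : (A.card : ℝ) ^ 2 * (A.card : ℝ) ^ 4 ≤ (A.card : ℝ) ^ 2 * (K ^ 2 * ∑ d, r d ^ 3) := by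
      have h3 := mul_le_mul_of_nonneg_left c1 (sq_nonneg K)
      calc _ = ((A.card : ℝ) ^ 3) ^ 2 := by ring
        _ ≤ K ^ 2 * (∑ d, r d ^ 2) ^ 2 := by rw [← mul_pow]; exact h1
        _ ≤ _ := h3.trans (le_of_eq (by ring))
    exact le_of_mul_le_mul_left h2 (by positivity)
  by_contra hc
  have hneg : ∀ s, 2 * K ^ 2 * r s ^ 2 - ((A.card : ℝ) ^ 2 + 16 * K ^ 2 * bd s) < 0 := fun s => by
    by_contra h
    refine hc ⟨A.filter fun a => a - s ∈ A, filter_subset _ _, ?_⟩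
    rw [← hr]
    exact sub_nonneg.1 (not_lt.1 h)
  have h00 : r 0 = A.card := by
    rw [hr, filter_true_of_mem fun a ha => by rwa [sub_zero]]
  have h1 : ∑ s, r s * (2 * K ^ 2 * r s ^ 2 - ((A.card : ℝ) ^ 2 + 16 * K ^ 2 * bd s)) < 0 :=
    sum_neg' (fun s _ => mul_nonpos_of_nonneg_of_nonpos (r0 s) (hneg s).le)
      ⟨0, mem_univ _, mul_neg_of_pos_of_neg (h00 ▸ hn) (hneg 0)⟩
  have h2 : ∑ s, r s * (2 * K ^ 2 * r s ^ 2 - ((A.card : ℝ) ^ 2 + 16 * K ^ 2 * bd s)) =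
      2 * (K ^ 2 * ∑ s, r s ^ 3) - ((A.card : ℝ) ^ 2 * ∑ s, r s +
        16 * K ^ 2 * ∑ s, r s * bd s) := by
    simp only [mul_sum, ← sum_add_distrib, ← sum_sub_distrib]
    exact sum_congr rfl fun s _ => by ring
  have h3 := mul_le_mul_of_nonneg_left b2 (show 0 ≤ 16 * K ^ 2 by positivity)
  have h4 : 16 * K ^ 2 * (A.card * ((A.card : ℝ) ^ 2 * τ)) = (A.card : ℝ) ^ 4 := by
    linear_combination (A.card : ℝ) ^ 3 * hτ
  rw [h2, r2] at h1
  nlinarith

theorem diff_BSG (X B : Finset G) (r : G → ℝ) (τ : ℝ) (hτ : 0 ≤ τ) (r0 : ∀ d, 0 ≤ r d)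
    (hB : ∀ a ∈ B, 4 * ((X.filter fun b => r (a - b) < τ).card : ℝ) ≤ X.card) :
    ((B - B).card : ℝ) * (X.card / 2 * τ ^ 2) ≤ (∑ d, r d) ^ 2 := by
  have h1 : ∀ d ∈ B - B, (X.card : ℝ) / 2 * τ ^ 2 ≤ ∑ e, r e * r (e - d) := fun d hd => by
    obtain ⟨a, ha, a', ha', rfl⟩ := mem_sub.1 hd
    set Y := X.filter fun b => τ ≤ r (a - b) ∧ τ ≤ r (a' - b) with hY
    have h2 : X ⊆ Y ∪ ((X.filter fun b => r (a - b) < τ) ∪ X.filter fun b => r (a' - b) < τ) := by
      intro b hb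
      simp only [hY, mem_union, mem_filter, hb, true_and]
      by_cases h3 : r (a - b) < τ
      · exact Or.inr (Or.inl h3)
      · by_cases h4 : r (a' - b) < τ
        · exact Or.inr (Or.inr h4)
        · exact Or.inl ⟨not_lt.1 h3, not_lt.1 h4⟩
    have h3 : (X.card : ℝ) ≤ Y.card + (((X.filter fun b => r (a - b) < τ).card : ℝ) +
        (X.filter fun b => r (a' - b) < τ).card) := by
      exact_mod_cast (card_le_card h2).trans ((card_union_le _ _).trans
        (Nat.add_le_add_left (card_union_le _ _) _))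
    have h4 : (X.card : ℝ) / 2 ≤ Y.card := by linarith [hB a ha, hB a' ha']
    rw [← Fintype.sum_equiv (Equiv.subLeft a) (fun b => r (a - b) * r (a' - b)) _ fun b => by
      have : a - b - (a - a') = a' - b := by abel
      simp only [Equiv.subLeft_apply, this]]
    calc _ ≤ (Y.card : ℝ) * τ ^ 2 := mul_le_mul_of_nonneg_right h4 (sq_nonneg τ)
      _ ≤ ∑ b ∈ Y, r (a - b) * r (a' - b) := by
          rw [← nsmul_eq_mul]
          refine card_nsmul_le_sum _ _ _ fun b hb => ?_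
          obtain ⟨-, h5, h6⟩ := mem_filter.1 hb
          rw [sq]
          exact mul_le_mul h5 h6 hτ (r0 _)
      _ ≤ _ := sum_le_sum_of_subset_of_nonneg (subset_univ _) fun b _ _ => mul_nonneg (r0 _) (r0 _)
  rw [← nsmul_eq_mul]
  refine (card_nsmul_le_sum _ _ _ h1).trans ((sum_le_sum_of_subset_of_nonneg (subset_univ _)
    fun d _ _ => sum_nonneg fun e _ => mul_nonneg (r0 _) (r0 _)).trans (le_of_eq ?_))
  rw [sum_comm, sq, sum_mul]
  refine sum_congr rfl fun e _ => ?_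
  rw [← mul_sum, Fintype.sum_equiv (Equiv.subLeft e) (fun d => r (e - d)) r fun _ => rfl]

theorem half_BSG {ι : Type} (X : Finset ι) (f : ι → ℝ) (f0 : ∀ a, 0 ≤ f a) (hX : X.Nonempty)
    (h : 8 * ∑ a ∈ X, f a ≤ (X.card : ℝ) ^ 2) :
    (X.card : ℝ) ≤ 2 * (X.filter fun a => 4 * f a ≤ X.card).card := by
  have hx : (0 : ℝ) < X.card := by exact_mod_cast hX.card_pos
  have h1 := card_filter_add_card_filter_not (s := X) fun a => 4 * f a ≤ X.card
  have h2 : ((X.filter fun a => 4 * f a ≤ X.card).card : ℝ) +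
      (X.filter fun a => ¬ 4 * f a ≤ X.card).card = X.card := by exact_mod_cast h1
  have h3 : ((X.filter fun a => ¬ 4 * f a ≤ X.card).card : ℝ) * (X.card / 4) ≤ ∑ a ∈ X, f a := by
    rw [← nsmul_eq_mul]
    refine (card_nsmul_le_sum _ f _ fun a ha => ?_).trans
      (sum_le_sum_of_subset_of_nonneg (filter_subset _ _) fun a _ _ => f0 a)
    have := not_le.1 (mem_filter.1 ha).2
    linarith
  have h4 : 2 * ((X.filter fun a => ¬ 4 * f a ≤ X.card).card : ℝ) ≤ X.card :=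
    le_of_mul_le_mul_right (by nlinarith) hx
  linarith

theorem stBSG : StBSG := by
  intro p _ A K hA hK hE
  have hn : (0 : ℝ) < A.card := by exact_mod_cast hA.card_pos
  have hK0 : 0 < K := by linarith
  obtain ⟨τ, hτ⟩ : ∃ τ : ℝ, 16 * K ^ 2 * τ = A.card :=
    ⟨A.card / (16 * K ^ 2), by field_simp⟩
  have hτ0 : 0 < τ := by
    by_contra h
    have : 16 * K ^ 2 * τ ≤ 0 := mul_nonpos_of_nonneg_of_nonpos (by positivity) (not_lt.1 h)
    linarith
  have hr : ∀ d, (rr A d : ℝ) = ((A.filter fun a => a - d ∈ A).card : ℝ) := fun d => by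
    rw [rr_BSG]
  obtain ⟨X, hXA, hX⟩ := pick_BSG A (fun d => (rr A d : ℝ)) K τ hA hK hr hτ hE
  set f : ZMod p → ℝ := fun a => ((X.filter fun b => (rr A (a - b) : ℝ) < τ).card : ℝ) with hf
  have f0 : ∀ a, 0 ≤ f a := fun a => Nat.cast_nonneg _
  have s0 : 0 ≤ 16 * K ^ 2 * ∑ a ∈ X, f a := mul_nonneg (by positivity) (sum_nonneg fun a _ => f0 a)
  have h1 : (A.card : ℝ) ^ 2 ≤ 2 * K ^ 2 * (X.card : ℝ) ^ 2 := by linarith
  have hX0 : X.Nonempty := by
    rw [nonempty_iff_ne_empty]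
    rintro rfl
    simp only [card_empty, Nat.cast_zero] at h1
    nlinarith
  have hx : (0 : ℝ) < X.card := by exact_mod_cast hX0.card_pos
  have h2 : 8 * ∑ a ∈ X, f a ≤ (X.card : ℝ) ^ 2 :=
    le_of_mul_le_mul_left (a := 2 * K ^ 2) (by nlinarith) (by positivity)
  have h3 := half_BSG X f f0 hX0 h2
  set B := X.filter fun a => 4 * f a ≤ X.card with hB
  have h4 := diff_BSG X B (fun d => (rr A d : ℝ)) τ hτ0.le (fun _ => Nat.cast_nonneg _)
    fun a ha => (mem_filter.1 ha).2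
  have h5 : ∑ d, (rr A d : ℝ) = (A.card : ℝ) ^ 2 := by
    simp only [hr]
    exact sum_BSG A
  rw [h5] at h4
  have hb : (0 : ℝ) ≤ B.card := Nat.cast_nonneg _
  have hd : (0 : ℝ) ≤ (B - B).card := Nat.cast_nonneg _
  refine ⟨B, (filter_subset _ _).trans hXA, ?_, ?_⟩
  · refine abs_le_of_sq_le_sq' ?_ (by positivity) |>.2
    have h6 := mul_le_mul_of_nonneg_left (pow_le_pow_left₀ hx.le h3 2)
      (show 0 ≤ 2 * K ^ 2 by positivity)
    nlinarith [mul_nonneg (sq_nonneg K) (sq_nonneg (B.card : ℝ))]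
  · generalize ((B - B).card : ℝ) = D at h4 hd
    generalize (B.card : ℝ) = b at h3 hb
    generalize (X.card : ℝ) = x at h1 h3 h4 hx
    generalize (A.card : ℝ) = n at h1 h4 hn hτ
    have h6 : D * x * n ^ 2 ≤ 512 * K ^ 4 * n ^ 2 * n ^ 2 := by
      have h7 := mul_le_mul_of_nonneg_left h4 (show 0 ≤ 512 * K ^ 4 by positivity)
      calc _ = D * x * (16 * K ^ 2 * τ) ^ 2 := by rw [hτ]
        _ = 512 * K ^ 4 * (D * (x / 2 * τ ^ 2)) := by ring
        _ ≤ _ := h7.trans (le_of_eq (by ring))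
    have h7 : D * x ≤ 512 * K ^ 4 * n ^ 2 := le_of_mul_le_mul_right h6 (by positivity)
    have h8 : D * x ≤ 1024 * K ^ 6 * x * x :=
      h7.trans ((mul_le_mul_of_nonneg_left h1 (by positivity)).trans (le_of_eq (by ring)))
    have h9 : D ≤ 1024 * K ^ 6 * x := le_of_mul_le_mul_right h8 hx
    have h10 := mul_le_mul_of_nonneg_left h3 (show 0 ≤ 1024 * K ^ 6 by positivity)
    have h11 : 0 ≤ K ^ 6 * b := by positivity
    linarith

end Pool.Agent.MP_c903c4_nt.K
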