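import Pool.Agent.MP_c903c4_nt.K.Defs

open Finset
open scoped Pointwise Classical

noncomputable section

namespace Pool.Agent.MP_c903c4_nt.K

lemma blk_Mer {m : ℕ} (hm : 1 ≤ m) (T : Finset ℕ) (hT : ∀ p ∈ T, p.Prime ∧ Nat.log 2 p = m) :
    ∑ p ∈ T, (1 : ℝ) / p ≤ 4 / m := by
  have h1 : ∀ p ∈ T, 2 ^ m ≤ p := fun p hp =>
    (hT p hp).2 ▸ Nat.pow_log_le_self 2 (hT p hp).1.ne_zero
  have h2 : ∏ p ∈ T, p ≤ primorial (2 ^ (m + 1)) :=
    prod_le_prod_of_subset_of_one_le' (fun p hp => mem_filter.2 ⟨mem_range.2 (Nat.lt_succ_of_lt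
      ((hT p hp).2 ▸ Nat.lt_pow_succ_log_self one_lt_two p)), (hT p hp).1⟩)
      fun p hp _ => (mem_filter.1 hp).2.one_le
  have h3 := (pow_card_le_prod T (fun p => p) _ h1).trans (h2.trans (primorial_le_four_pow _))
  rw [← pow_mul, show (4 : ℕ) = 2 ^ 2 by norm_num, ← pow_mul,
    pow_le_pow_iff_right₀ one_lt_two] at h3
  have h4 : (m : ℝ) * T.card ≤ 2 * 2 ^ (m + 1) := by exact_mod_cast h3
  have m0 : (0 : ℝ) < m := by exact_mod_cast hm
  refine (sum_le_card_nsmul T _ ((1 : ℝ) / 2 ^ m) fun p hp => ?_).trans ?_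
  · exact one_div_le_one_div_of_le (by positivity) (by exact_mod_cast h1 p hp)
  · rw [nsmul_eq_mul, mul_one_div, div_le_div_iff₀ (by positivity) m0]
    rw [pow_succ] at h4
    linarith

lemma har_Mer (j r : ℕ) : ∑ m ∈ Ico (2 ^ j) (2 ^ (j + r)), (4 : ℝ) / (m : ℕ) ≤ 4 * r := by
  induction r with
  | zero => simp
  | succ r ih =>
    rw [← sum_Ico_consecutive _ (Nat.pow_le_pow_right two_pos (Nat.le_add_right j r))
      (Nat.pow_le_pow_right two_pos (by omega : j + r ≤ j + (r + 1)))]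
    have h := sum_le_card_nsmul (Ico (2 ^ (j + r)) (2 ^ (j + (r + 1)))) (fun m : ℕ => (4 : ℝ) / m)
      (4 / 2 ^ (j + r)) fun m hm =>
        div_le_div_of_nonneg_left (by norm_num) (by positivity) (by exact_mod_cast (mem_Ico.1 hm).1)
    rw [Nat.card_Ico, show 2 ^ (j + (r + 1)) - 2 ^ (j + r) = 2 ^ (j + r) by
      rw [← add_assoc, pow_succ]; omega, nsmul_eq_mul, Nat.cast_pow, Nat.cast_ofNat,
      mul_div_cancel₀ _ (by positivity)] at h
    push_cast
    linarith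

theorem stMer : StMer := by
  intro j r T hT
  rw [← sum_fiberwise_of_maps_to (g := Nat.log 2) (t := Ico (2 ^ j) (2 ^ (j + r)))
    fun p hp => mem_Ico.2 ⟨Nat.le_log_of_pow_le one_lt_two (hT p hp).2.1,
      Nat.log_lt_of_lt_pow (hT p hp).1.ne_zero (hT p hp).2.2⟩]
  refine le_trans (sum_le_sum fun m hm => ?_) (har_Mer j r)
  exact blk_Mer (Nat.one_le_two_pow.trans (mem_Ico.1 hm).1) _ fun p hp =>
    ⟨(hT p (mem_filter.1 hp).1).1, (mem_filter.1 hp).2⟩

lemma cnt_Mer {a : ℕ} (ha : 1 ≤ a) (T : Finset ℕ)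
    (hT : ∀ p ∈ T, p.Prime ∧ orderOf (9 : ZMod p) = a) : T.card ≤ 4 * a := by
  have h0 : 1 < 9 ^ a := Nat.one_lt_pow (by omega) (by norm_num)
  have h1 : T ⊆ (9 ^ a - 1).primeFactors := fun p hp => by
    refine Nat.mem_primeFactors.2 ⟨(hT p hp).1, (ZMod.natCast_eq_zero_iff _ _).1 ?_, by omega⟩
    rw [Nat.cast_sub h0.le, Nat.cast_pow, ← (hT p hp).2, Nat.cast_ofNat, pow_orderOf_eq_one,
      Nat.cast_one, sub_self]
  have h2 := (pow_card_le_prod _ (fun p => p) 2 fun p hp =>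
    (Nat.prime_of_mem_primeFactors hp).two_le).trans
    (Nat.le_of_dvd (by omega : 0 < 9 ^ a - 1) (Nat.prod_primeFactors_dvd _))
  have h3 : 9 ^ a ≤ 2 ^ (4 * a) := by
    rw [pow_mul]
    exact Nat.pow_le_pow_left (by norm_num) a
  exact (card_le_card h1).trans ((pow_le_pow_iff_right₀ one_lt_two).1
    (h2.trans ((Nat.sub_le _ _).trans h3)))

lemma trm_Mer (b : ℕ) {a : ℕ} (ha : 2 ≤ a) :
    4 * a * (((2 : ℝ) ^ b) ^ (Nat.log 2 (Nat.log 2 a) + 1) * (2 / (a : ℝ) ^ 3)) ≤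
      8 * 2 ^ b * (4 * (b + 1)) ^ b * (1 / (a : ℝ) ^ (3 / 2 : ℝ)) := by
  have a1 : (1 : ℝ) ≤ a := by exact_mod_cast (by omega : 1 ≤ a)
  have a0 : (0 : ℝ) < a := by linarith
  have h1 : (2 : ℝ) ^ Nat.log 2 (Nat.log 2 a) ≤ Nat.log 2 a := by
    exact_mod_cast Nat.pow_log_le_self 2 (Nat.log_pos one_lt_two ha).ne'
  have h2 : (Nat.log 2 a : ℝ) ≤ 2 * Real.log a := by
    have e : ((2 : ℝ) ^ Nat.log 2 a) ≤ a := by
      exact_mod_cast Nat.pow_log_le_self 2 (by omega : a ≠ 0)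
    have e1 := Real.log_le_log (by positivity) e
    rw [Real.log_pow] at e1
    nlinarith [Real.log_two_gt_d9, Nat.cast_nonneg (α := ℝ) (Nat.log 2 a)]
  have h3 := Real.log_le_rpow_div a0.le (ε := 1 / (2 * (b + 1))) (by positivity)
  have h4 : (2 : ℝ) ^ Nat.log 2 (Nat.log 2 a) ≤
      4 * (b + 1) * (a : ℝ) ^ (1 / (2 * (b + 1)) : ℝ) := by
    rw [div_div_eq_mul_div, div_one] at h3
    linarith
  have h5 : ((a : ℝ) ^ (1 / (2 * (b + 1)) : ℝ)) ^ b ≤ (a : ℝ) ^ (1 / 2 : ℝ) := by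
    rw [← Real.rpow_mul_natCast a0.le]
    refine Real.rpow_le_rpow_of_exponent_le a1 ?_
    rw [one_div_mul_eq_div, div_le_div_iff₀ (by positivity) two_pos]
    linarith
  have h6 := pow_le_pow_left₀ (by positivity) h4 b
  rw [mul_pow] at h6
  have h7 := h6.trans (mul_le_mul_of_nonneg_left h5 (by positivity))
  have h8 : (a : ℝ) ^ (1 / 2 : ℝ) / (a : ℝ) ^ 2 = 1 / (a : ℝ) ^ (3 / 2 : ℝ) := by
    rw [div_eq_div_iff (by positivity) (by positivity), ← Real.rpow_add a0, one_mul]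
    norm_num
  calc _ = 8 * 2 ^ b * ((2 : ℝ) ^ Nat.log 2 (Nat.log 2 a)) ^ b / (a : ℝ) ^ 2 := by
        rw [pow_succ, ← pow_mul, ← pow_mul, mul_comm b]
        field_simp
        norm_num
    _ ≤ 8 * 2 ^ b * ((4 * (b + 1)) ^ b * (a : ℝ) ^ (1 / 2 : ℝ)) / (a : ℝ) ^ 2 := by gcongr
    _ = _ := by rw [← h8]; ring

theorem stTailA : StTailA := by
  intro b
  have hs : Summable fun a : ℕ =>
      8 * 2 ^ b * (4 * (b + 1)) ^ b * (1 / (a : ℝ) ^ (3 / 2 : ℝ)) :=
    (Real.summable_one_div_nat_rpow.2 (by norm_num)).mul_left _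
  obtain ⟨s, hs⟩ := summable_iff_vanishing_norm.1 hs (1 / 30) (by norm_num)
  refine ⟨s.sup id + 1, fun T hT => ?_⟩
  have h1 := hs (T.image fun p => orderOf (9 : ZMod p)) (disjoint_left.2 fun a ha hb => by
    obtain ⟨p, hp, rfl⟩ := mem_image.1 ha
    have := (hT p hp).2.2
    have := le_sup (f := id) hb
    simp only [id] at this
    omega)
  refine le_trans ?_ ((Real.le_norm_self _).trans h1.le)
  rw [← sum_fiberwise_of_maps_to (g := fun p => orderOf (9 : ZMod p))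
    fun p hp => mem_image_of_mem _ hp]
  refine sum_le_sum fun a ha => ?_
  have a2 : 2 ≤ a := by
    obtain ⟨p, hp, rfl⟩ := mem_image.1 ha
    have := (hT p hp).2.2
    omega
  refine le_trans ?_ (trm_Mer b a2)
  rw [sum_congr rfl fun p hp => by rw [(mem_filter.1 hp).2], sum_const, nsmul_eq_mul]
  refine mul_le_mul_of_nonneg_right ?_ (by positivity)
  exact_mod_cast cnt_Mer (by omega) _ fun p hp =>
    ⟨(hT p (mem_filter.1 hp).1).1, (mem_filter.1 hp).2⟩

theorem stTailI : StTailI := by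
  intro K
  obtain ⟨l₀, h0⟩ := Filter.eventually_atTop.1 (tendsto_natCast_atTop_atTop.eventually
    (Real.isLittleO_log_id_atTop.bound (c := 1 / (240 * (K + 1))) (by positivity)))
  refine ⟨max l₀ 240, fun l hl T hT => ?_⟩
  have h1 := h0 l (le_of_max_le_left hl)
  simp only [id, Real.norm_eq_abs, Nat.abs_cast] at h1
  replace h1 := (le_abs_self _).trans h1
  have l1 : 240 ≤ l := le_of_max_le_right hl
  have l2 : (240 : ℝ) ≤ l := by exact_mod_cast l1
  have e : ∀ p ∈ T, p = l * ((p - 1) / l) + 1 := fun p hp => by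
    have := Nat.mul_div_cancel' (hT p hp).2.1
    have := (hT p hp).1
    omega
  have h2 : ∑ p ∈ T, (4 : ℝ) / p ≤ ∑ i ∈ Icc 1 (l ^ K), 4 / (l : ℝ) * (i : ℝ)⁻¹ := by
    refine le_trans ?_ (sum_le_sum_of_subset_of_nonneg (s := T.image fun p => (p - 1) / l)
      (fun i hi => ?_) fun _ _ _ => by positivity)
    · rw [sum_image fun p hp q hq h => by
        rw [e p hp, e q hq, show (p - 1) / l = (q - 1) / l from h]]
      refine sum_le_sum fun p hp => ?_
      have h3 := e p hp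
      have h4 := (hT p hp).1
      generalize (p - 1) / l = i at h3 ⊢
      have i0 : 0 < i := Nat.pos_of_ne_zero fun h => by
        rw [h] at h3
        omega
      rw [h3, ← div_eq_mul_inv, div_div]
      push_cast
      exact div_le_div_of_nonneg_left (by norm_num) (by positivity) (by linarith)
    · obtain ⟨p, hp, rfl⟩ := mem_image.1 hi
      refine mem_Icc.2 ⟨Nat.pos_of_ne_zero fun h => ?_,
        (Nat.div_le_self _ _).trans ((Nat.sub_le _ _).trans (hT p hp).2.2)⟩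
      have h3 := e p hp
      have := (hT p hp).1
      rw [h] at h3
      omega
  have h3 := harmonic_le_one_add_log (l ^ K)
  rw [harmonic_eq_sum_Icc] at h3
  push_cast at h3
  rw [Real.log_pow] at h3
  rw [← mul_sum] at h2
  refine h2.trans ((mul_le_mul_of_nonneg_left h3 (by positivity)).trans ?_)
  have h4 : (K + 1) * Real.log l ≤ l / 240 :=
    (mul_le_mul_of_nonneg_left h1 (by positivity)).trans (le_of_eq (by field_simp))
  have h5 := Real.log_natCast_nonneg l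
  rw [div_mul_eq_mul_div, div_le_iff₀ (by linarith)]
  linarith

end Pool.Agent.MP_c903c4_nt.K
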