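import Pool.Agent.MP_c903c4_nt.K.Loc
import Pool.Agent.MP_c903c4_nt.K.Mer

/-!
Activation times, finishing times, shares and weights.
-/

open Finset
open scoped Pointwise Classical Nat

noncomputable section

namespace Pool.Agent.MP_c903c4_nt.K

/-- The epoch of a time. -/
def ep (t : ℕ) : ℕ := Nat.log 2 (Nat.log 2 (t + 1))

lemma ep_mono : Monotone ep := fun _ _ h =>
  Nat.log_mono_right (Nat.log_mono_right (Nat.succ_le_succ h))

lemma ep_lt (t : ℕ) : t + 1 < 2 ^ 2 ^ (ep t + 1) :=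
  (Nat.lt_pow_succ_log_self one_lt_two _).trans_le
    (Nat.pow_le_pow_right two_pos (Nat.lt_pow_succ_log_self one_lt_two _))

lemma ep_le {t : ℕ} (h : 1 ≤ t) : 2 ^ 2 ^ ep t ≤ t + 1 :=
  (Nat.pow_le_pow_right two_pos (Nat.pow_log_le_self 2
    (Nat.log_pos one_lt_two (by omega)).ne')).trans (Nat.pow_log_le_self 2 (by omega))

lemma ep_pow_lt (t κ : ℕ) : (t + 1) ^ 2 ^ κ < 2 ^ 2 ^ (ep t + (κ + 1)) := by
  have h := Nat.pow_lt_pow_left (ep_lt t) (n := 2 ^ κ) (by positivity)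
  rwa [← pow_mul, ← pow_add, show ep t + 1 + κ = ep t + (κ + 1) by ring] at h

lemma ep_log {t κ p : ℕ} (h : 1 ≤ t) (hp : (t + 1) ^ 2 ^ κ < p) : 2 ^ (κ + ep t) ≤ Nat.log 2 p := by
  refine Nat.le_log_of_pow_le one_lt_two (le_trans ?_ hp.le)
  rw [add_comm, pow_add, pow_mul]
  exact Nat.pow_le_pow_left (ep_le h) _

lemma ep_prod (P : Finset ℕ) (al : ℕ → ℕ) (m : ℕ → ℝ) (E : ℕ → ℕ) (hE : Monotone E) (b : ℕ)
    (hm : ∀ q ∈ P, 0 ≤ m q) (h : ∀ j, ∑ q ∈ P.filter (fun q => E (al q) = j), m q ≤ b / 3)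
    (u v : ℕ) : ∏ t ∈ Ico u v, (1 + 2 * ∑ q ∈ P.filter (fun q => al q = t), m q) ≤
      ((2 : ℝ) ^ b) ^ (E (v - 1) - E u + 1) := by
  have h0 : ∀ t, 0 ≤ ∑ q ∈ P.filter (fun q => al q = t), m q := fun t =>
    sum_nonneg fun q hq => hm q (mem_filter.1 hq).1
  have h1 : ∑ t ∈ Ico u v, ∑ q ∈ P.filter (fun q => al q = t), m q ≤
      ∑ j ∈ Icc (E u) (E (v - 1)), ∑ q ∈ P.filter (fun q => E (al q) = j), m q := by
    rw [sum_fiberwise_eq_sum_filter, sum_fiberwise_eq_sum_filter (g := fun q => E (al q))]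
    refine sum_le_sum_of_subset_of_nonneg (fun q hq => ?_) fun q hq _ => hm q (mem_filter.1 hq).1
    obtain ⟨a1, a2⟩ := mem_filter.1 hq
    obtain ⟨a3, a4⟩ := mem_Ico.1 a2
    exact mem_filter.2 ⟨a1, mem_Icc.2 ⟨hE a3, hE (by omega)⟩⟩
  have h2 := h1.trans (sum_le_card_nsmul _ _ _ fun j _ => h j)
  rw [Nat.card_Icc, nsmul_eq_mul] at h2
  have h3 : ((E (v - 1) + 1 - E u : ℕ) : ℝ) ≤ (E (v - 1) - E u + 1 : ℕ) := by
    exact_mod_cast (by omega : E (v - 1) + 1 - E u ≤ E (v - 1) - E u + 1)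
  have h4 := h2.trans (mul_le_mul_of_nonneg_right h3 (by positivity))
  generalize E (v - 1) - E u + 1 = D at h4 ⊢
  calc _ ≤ ∏ t ∈ Ico u v, Real.exp (2 * ∑ q ∈ P.filter (fun q => al q = t), m q) :=
        prod_le_prod (fun t _ => by linarith [h0 t]) fun t _ => by
          linarith [Real.add_one_le_exp (2 * ∑ q ∈ P.filter (fun q => al q = t), m q)]
    _ = Real.exp (2 * ∑ t ∈ Ico u v, ∑ q ∈ P.filter (fun q => al q = t), m q) := by
        rw [mul_sum, Real.exp_sum]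
    _ ≤ Real.exp ((b * D : ℕ) * Real.log 2) := by
        refine Real.exp_le_exp.2 ?_
        push_cast
        nlinarith [Real.log_two_gt_d9, (by positivity : (0 : ℝ) ≤ b * D)]
    _ = _ := by rw [Real.exp_nat_mul, Real.exp_log two_pos, pow_mul]

lemma split2 (T : Finset ℕ) (m : ℕ → ℝ) (r : ℕ → Prop) {x y : ℝ}
    (h1 : ∀ U : Finset ℕ, (∀ q ∈ U, q ∈ T ∧ r q) → ∑ q ∈ U, m q ≤ x)
    (h2 : ∀ U : Finset ℕ, (∀ q ∈ U, q ∈ T ∧ ¬ r q) → ∑ q ∈ U, m q ≤ y) :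
    ∑ q ∈ T, m q ≤ x + y := by
  rw [← sum_filter_add_sum_filter_not T r]
  exact add_le_add (h1 _ fun q hq => mem_filter.1 hq) (h2 _ fun q hq => mem_filter.1 hq)

lemma aa_nine {p : ℕ} (hp : p.Prime) (h5 : 5 ≤ p) : p ∣ 9 ^ aa p - 1 ∧ p < 9 ^ aa p := by
  have h0 : 1 < 9 ^ aa p := Nat.one_lt_pow (aa_pos hp h5).ne' (by norm_num)
  have h1 : p ∣ 9 ^ aa p - 1 := by
    refine (ZMod.natCast_eq_zero_iff _ _).1 ?_
    rw [Nat.cast_sub h0.le, Nat.cast_pow, Nat.cast_ofNat, aa, pow_orderOf_eq_one, Nat.cast_one,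
      sub_self]
  exact ⟨h1, by have := Nat.le_of_dvd (by omega) h1; omega⟩

lemma ll_spec {p : ℕ} (hp : p.Prime) (h5 : 5 ≤ p) : (ll p).Prime ∧ ll p ∣ aa p := by
  have h1 : aa p ≠ 1 := fun h => by
    have h2 := (aa_nine hp h5).1
    rw [h] at h2
    have := Nat.le_of_dvd two_pos (hp.dvd_of_dvd_pow (show p ∣ 2 ^ 3 from h2))
    omega
  have h2 := aa_pos hp h5
  obtain ⟨l, hl, he⟩ := Finset.exists_mem_eq_sup _
    (Nat.nonempty_primeFactors.2 (by omega : 1 < aa p)) id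
  have : ll p = l := he
  rw [this]
  exact ⟨Nat.prime_of_mem_primeFactors hl, Nat.dvd_of_mem_primeFactors hl⟩

lemma hh_mul (L p t : ℕ) : Nat.gcd (aa p) ((t !) ^ L) * hh L p t = aa p := by
  rw [hh, orderOf_pow' _ (pow_ne_zero _ (Nat.factorial_ne_zero t))]
  exact Nat.mul_div_cancel' (Nat.gcd_dvd_left _ _)

lemma hh_zero (L p : ℕ) : hh L p 0 = aa p := by simp [hh, aa]

lemma fac_le {q t L : ℕ} (hq : q.Prime) (h : q ∣ (t !) ^ L) : q ≤ t :=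
  hq.dvd_factorial.1 (hq.dvd_of_dvd_pow h)

lemma cube_sum (T : Finset ℕ) (hT : ∀ p ∈ T, p.Prime ∧ 5 ≤ p ∧ aa p ^ 3 ≤ p) :
    ∑ p ∈ T, (1 : ℝ) / p ≤ 4 := by
  have h2 : ∀ p ∈ T, 2 ≤ aa p := fun p hp =>
    (ll_spec (hT p hp).1 (hT p hp).2.1).1.two_le.trans
      (Nat.le_of_dvd (aa_pos (hT p hp).1 (hT p hp).2.1) (ll_spec (hT p hp).1 (hT p hp).2.1).2)
  rw [← sum_fiberwise_of_maps_to (g := aa) (t := Ioc 1 (T.sup aa + 1))
    fun p hp => mem_Ioc.2 ⟨h2 p hp, (le_sup (f := aa) hp).trans (Nat.le_succ _)⟩]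
  have h3 := sum_Ioc_inv_sq_le_sub (α := ℝ) one_ne_zero (Nat.le_add_left 1 (T.sup aa))
  have h4 : (0 : ℝ) ≤ ((T.sup aa + 1 : ℕ) : ℝ)⁻¹ := by positivity
  refine le_trans (sum_le_sum (g := fun a : ℕ => 4 * ((a : ℝ) ^ 2)⁻¹) fun a ha => ?_) ?_
  · have a1 : 1 < a := (mem_Ioc.1 ha).1
    have a0 : (0 : ℝ) < a := by exact_mod_cast (by omega : 0 < a)
    refine (sum_le_card_nsmul _ _ (1 / (a : ℝ) ^ 3) fun p hp => ?_).trans ?_
    · obtain ⟨b1, b2⟩ := mem_filter.1 hp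
      refine one_div_le_one_div_of_le (by positivity) ?_
      have := (hT p b1).2.2
      rw [b2] at this
      exact_mod_cast this
    · have c : ((T.filter fun p => aa p = a).card : ℝ) ≤ 4 * a := by
        exact_mod_cast cnt_Mer a1.le _ fun p hp => ⟨(hT p (mem_filter.1 hp).1).1, (mem_filter.1 hp).2⟩
      rw [nsmul_eq_mul]
      refine (mul_le_mul_of_nonneg_right c (by positivity)).trans (le_of_eq ?_)
      field_simp
  · rw [← mul_sum]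
    rw [Nat.cast_one, inv_one] at h3
    linarith

/-- The finishing time of a prime that is not small. -/
def lp (t₀ p : ℕ) : ℕ := max (ll p) t₀

/-- The activation time of a prime that is not small. -/
def ac (K t₀ L p : ℕ) : ℕ :=
  if aa p ^ 3 ≤ p then 0 else if p ≤ lp t₀ p ^ K then lp t₀ p - 1 else
    Nat.findGreatest (fun t => p ≤ hh L p t ^ K) (lp t₀ p)

lemma big_spec {κ t₀ y L p : ℕ} (hκ : 6 ≤ κ) (ht : 2 ≤ t₀) (y1 : 9 ^ t₀ ≤ y)
    (y2 : t₀ ^ 2 ^ κ ≤ y) (hp : p.Prime) (h5 : 5 ≤ p) (hL : aa p ≤ L)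
    (hS : ¬ (p ≤ y ∧ ll p < t₀)) :
    lp t₀ p ≤ aa p ∧ (p ≤ lp t₀ p ^ 2 ^ κ → lp t₀ p = ll p) ∧ ac (2 ^ κ) t₀ L p < lp t₀ p ∧
    t₀ ≤ hh L p (ac (2 ^ κ) t₀ L p) ∧
    (¬ aa p ^ 3 ≤ p → p ≤ hh L p (ac (2 ^ κ) t₀ L p) ^ 2 ^ κ) ∧
    (¬ aa p ^ 3 ≤ p → ¬ p ≤ lp t₀ p ^ 2 ^ κ →
      2 ^ (κ + ep (ac (2 ^ κ) t₀ L p)) ≤ Nat.log 2 p ∧ Smo (ep (ac (2 ^ κ) t₀ L p)) p ∧
      ep (lp t₀ p - 1) - ep (ac (2 ^ κ) t₀ L p) + 1 ≤
        Nat.log 2 p / 2 ^ (κ + ep (ac (2 ^ κ) t₀ L p))) := by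
  obtain ⟨l1, l2⟩ := ll_spec hp h5
  have a0 := aa_pos hp h5
  have l3 := Nat.le_of_dvd a0 l2
  have K64 : 64 ≤ 2 ^ κ := Nat.pow_le_pow_right two_pos hκ
  have p1 : t₀ ≤ lp t₀ p := le_max_right _ _
  have p2 : ll p ≤ lp t₀ p := le_max_left _ _
  have n1 : lp t₀ p ≤ aa p := by
    refine max_le l3 ?_
    by_cases h : ll p < t₀
    · have h1 : 9 ^ t₀ < 9 ^ aa p :=
        lt_trans (y1.trans_lt (not_le.1 fun h' => hS ⟨h', h⟩)) (aa_nine hp h5).2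
      exact ((Nat.pow_lt_pow_iff_right (by norm_num)).1 h1).le
    · omega
  have n2 : p ≤ lp t₀ p ^ 2 ^ κ → lp t₀ p = ll p := by
    intro h
    by_cases h' : ll p < t₀
    · rw [lp, max_eq_right h'.le] at h
      exact absurd ⟨h.trans y2, h'⟩ hS
    · exact max_eq_left (not_lt.1 h')
  refine ⟨n1, n2, ?_⟩
  by_cases hA : aa p ^ 3 ≤ p
  · have e : ac (2 ^ κ) t₀ L p = 0 := if_pos hA
    rw [e, hh_zero]
    exact ⟨by omega, by omega, fun h => absurd hA h, fun h => absurd hA h⟩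
  by_cases hI : p ≤ lp t₀ p ^ 2 ^ κ
  · have e : ac (2 ^ κ) t₀ L p = lp t₀ p - 1 := by rw [ac, if_neg hA, if_pos hI]
    have e2 := n2 hI
    have h1 : ll p ∣ hh L p (ll p - 1) := by
      rw [← hh_mul L p (ll p - 1)] at l2
      refine ((Nat.Prime.dvd_mul l1).1 l2).resolve_left fun h => ?_
      have := fac_le l1 (h.trans (Nat.gcd_dvd_right _ _))
      have := l1.pos
      omega
    have h2 : 0 < hh L p (ll p - 1) := by
      rw [← hh_mul L p (ll p - 1)] at a0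
      exact Nat.pos_of_mul_pos_left a0
    have h3 := Nat.le_of_dvd h2 h1
    rw [e, e2]
    rw [e2] at hI p1
    exact ⟨by omega, by omega, fun _ => hI.trans (Nat.pow_le_pow_left h3 _),
      fun _ h => absurd hI h⟩
  have e : ac (2 ^ κ) t₀ L p = Nat.findGreatest (fun t => p ≤ hh L p t ^ 2 ^ κ) (lp t₀ p) := by
    rw [ac, if_neg hA, if_neg hI]
  set u := ac (2 ^ κ) t₀ L p with hu
  have f1 : p ≤ hh L p u ^ 2 ^ κ := by
    rw [e]
    refine Nat.findGreatest_spec (P := fun t => p ≤ hh L p t ^ 2 ^ κ) (Nat.zero_le _) ?_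
    show p ≤ hh L p 0 ^ 2 ^ κ
    rw [hh_zero]
    exact (not_le.1 hA).le.trans (Nat.pow_le_pow_right a0 (by omega))
  have f2 : u < lp t₀ p := by
    refine lt_of_le_of_ne (e ▸ Nat.findGreatest_le _) fun h => ?_
    rw [h, hh, nine_fin hp h5 hL p2, orderOf_one, one_pow] at f1
    omega
  have f3 : ¬ p ≤ hh L p (u + 1) ^ 2 ^ κ :=
    Nat.findGreatest_is_greatest (P := fun t => p ≤ hh L p t ^ 2 ^ κ) (n := lp t₀ p)
      (by rw [← e]; omega) f2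
  have f4 : ep u ≤ ep (lp t₀ p - 1) := ep_mono (by omega)
  have f5 : 2 ^ (κ + ep (lp t₀ p - 1)) ≤ Nat.log 2 p :=
    ep_log (by omega) (by rw [Nat.sub_add_cancel (by omega)]; exact not_le.1 hI)
  refine ⟨f2, ?_, fun _ => f1, fun _ _ => ⟨?_, ?_, ?_⟩⟩
  · have h1 : lp t₀ p ^ 2 ^ κ < hh L p u ^ 2 ^ κ := (not_le.1 hI).trans_le f1
    exact p1.trans (lt_of_pow_lt_pow_left₀ _ (Nat.zero_le _) h1).le
  · exact (Nat.pow_le_pow_right two_pos (by omega)).trans f5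
  · have g1 := hh_mul L p (u + 1)
    refine ⟨Nat.gcd (aa p) (((u + 1)!) ^ L), (Nat.gcd_dvd_left _ _).trans (aa_dvd hp h5),
      fun q hq h => (fac_le hq (h.trans (Nat.gcd_dvd_right _ _))).trans_lt (ep_lt u), ?_⟩
    generalize Nat.gcd (aa p) (((u + 1)!) ^ L) = d at g1
    generalize hh L p (u + 1) = h at g1 f3
    rw [← g1] at a0 hA
    have g2 : h ^ 12 < p :=
      (Nat.pow_le_pow_right (Nat.pos_of_mul_pos_left a0) (by omega)).trans_lt (not_le.1 f3)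
    have g3 : p ^ 4 < ((d * h) ^ 3) ^ 4 := Nat.pow_lt_pow_left (not_le.1 hA) (by norm_num)
    have g4 : p ^ 3 * p < (d ^ 4) ^ 3 * p := by
      calc p ^ 3 * p = p ^ 4 := by ring
        _ < (d ^ 4) ^ 3 * h ^ 12 := by rw [show (d ^ 4) ^ 3 * h ^ 12 = ((d * h) ^ 3) ^ 4 by ring]; exact g3
        _ ≤ _ := Nat.mul_le_mul_left _ g2.le
    exact lt_of_pow_lt_pow_left₀ 3 (Nat.zero_le _) (Nat.lt_of_mul_lt_mul_right g4)
  · rw [Nat.le_div_iff_mul_le (by positivity)]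
    refine le_trans ?_ f5
    rw [show κ + ep (lp t₀ p - 1) = (ep (lp t₀ p - 1) - ep u) + (κ + ep u) by omega,
      pow_add 2 (ep (lp t₀ p - 1) - ep u)]
    exact Nat.mul_le_mul_right _ Nat.lt_two_pow_self

theorem stClock (hM : StMer) (hA : StTailA) (hI : StTailI) (hB : StTailB) : StClock := by
  obtain ⟨κ, hκ, hB⟩ := hB
  obtain ⟨A₀, hA⟩ := hA (64 * κ + 100)
  obtain ⟨l₀, hI⟩ := hI (2 ^ κ)
  refine ⟨2 ^ κ, fun h₀ => ?_⟩
  obtain ⟨t₀, t1, t2, t3, t4⟩ : ∃ t₀ : ℕ, 2 ≤ t₀ ∧ A₀ < t₀ ∧ l₀ ≤ t₀ ∧ h₀ ≤ t₀ :=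
    ⟨A₀ + l₀ + h₀ + 2, by omega, by omega, by omega, by omega⟩
  obtain ⟨y, y1, y2⟩ : ∃ y : ℕ, 9 ^ t₀ ≤ y ∧ t₀ ^ 2 ^ κ ≤ y :=
    ⟨_, le_max_left _ _, le_max_right _ _⟩
  refine ⟨y, fun P hP L hL => ?_⟩
  have K64 : 64 ≤ 2 ^ κ := Nat.pow_le_pow_right two_pos hκ
  obtain ⟨Sm, hSm⟩ : ∃ Sm : ℕ → Prop, ∀ p, Sm p ↔ p ≤ y ∧ ll p < t₀ := ⟨_, fun _ => Iff.rfl⟩
  have big := fun p (hp : p ∈ P) (h : ¬ Sm p) =>
    big_spec hκ t1 y1 y2 (hP p hp).1 (hP p hp).2 (hL p hp) fun h' => h ((hSm p).2 h')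
  set u : ℕ → ℕ := ac (2 ^ κ) t₀ L with hu
  set B : ℝ := (2 : ℝ) ^ (64 * κ + 100) with hBd
  have B1 : 1 ≤ B := one_le_pow₀ one_le_two
  obtain ⟨al, al1, al2⟩ : ∃ al : ℕ → ℕ, (∀ p, Sm p → al p = (y + 1) * ll p + (p - 1)) ∧
      ∀ p, ¬ Sm p → al p = (y + 1) * u p + y :=
    ⟨fun p => if Sm p then _ else _, fun _ h => if_pos h, fun _ h => if_neg h⟩
  obtain ⟨fi, fi1, fi2⟩ : ∃ fi : ℕ → ℕ, (∀ p, Sm p → fi p = (y + 1) * ll p + p) ∧
      ∀ p, ¬ Sm p → fi p = (y + 1) * lp t₀ p :=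
    ⟨fun p => if Sm p then _ else _, fun _ h => if_pos h, fun _ h => if_neg h⟩
  obtain ⟨σ, s1, s2, s3⟩ : ∃ σ : ℕ → ℝ, (∀ p, Sm p → σ p = 1 / p) ∧
      (∀ p, ¬ Sm p → aa p ^ 3 ≤ p → σ p = 2 / (aa p : ℝ) ^ 3) ∧
      ∀ p, ¬ Sm p → ¬ aa p ^ 3 ≤ p → σ p = 2 / p :=
    ⟨fun p => if Sm p then _ else if aa p ^ 3 ≤ p then _ else _, fun _ h => if_pos h,
      fun _ h h' => (if_neg h).trans (if_pos h'), fun _ h h' => (if_neg h).trans (if_neg h')⟩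
  obtain ⟨W, w1, w2, w3⟩ : ∃ W : ℕ → ℝ, (∀ p, Sm p → W p = 2) ∧
      (∀ p, ¬ Sm p → (¬ aa p ^ 3 ≤ p ∧ p ≤ lp t₀ p ^ 2 ^ κ) → W p = 3 / 2) ∧
      ∀ p, ¬ Sm p → ¬ (¬ aa p ^ 3 ≤ p ∧ p ≤ lp t₀ p ^ 2 ^ κ) →
        W p = B ^ (ep (lp t₀ p - 1) - ep (u p) + 1) :=
    ⟨fun p => if Sm p then _ else if ¬ aa p ^ 3 ≤ p ∧ p ≤ lp t₀ p ^ 2 ^ κ then _ else _,
      fun _ h => if_pos h, fun _ h h' => (if_neg h).trans (if_pos h'),
      fun _ h h' => (if_neg h).trans (if_neg h')⟩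
  have dv : ∀ a r : ℕ, r ≤ y → ((y + 1) * a + r) / (y + 1) = a := fun a r h => by
    rw [Nat.mul_add_div (Nat.succ_pos y), Nat.div_eq_of_lt (Nat.lt_succ_of_le h), add_zero]
  have md : ∀ a r a' r' : ℕ, r ≤ y → r' ≤ y → (y + 1) * a + r = (y + 1) * a' + r' →
      a = a' ∧ r = r' := fun a r a' r' h h' e => by
    have e1 := dv a r h
    rw [e, dv a' r' h'] at e1
    subst e1
    exact ⟨rfl, by omega⟩
  have lp1 : ∀ p, (y + 1) * lp t₀ p = (y + 1) * (lp t₀ p - 1) + y + 1 := fun p => by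
    have : t₀ ≤ lp t₀ p := le_max_right _ _
    obtain ⟨w, hw⟩ : ∃ w, lp t₀ p = w + 1 := ⟨lp t₀ p - 1, by omega⟩
    rw [hw, Nat.add_sub_cancel]
    ring
  have T1 : ∀ p, Sm p → al p / (y + 1) = ll p := fun p h => by
    rw [al1 p h, dv _ _ (by have := ((hSm p).1 h).1; omega)]
  have T2 : ∀ p, ¬ Sm p → al p / (y + 1) = u p := fun p h => by rw [al2 p h, dv _ _ le_rfl]
  have uI : ∀ p, ¬ aa p ^ 3 ≤ p → p ≤ lp t₀ p ^ 2 ^ κ → u p = lp t₀ p - 1 := fun p h h' => by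
    rw [hu, ac, if_neg h, if_pos h']
  have nn : ∀ p ∈ P, 0 ≤ σ p ∧ 0 ≤ W p := fun p _ => by
    by_cases h : Sm p
    · rw [s1 p h, w1 p h]
      exact ⟨by positivity, by positivity⟩
    constructor
    · by_cases h' : aa p ^ 3 ≤ p
      · rw [s2 p h h']
        positivity
      · rw [s3 p h h']
        positivity
    · by_cases h' : ¬ aa p ^ 3 ≤ p ∧ p ≤ lp t₀ p ^ 2 ^ κ
      · rw [w2 p h h']
        positivity
      · rw [w3 p h h']
        positivity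
  have lq : ∀ p ∈ P, 2 ≤ ll p ∧ ll p ∣ p - 1 ∧ ll p + 1 ≤ p := fun p hp => by
    obtain ⟨a1, a2⟩ := hP p hp
    obtain ⟨a3, a4⟩ := ll_spec a1 a2
    have a5 := a4.trans (aa_dvd a1 a2)
    exact ⟨a3.two_le, a5, by have := Nat.le_of_dvd (by omega) a5; omega⟩
  have mA : ∀ U : Finset ℕ, (∀ q ∈ U, q ∈ P ∧ ¬ Sm q ∧ aa q ^ 3 ≤ q) →
      ∑ q ∈ U, W q * σ q ≤ 1 / 30 := fun U hU => by
    refine le_trans (sum_le_sum fun q hq => ?_) (hA U fun q hq => ?_)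
    · obtain ⟨a1, a2, a3⟩ := hU q hq
      rw [s2 q a2 a3, w3 q a2 fun h => h.1 a3]
      refine mul_le_mul_of_nonneg_right (pow_le_pow_right₀ B1 ?_) (by positivity)
      have a4 := (big q a1 a2).1
      have a5 : ep (lp t₀ q - 1) ≤ Nat.log 2 (Nat.log 2 (aa q)) :=
        Nat.log_mono_right (Nat.log_mono_right (by have := (lq q a1).1; have := le_max_left (ll q) t₀; unfold lp at *; omega))
      exact Nat.succ_le_succ ((Nat.sub_le _ _).trans a5)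
    · obtain ⟨a1, a2, a3⟩ := hU q hq
      exact ⟨(hP q a1).1, (hP q a1).2, t2.trans_le ((le_max_right _ _).trans (big q a1 a2).1)⟩
  have mB : ∀ (j : ℕ) (U : Finset ℕ), (∀ q ∈ U, q ∈ P ∧ ¬ Sm q ∧ ¬ aa q ^ 3 ≤ q ∧
      ¬ q ≤ lp t₀ q ^ 2 ^ κ ∧ ep (u q) = j) → ∑ q ∈ U, W q * σ q ≤ 1 / 30 := fun j U hU => by
    refine le_trans (sum_le_sum fun q hq => ?_) (hB j U fun q hq => ?_)
    · obtain ⟨a1, a2, a3, a4, rfl⟩ := hU q hq
      rw [s3 q a2 a3, w3 q a2 fun h => a4 h.2]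
      exact mul_le_mul_of_nonneg_right
        (pow_le_pow_right₀ B1 ((big q a1 a2).2.2.2.2.2 a3 a4).2.2) (by positivity)
    · obtain ⟨a1, a2, a3, a4, rfl⟩ := hU q hq
      have := (big q a1 a2).2.2.2.2.2 a3 a4
      exact ⟨(hP q a1).1, this.1, this.2.1⟩
  have mI : ∀ (l : ℕ) (U : Finset ℕ), t₀ ≤ l → (∀ q ∈ U, q ∈ P ∧ ¬ Sm q ∧ ¬ aa q ^ 3 ≤ q ∧
      q ≤ lp t₀ q ^ 2 ^ κ ∧ lp t₀ q = l) → ∑ q ∈ U, W q * σ q ≤ 1 / 30 := fun l U hl hU => by
    refine le_trans (sum_le_sum fun q hq => ?_) (hI l (t3.trans hl) U fun q hq => ?_)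
    · obtain ⟨a1, a2, a3, a4, -⟩ := hU q hq
      rw [s3 q a2 a3, w2 q a2 ⟨a3, a4⟩, ← mul_div_assoc]
      exact div_le_div_of_nonneg_right (by norm_num) (Nat.cast_nonneg _)
    · obtain ⟨a1, a2, a3, a4, rfl⟩ := hU q hq
      refine ⟨(hP q a1).1.one_lt, ?_, a4⟩
      rw [(big q a1 a2).2.1 a4]
      exact (lq q a1).2.1
  have mI' : ∀ (j : ℕ) (U : Finset ℕ), (∀ q ∈ U, q ∈ P ∧ ¬ Sm q ∧ ¬ aa q ^ 3 ≤ q ∧
      q ≤ lp t₀ q ^ 2 ^ κ ∧ ep (u q) = j) → ∑ q ∈ U, W q * σ q ≤ 3 * (4 * (κ + 1 : ℕ)) :=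
      fun j U hU => by
    have h1 := hM j (κ + 1) U fun q hq => by
      obtain ⟨a1, a2, a3, a4, rfl⟩ := hU q hq
      have a5 := (big q a1 a2).2.1 a4
      obtain ⟨a6, -, a7⟩ := lq q a1
      have a8 : u q + 1 = lp t₀ q := by rw [uI q a3 a4]; omega
      refine ⟨(hP q a1).1, (ep_le (by omega)).trans (by omega), ?_⟩
      exact a4.trans_lt (a8 ▸ ep_pow_lt (u q) κ)
    refine le_trans (le_of_eq ?_) (mul_le_mul_of_nonneg_left h1 (by norm_num))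
    rw [mul_sum]
    refine sum_congr rfl fun q hq => ?_
    obtain ⟨a1, a2, a3, a4, -⟩ := hU q hq
    rw [s3 q a2 a3, w2 q a2 ⟨a3, a4⟩]
    ring
  have mS : ∀ (j : ℕ) (U : Finset ℕ), (∀ q ∈ U, q ∈ P ∧ Sm q ∧ ep (ll q) = j) →
      ∑ q ∈ U, W q * σ q ≤ 2 * (4 * (κ + 1 : ℕ) + (4 + 1 / 30)) := fun j U hU => by
    have h1 : ∑ q ∈ U, (1 : ℝ) / q ≤ 4 * (κ + 1 : ℕ) + (4 + 1 / 30) := by
      refine split2 U _ (fun q => q ≤ (ll q + 1) ^ 2 ^ κ)
        (fun V hV => hM j (κ + 1) V fun q hq => ?_) fun V hV =>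
        split2 V _ (fun q => aa q ^ 3 ≤ q) (fun V' hV' => cube_sum V' fun q hq => ?_)
          fun V' hV' => le_trans (sum_le_sum fun q _ => ?_) (hB j V' fun q hq => ?_)
      · obtain ⟨a1, a2, rfl⟩ := hU q (hV q hq).1
        obtain ⟨a6, -, a7⟩ := lq q a1
        exact ⟨(hP q a1).1, (ep_le (by omega)).trans a7, (hV q hq).2.trans_lt (ep_pow_lt _ κ)⟩
      · have a1 := (hU q (hV q (hV' q hq).1).1).1
        exact ⟨(hP q a1).1, (hP q a1).2, (hV' q hq).2⟩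
      · refine le_trans ?_ (le_mul_of_one_le_left (by positivity) (one_le_pow₀ B1))
        exact div_le_div_of_nonneg_right one_le_two (Nat.cast_nonneg _)
      · obtain ⟨a1, a2, rfl⟩ := hU q (hV q (hV' q hq).1).1
        obtain ⟨b1, b2⟩ := hP q a1
        refine ⟨b1, ep_log (by have := (lq q a1).1; omega) (not_le.1 (hV q (hV' q hq).1).2),
          aa q, aa_dvd b1 b2, fun r hr h => ?_, ?_⟩
        · exact ((le_ll b1 b2 hr h).trans (Nat.le_succ _)).trans_lt (ep_lt _)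
        · exact (not_le.1 (hV' q hq).2).trans_le (Nat.pow_le_pow_right (aa_pos b1 b2) (by norm_num))
    refine le_trans (le_of_eq ?_) (mul_le_mul_of_nonneg_left h1 (by norm_num))
    rw [mul_sum]
    refine sum_congr rfl fun q hq => ?_
    rw [s1 q (hU q hq).2.1, w1 q (hU q hq).2.1]
  have mE : ∀ j, ∑ q ∈ P.filter (fun q => ep (al q / (y + 1)) = j), W q * σ q ≤
      (64 * κ + 100 : ℕ) / 3 := fun j => by
    refine (split2 _ _ Sm (fun U hU => mS j U fun q hq => ?_) fun U hU =>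
      split2 U _ (fun q => aa q ^ 3 ≤ q) (fun V hV => mA V fun q hq => ?_) fun V hV =>
      split2 V _ (fun q => q ≤ lp t₀ q ^ 2 ^ κ) (fun V' hV' => mI' j V' fun q hq => ?_)
        fun V' hV' => mB j V' fun q hq => ?_).trans ?_
    · obtain ⟨a1, a2⟩ := hU q hq
      obtain ⟨a3, a4⟩ := mem_filter.1 a1
      exact ⟨a3, a2, T1 q a2 ▸ a4⟩
    · obtain ⟨a1, a2⟩ := hU q (hV q hq).1
      exact ⟨(mem_filter.1 a1).1, a2, (hV q hq).2⟩
    · obtain ⟨a1, a2⟩ := hU q (hV q (hV' q hq).1).1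
      obtain ⟨a3, a4⟩ := mem_filter.1 a1
      exact ⟨a3, a2, (hV q (hV' q hq).1).2, (hV' q hq).2, T2 q a2 ▸ a4⟩
    · obtain ⟨a1, a2⟩ := hU q (hV q (hV' q hq).1).1
      obtain ⟨a3, a4⟩ := mem_filter.1 a1
      exact ⟨a3, a2, (hV q (hV' q hq).1).2, (hV' q hq).2, T2 q a2 ▸ a4⟩
    · push_cast
      linarith [(Nat.cast_nonneg κ : (0 : ℝ) ≤ κ)]
  have Tm : Monotone fun t => t / (y + 1) := fun _ _ h => Nat.div_le_div_right h
  refine ⟨P.filter Sm, fun t => t / (y + 1), al, fi, σ, W, Tm,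
    fun p hp => ⟨(mem_filter.1 hp).1, ((hSm p).1 (mem_filter.1 hp).2).1⟩, fun p hp => ?_, nn,
    fun p hp => ?_, fun p hp => ?_, fun p hp => (s1 p (mem_filter.1 hp).2).ge, fun p hp h => ?_⟩
  · by_cases h : Sm p
    · have := (hP p hp).2
      rw [al1 p h, fi1 p h]
      omega
    · have h1 := Nat.mul_le_mul_left (y + 1) (big p hp h).2.2.1
      rw [al2 p h, fi2 p h]
      rw [Nat.mul_succ] at h1
      omega
  · have p5 := (hP p hp).2
    by_cases h : Sm p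
    · have e : fi p = al p + 1 := by
        rw [al1 p h, fi1 p h]
        omega
      have h1 : ∑ q ∈ P.filter (fun q => al q = al p), W q * σ q ≤ ∑ q ∈ {p}, W q * σ q := by
        refine sum_le_sum_of_subset_of_nonneg (fun q hq => ?_) fun q hq _ => by
          rw [mem_singleton.1 hq]
          exact mul_nonneg (nn p hp).2 (nn p hp).1
        obtain ⟨a1, a2⟩ := mem_filter.1 hq
        have a3 := ((hSm p).1 h).1
        have a4 := (hP q a1).2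
        rw [al1 p h] at a2
        by_cases h' : Sm q
        · have a5 := ((hSm q).1 h').1
          rw [al1 q h'] at a2
          have := (md _ _ _ _ (by omega) (by omega) a2).2
          exact mem_singleton.2 (by omega)
        · rw [al2 q h'] at a2
          have := (md _ _ _ _ le_rfl (by omega) a2).2
          omega
      rw [sum_singleton, s1 p h, w1 p h] at h1
      rw [e, Nat.Ico_succ_singleton, prod_singleton, w1 p h]
      have h2 : (1 : ℝ) / p ≤ 1 / 5 := one_div_le_one_div_of_le (by norm_num) (by exact_mod_cast p5)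
      linarith
    by_cases h' : ¬ aa p ^ 3 ≤ p ∧ p ≤ lp t₀ p ^ 2 ^ κ
    · have e : fi p = al p + 1 := by rw [al2 p h, fi2 p h, uI p h'.1 h'.2, lp1]
      have e2 : ∀ q ∈ P, al q = al p → ¬ Sm q ∧ u q = u p := fun q hq a2 => by
        have a4 := (hP q hq).2
        rw [al2 p h] at a2
        by_cases c : Sm q
        · have a5 := ((hSm q).1 c).1
          rw [al1 q c] at a2
          have := (md _ _ _ _ (by omega) le_rfl a2).2
          omega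
        · rw [al2 q c] at a2
          exact ⟨c, (md _ _ _ _ le_rfl le_rfl a2).1⟩
      have h1 : ∑ q ∈ P.filter (fun q => al q = al p), W q * σ q ≤ 1 / 30 + (1 / 30 + 1 / 30) := by
        refine split2 _ _ (fun q => aa q ^ 3 ≤ q) (fun V hV => mA V fun q hq => ?_) fun V hV =>
          split2 V _ (fun q => q ≤ lp t₀ q ^ 2 ^ κ)
            (fun V' hV' => mI (lp t₀ p) V' (le_max_right _ _) fun q hq => ?_)
            fun V' hV' => mB (ep (u p)) V' fun q hq => ?_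
        · obtain ⟨a3, a4⟩ := mem_filter.1 (hV q hq).1
          exact ⟨a3, (e2 q a3 a4).1, (hV q hq).2⟩
        · obtain ⟨a3, a4⟩ := mem_filter.1 (hV q (hV' q hq).1).1
          obtain ⟨a5, a6⟩ := e2 q a3 a4
          refine ⟨a3, a5, (hV q (hV' q hq).1).2, (hV' q hq).2, ?_⟩
          rw [uI p h'.1 h'.2, uI q (hV q (hV' q hq).1).2 (hV' q hq).2] at a6
          have b1 : t₀ ≤ lp t₀ p := le_max_right _ _
          have b2 : t₀ ≤ lp t₀ q := le_max_right _ _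
          omega
        · obtain ⟨a3, a4⟩ := mem_filter.1 (hV q (hV' q hq).1).1
          obtain ⟨a5, a6⟩ := e2 q a3 a4
          exact ⟨a3, a5, (hV q (hV' q hq).1).2, (hV' q hq).2, by rw [a6]⟩
      rw [e, Nat.Ico_succ_singleton, prod_singleton, w2 p h h']
      linarith
    · have h1 := ep_prod P al (fun q => W q * σ q) (fun t => ep (t / (y + 1))) (ep_mono.comp Tm)
        (64 * κ + 100) (fun q hq => mul_nonneg (nn q hq).2 (nn q hq).1) mE (al p) (fi p)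
      have e : (fi p - 1) / (y + 1) = lp t₀ p - 1 := by
        rw [fi2 p h, lp1, Nat.add_sub_cancel, dv _ _ le_rfl]
      simp only [e, T2 p h] at h1
      rw [w3 p h h']
      exact h1
  · by_cases h : Sm p
    · simp only [fi1 p h, dv _ _ ((hSm p).1 h).1, le_refl]
    · simp only [fi2 p h, Nat.mul_div_cancel_left _ (Nat.succ_pos y)]
      exact le_max_left _ _
  · have h' : ¬ Sm p := fun c => h (mem_filter.2 ⟨hp, c⟩)
    obtain ⟨a1, a2, a3, a4, a5, -⟩ := big p hp h'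
    obtain ⟨p1, p5⟩ := hP p hp
    simp only [T2 p h']
    refine ⟨t4.trans a4, ?_, fun q hq => ?_⟩
    · have p0 : (0 : ℝ) < p := by exact_mod_cast p1.pos
      by_cases c : aa p ^ 3 ≤ p
      · have e : u p = 0 := if_pos c
        have a0 : (1 : ℝ) ≤ aa p := by exact_mod_cast aa_pos p1 p5
        rw [s2 p h' c, e, hh_zero]
        have b1 : (1 : ℝ) / p ≤ 1 / (aa p : ℝ) ^ 3 :=
          one_div_le_one_div_of_le (by positivity) (by exact_mod_cast c)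
        have b2 : 1 / (aa p : ℝ) ^ 2 ^ κ ≤ 1 / (aa p : ℝ) ^ 3 :=
          one_div_le_one_div_of_le (by positivity) (pow_le_pow_right₀ a0 (by omega))
        rw [show 2 / (aa p : ℝ) ^ 3 = 1 / (aa p : ℝ) ^ 3 + 1 / (aa p : ℝ) ^ 3 by ring]
        exact add_le_add b1 b2
      · rw [s3 p h' c, show (2 : ℝ) / p = 1 / p + 1 / p by ring]
        exact add_le_add le_rfl (one_div_le_one_div_of_le p0 (by exact_mod_cast a5 c))
    · have c := (mem_filter.1 hq).2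
      obtain ⟨c1, c2⟩ := (hSm q).1 c
      have h1 := Nat.mul_le_mul_left (y + 1) (c2.trans_le (le_max_right (ll p) t₀))
      rw [fi1 q c, fi2 p h']
      rw [Nat.mul_succ] at h1
      unfold lp
      omega

end Pool.Agent.MP_c903c4_nt.K
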