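import Mathlib

/-!
Definitions and intermediate statements for: almost all integers are sums of two squares,
boundedly many powers of three and one power of five.
-/

open Finset
open scoped Pointwise Classical

noncomputable section

namespace Pool.Agent.MP_c903c4_nt.K

/-- The number of representations as a difference. -/
def rr {p : ℕ} (A : Finset (ZMod p)) (d : ZMod p) : ℕ :=
  ((A ×ˢ A).filter fun x => x.1 - x.2 = d).card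

/-- The additive energy. -/
def En {p : ℕ} [NeZero p] (A : Finset (ZMod p)) : ℝ := ∑ d : ZMod p, (rr A d : ℝ) ^ 2

/-- A multiplicative subgroup given as a finite set. -/
def Grp {p : ℕ} (H : Finset (ZMod p)) : Prop :=
  (0 : ZMod p) ∉ H ∧ (1 : ZMod p) ∈ H ∧ (∀ x ∈ H, ∀ y ∈ H, x * y ∈ H) ∧ ∀ x ∈ H, x⁻¹ ∈ H

/-- The size of the exponential sum over H. -/
def SS {p : ℕ} [NeZero p] (H : Finset (ZMod p)) (ξ : ZMod p) : ℝ :=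
  ‖∑ x ∈ H, ZMod.stdAddChar (ξ * x)‖

/-- The large spectrum. -/
def Spec {p : ℕ} [NeZero p] (H : Finset (ZMod p)) (t : ℝ) : Finset (ZMod p) :=
  univ.filter fun ξ => t * H.card ≤ SS H ξ

/-- Sums of k powers of three. -/
def SumPow (k s : ℕ) : Prop := ∃ c : Fin k → ℕ, s = ∑ i, 3 ^ c i

/-- p - 1 has a large divisor all of whose primes lie below the end of the epoch j. -/
def Smo (j p : ℕ) : Prop :=
  ∃ d : ℕ, d ∣ p - 1 ∧ (∀ q : ℕ, q.Prime → q ∣ d → q < 2 ^ 2 ^ (j + 1)) ∧ p < d ^ 4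

/-- Large energy gives a large subset with small difference set. -/
def StBSG : Prop := ∀ (p : ℕ) [Fact p.Prime] (A : Finset (ZMod p)) (K : ℝ), A.Nonempty → 1 ≤ K →
  (A.card : ℝ) ^ 3 ≤ K * En A →
  ∃ B ⊆ A, (A.card : ℝ) ≤ 3 * K * B.card ∧ ((B - B).card : ℝ) ≤ 4096 * K ^ 6 * B.card

/-- Good dilates generate many good dilates. -/
def StGrow : Prop := ∀ (p : ℕ) [Fact p.Prime] (B X : Finset (ZMod p)) (D : ℝ), B.Nonempty → 1 ≤ D →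
  ((B - B).card : ℝ) ≤ D * B.card → 2 ≤ X.card →
  (∀ x ∈ X, ((B - x • B).card : ℝ) ≤ D ^ 3 * B.card) → ∀ s : ℕ,
  ∃ Y : Finset (ZMod p), (∀ y ∈ Y, ((B - y • B).card : ℝ) ≤ D ^ (3 * 56 ^ s) * B.card) ∧
    min p (X.card ^ 2 ^ s) ≤ Y.card

/-- Not too many dilates are good. -/
def StAvg : Prop := ∀ (p : ℕ) [Fact p.Prime] (B Y : Finset (ZMod p)) (L : ℝ), B.Nonempty →
  Y.Nonempty → (∀ y ∈ Y, ((B - y • B).card : ℝ) ≤ L * B.card) →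
  1 ≤ L * B.card / p + L * p / (Y.card * B.card)

/-- Many elements of H are good dilates. -/
def StInv : Prop := ∀ (p : ℕ) [Fact p.Prime] (H A B : Finset (ZMod p)) (K D : ℝ), Grp H →
  (∀ x ∈ H, ∀ a ∈ A, x * a ∈ A) → B ⊆ A → B.Nonempty → (A.card : ℝ) ≤ K * B.card →
  ((B - B).card : ℝ) ≤ D * B.card →
  ∃ X : Finset (ZMod p), (H.card : ℝ) ≤ 2 * K * X.card ∧
    ∀ x ∈ X, ((B - x • B).card : ℝ) ≤ 2 * K * D ^ 2 * B.card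

/-- Parseval, and the energy of the spectrum. -/
def StFou : Prop := ∀ (p : ℕ) [Fact p.Prime] (H : Finset (ZMod p)) (t : ℝ), H.Nonempty → 0 < t →
  ((Spec H t).card : ℝ) * t ^ 2 * H.card ≤ p ∧
  ∀ M : ℝ, ((Spec H (t ^ 2 / 2)).card : ℝ) ≤ M * (Spec H t).card →
    (t ^ 2 / 2) ^ 2 * ((Spec H t).card : ℝ) ^ 3 ≤ M * En (Spec H t)

/-- The large spectrum of a subgroup is small. -/
def StSpec : Prop := ∀ κ : ℕ, ∃ N : ℕ, 0 < N ∧ ∀ (p : ℕ) [Fact p.Prime] (H : Finset (ZMod p)) (w : ℝ),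
  Grp H → 2 ≤ w → w ^ N = H.card →
  (((Spec H (2 / w ^ 2)).erase 0).card : ℝ) * (H.card : ℝ) ^ κ ≤ p

/-- Sums of k powers are spread out. -/
def StShare : Prop := ∀ κ : ℕ, ∃ k h₀ : ℕ, ∀ (p : ℕ) [Fact p.Prime] (L : ℕ) [NeZero L] (g r : ZMod p)
  (u : Fin k → ZMod p), g ≠ 0 → h₀ ≤ orderOf g → orderOf g ∣ L → (∀ i, u i ≠ 0) →
  ((univ.filter fun z : Fin k → ZMod L => ∑ i, u i * g ^ (z i).val = r).card : ℝ) ≤
    (1 / p + 1 / (orderOf g : ℝ) ^ κ) * (L : ℝ) ^ k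

/-- The potential lemma. -/
def StPot : Prop := ∀ (G : Type) [AddCommGroup G] [Fintype G] (P : Finset ℕ) (φ : ℕ → G → Prop)
  (M a f : ℕ → ℕ) (σ W : ℕ → ℝ), (∀ t, M t ∣ M (t + 1)) → (∀ p ∈ P, a p < f p) →
  (∀ p ∈ P, 0 ≤ σ p ∧ 0 ≤ W p) →
  (∀ p ∈ P, ∀ c : G, ((univ.filter fun z : G => φ p (c + M (a p) • z)).card : ℝ) ≤
    σ p * Fintype.card G) →
  (∀ p ∈ P, ∀ c z : G, φ p (c + M (f p) • z) ↔ φ p c) →
  (∀ p ∈ P, ∏ t ∈ Ico (a p) (f p), (1 + 2 * ∑ q ∈ P.filter (fun q => a q = t), W q * σ q) ≤ W p) →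
  ∃ c : G, ∀ p ∈ P, ¬ φ p c

/-- An upper bound sieve in a progression. -/
def StBT : Prop := ∀ d R x : ℕ, 0 < d → d ≤ x → 2 ≤ R →
  (((Ioc R x).filter fun p => p.Prime ∧ d ∣ p - 1).card : ℝ) ≤
    2 * x / (d.totient * Real.log R) + (R : ℝ) ^ 2

/-- Few primes have a large smooth divisor of p - 1. -/
def StSmooth : Prop := ∃ C : ℝ, 0 < C ∧ ∀ j m : ℕ, 2 ^ (j + 6) ≤ m →
  (((Ico (2 ^ m) (2 ^ (m + 1))).filter fun p => p.Prime ∧ Smo j p).card : ℝ) ≤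
    C * 2 ^ m / 2 ^ j * Real.exp (-(m / (64 * 2 ^ j)))

/-- Reciprocals of primes over r epochs. -/
def StMer : Prop := ∀ (j r : ℕ) (T : Finset ℕ),
  (∀ p ∈ T, p.Prime ∧ 2 ^ 2 ^ j ≤ p ∧ p < 2 ^ 2 ^ (j + r)) → ∑ p ∈ T, (1 : ℝ) / p ≤ 4 * r

/-- Primes with a small order of nine. -/
def StTailA : Prop := ∀ b : ℕ, ∃ A₀ : ℕ, ∀ T : Finset ℕ,
  (∀ p ∈ T, p.Prime ∧ 5 ≤ p ∧ A₀ < orderOf (9 : ZMod p)) →
  ∑ p ∈ T, ((2 : ℝ) ^ b) ^ (Nat.log 2 (Nat.log 2 (orderOf (9 : ZMod p))) + 1) *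
    (2 / (orderOf (9 : ZMod p) : ℝ) ^ 3) ≤ 1 / 30

/-- Integers one more than a multiple of l. -/
def StTailI : Prop := ∀ K : ℕ, ∃ l₀ : ℕ, ∀ l : ℕ, l₀ ≤ l → ∀ T : Finset ℕ,
  (∀ p ∈ T, 1 < p ∧ l ∣ p - 1 ∧ p ≤ l ^ K) → ∑ p ∈ T, (4 : ℝ) / p ≤ 1 / 30

/-- Weighted reciprocals of the primes with a large smooth divisor. -/
def StTailB : Prop := ∃ κ₀ : ℕ, 6 ≤ κ₀ ∧ ∀ (j : ℕ) (T : Finset ℕ),
  (∀ p ∈ T, p.Prime ∧ 2 ^ (κ₀ + j) ≤ Nat.log 2 p ∧ Smo j p) →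
  ∑ p ∈ T, ((2 : ℝ) ^ (64 * κ₀ + 100)) ^ (Nat.log 2 p / 2 ^ (κ₀ + j)) * (2 / p) ≤ 1 / 30

/-- No finite set of primes covers the sums of k powers of three. -/
def StLoc : Prop := ∃ k : ℕ, ∀ P : Finset ℕ, (∀ p ∈ P, p.Prime ∧ 5 ≤ p) → ∀ n : ℤ, ∃ s : ℕ,
  SumPow k s ∧ ((n - s) % 4 = 1 ∨ (n - s) % 8 = 2) ∧ ¬ (3 : ℤ) ∣ n - s ∧ ∀ p ∈ P, ¬ (p : ℤ) ∣ n - s

/-- The final statement. -/
def StFin : Prop := ∃ k : ℕ, Filter.Tendsto (fun x : ℕ => (Set.ncard {n : ℕ | n < x ∧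
  ¬ ∃ (a b d : ℕ) (c : Fin k → ℕ), n = a ^ 2 + b ^ 2 + ∑ i, 3 ^ c i + 5 ^ d} : ℝ) / x)
  Filter.atTop (nhds 0)

end Pool.Agent.MP_c903c4_nt.K
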