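import Pool.Agent.MP_c903c4_nt.K.Defs

open Finset
open scoped Pointwise Classical

noncomputable section

namespace Pool.Agent.MP_c903c4_nt.K

theorem sq_Fou {ι : Type} (A : Finset ι) (c : ι → ℂ) :
    ((‖∑ i ∈ A, c i‖ ^ 2 : ℝ) : ℂ) = ∑ i ∈ A, ∑ j ∈ A, c i * (starRingEnd ℂ) (c j) := by
  rw [← sum_mul_sum, ← map_sum, Complex.mul_conj']
  push_cast
  rfl

theorem psi_Fou {p : ℕ} [NeZero p] (a b : ZMod p) :
    ZMod.stdAddChar a * (starRingEnd ℂ) (ZMod.stdAddChar b) = ZMod.stdAddChar (a - b) := by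
  rw [← AddChar.map_neg_eq_conj, ← AddChar.map_add_eq_mul, sub_eq_add_neg]

theorem par_Fou {p : ℕ} [NeZero p] (H : Finset (ZMod p)) :
    ∑ ξ : ZMod p, SS H ξ ^ 2 = p * H.card := by
  apply Complex.ofReal_injective
  rw [Complex.ofReal_sum]
  simp only [SS, sq_Fou, psi_Fou, ← mul_sub]
  rw [sum_comm]
  have h : ∀ x ∈ H, ∑ ξ : ZMod p, ∑ y ∈ H, ZMod.stdAddChar (ξ * (x - y)) = (p : ℂ) := by
    intro x hx
    rw [sum_comm, sum_eq_single_of_mem x hx]
    · simp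
    · intro y _ hy
      rw [AddChar.sum_mulShift _ (ZMod.isPrimitive_stdAddChar p), if_neg (sub_ne_zero.2 hy.symm),
        Nat.cast_zero]
  rw [sum_congr rfl h, sum_const, nsmul_eq_mul]
  push_cast
  ring

theorem le_Fou {p : ℕ} [NeZero p] (H : Finset (ZMod p)) (ξ : ZMod p) : SS H ξ ≤ H.card := by
  refine (norm_sum_le _ _).trans (le_of_eq ?_)
  simp [AddChar.norm_apply]

/-- the duality step -/
theorem dual_Fou {p : ℕ} [NeZero p] (H A : Finset (ZMod p)) :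
    (∑ ξ ∈ A, SS H ξ) ^ 2 ≤ H.card * ∑ ξ ∈ A, ∑ η ∈ A, SS H (ξ - η) := by
  choose c hc using fun ξ : ZMod p =>
    RCLike.exists_norm_eq_mul_self (∑ x ∈ H, ZMod.stdAddChar (ξ * x))
  have h1 : ((∑ ξ ∈ A, SS H ξ : ℝ) : ℂ) = ∑ x ∈ H, ∑ ξ ∈ A, c ξ * ZMod.stdAddChar (ξ * x) := by
    rw [Complex.ofReal_sum, sum_comm]
    refine sum_congr rfl fun ξ _ => ?_
    rw [← mul_sum, ← (hc ξ).2]
    rfl
  have h0 : 0 ≤ ∑ ξ ∈ A, SS H ξ := sum_nonneg fun ξ _ => norm_nonneg _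
  have h2 : ∑ ξ ∈ A, SS H ξ ≤ ∑ x ∈ H, ‖∑ ξ ∈ A, c ξ * ZMod.stdAddChar (ξ * x)‖ := by
    refine le_trans (le_of_eq ?_) (norm_sum_le _ _)
    rw [← h1, Complex.norm_real, Real.norm_of_nonneg h0]
  have h3 : ((∑ x ∈ H, ‖∑ ξ ∈ A, c ξ * ZMod.stdAddChar (ξ * x)‖ ^ 2 : ℝ) : ℂ) =
      ∑ ξ ∈ A, ∑ η ∈ A, c ξ * (starRingEnd ℂ) (c η) * ∑ x ∈ H, ZMod.stdAddChar ((ξ - η) * x) := by
    rw [Complex.ofReal_sum]
    simp only [sq_Fou]
    rw [sum_comm]
    refine sum_congr rfl fun ξ _ => ?_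
    rw [sum_comm]
    refine sum_congr rfl fun η _ => ?_
    rw [mul_sum]
    refine sum_congr rfl fun x _ => ?_
    rw [sub_mul, ← psi_Fou, map_mul (starRingEnd ℂ)]
    ring
  have h4 : ∑ x ∈ H, ‖∑ ξ ∈ A, c ξ * ZMod.stdAddChar (ξ * x)‖ ^ 2 ≤
      ∑ ξ ∈ A, ∑ η ∈ A, SS H (ξ - η) := by
    rw [← Real.norm_of_nonneg (sum_nonneg fun x _ => sq_nonneg _), ← Complex.norm_real, h3]
    refine (norm_sum_le _ _).trans (sum_le_sum fun ξ _ =>
      (norm_sum_le _ _).trans (sum_le_sum fun η _ => le_of_eq ?_))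
    rw [norm_mul, norm_mul, RCLike.norm_conj, (hc ξ).1, (hc η).1, one_mul, one_mul, SS]
  exact (pow_le_pow_left₀ h0 h2 2).trans (sq_sum_le_card_mul_sum_sq.trans
    (mul_le_mul_of_nonneg_left h4 (Nat.cast_nonneg _)))

/-- splitting the differences -/
theorem split_Fou {p : ℕ} [NeZero p] (H A : Finset (ZMod p)) {s : ℝ} (hs : 0 ≤ s) :
    ∑ ξ ∈ A, ∑ η ∈ A, SS H (ξ - η) ≤
      (∑ d ∈ Spec H s, (rr A d : ℝ)) * H.card + (A.card : ℝ) ^ 2 * (s * H.card) := by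
  have h1 : ∑ d ∈ Spec H s, (rr A d : ℝ) =
      ∑ x ∈ A ×ˢ A, if x.1 - x.2 ∈ Spec H s then (1 : ℝ) else 0 := by
    rw [sum_boole, ← sum_card_fiberwise_eq_card_filter (A ×ˢ A) (Spec H s) fun x => x.1 - x.2]
    push_cast
    rfl
  have h2 : (A.card : ℝ) ^ 2 * (s * H.card) = ∑ _x ∈ A ×ˢ A, s * H.card := by
    rw [sum_const, card_product, nsmul_eq_mul]
    push_cast
    ring
  rw [h1, h2, sum_mul, ← sum_add_distrib, ← sum_product' A A fun ξ η => SS H (ξ - η)]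
  refine sum_le_sum fun x _ => ?_
  have h3 : 0 ≤ s * H.card := by positivity
  split_ifs with h
  · linarith [le_Fou H (x.1 - x.2)]
  · simp only [Spec, mem_filter, mem_univ, true_and, not_le] at h
    linarith

theorem stFou : StFou := by
  intro p _ H t hH ht
  have hh : (0 : ℝ) < H.card := by exact_mod_cast hH.card_pos
  have hA : ∀ ξ ∈ Spec H t, t * H.card ≤ SS H ξ := fun ξ hξ => (mem_filter.1 hξ).2
  refine ⟨?_, fun M hM => ?_⟩
  · have h1 : ((Spec H t).card : ℝ) * (t * H.card) ^ 2 ≤ p * H.card := by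
      rw [← par_Fou, ← nsmul_eq_mul]
      exact (card_nsmul_le_sum _ _ _ fun ξ hξ =>
        pow_le_pow_left₀ (by positivity) (hA ξ hξ) 2).trans
        (sum_le_sum_of_subset_of_nonneg (subset_univ _) fun _ _ _ => sq_nonneg _)
    refine le_of_mul_le_mul_right (le_trans (le_of_eq ?_) h1) hh
    ring
  · rcases (Spec H t).eq_empty_or_nonempty with h0 | h0
    · rw [h0]
      simp [En, rr]
    have ha : (0 : ℝ) < (Spec H t).card := by exact_mod_cast h0.card_pos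
    have h1 : ((Spec H t).card : ℝ) * (t * H.card) ≤ ∑ ξ ∈ Spec H t, SS H ξ := by
      rw [← nsmul_eq_mul]
      exact card_nsmul_le_sum _ _ _ hA
    have h2 := (pow_le_pow_left₀ (by positivity) h1 2).trans ((dual_Fou H _).trans
      (mul_le_mul_of_nonneg_left (split_Fou H _ (s := t ^ 2 / 2) (by positivity)) hh.le))
    have h3 : (∑ d ∈ Spec H (t ^ 2 / 2), (rr (Spec H t) d : ℝ)) ^ 2 ≤
        M * (Spec H t).card * En (Spec H t) :=
      sq_sum_le_card_mul_sum_sq.trans (mul_le_mul hM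
        (sum_le_sum_of_subset_of_nonneg (subset_univ _) fun _ _ _ => sq_nonneg _)
        (sum_nonneg fun _ _ => sq_nonneg _) ((Nat.cast_nonneg _).trans hM))
    generalize (∑ d ∈ Spec H (t ^ 2 / 2), (rr (Spec H t) d : ℝ)) = N at h2 h3
    generalize En (Spec H t) = E at h3 ⊢
    generalize ((Spec H t).card : ℝ) = a at ha h2 h3 ⊢
    generalize (H.card : ℝ) = h at hh h2
    have h4 : t ^ 2 / 2 * a ^ 2 ≤ N :=
      le_of_mul_le_mul_right (by linarith) (show 0 < h * h by positivity)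
    have h5 := (pow_le_pow_left₀ (by positivity) h4 2).trans h3
    exact le_of_mul_le_mul_right (by linarith) ha

end Pool.Agent.MP_c903c4_nt.K
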