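import Pool.Agent.Mg.Fc903c4.G4d5dea
import Pool.Agent.MP_c903c4_nt.K.Defs

/-!
From the no-covering statement to the density statement.
-/

open Finset Filter Topology
open scoped Classical

noncomputable section

namespace Pool.Agent.MP_c903c4_nt.K

lemma glob_pow {L y : ℕ} (hL : 5 ≤ L) {p : ℕ} (hp : p ∈ PP L y) {g : ℤ} (hg : g = 3 ∨ g = 5)
    (i : ℕ) : (p : ℤ) ∣ g ^ (1 + TT L y ∅ * i) - g := by
  by_cases h : (p : ℤ) = g
  · rw [h]
    exact dvd_sub (dvd_pow_self g (by omega)) dvd_rfl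
  · have h1 : (p : ℤ) ∣ g ^ OO L y - 1 := by
      rcases mem_PP.1 hp with h2 | h2
      · exact (dvd_pow_self _ two_ne_zero).trans (small_sq h2 hg h)
      · exact (dvd_pow_self _ (by have := ee_pos hL h2; omega)).trans
          (ee_dvd hL (PP_prime hp) hg)
    obtain ⟨r, hr⟩ : OO L y ∣ TT L y ∅ * i := Dvd.dvd.mul_right (Dvd.intro _ rfl) _
    have h2 : g ^ (1 + TT L y ∅ * i) - g = g * ((g ^ OO L y) ^ r - 1 ^ r) := by
      rw [hr, ← pow_mul]
      ring
    rw [h2]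
    exact (h1.trans (sub_dvd_pow_sub_pow _ _ _)).mul_left _

lemma glob_eight {L y : ℕ} (hL : 5 ≤ L) {g : ℤ} (hg : g = 3 ∨ g = 5) (i : ℕ) :
    (8 : ℤ) ∣ g ^ (1 + TT L y ∅ * i) - g := by
  have h0 : 2 * (2 - 1) ∣ OO L y := Dvd.dvd.mul_left
    (Finset.dvd_prod_of_mem (fun l => l * (l - 1)) (mem_sm.2 ⟨by omega, Nat.prime_two⟩)) _
  obtain ⟨r, hr⟩ : 2 ∣ TT L y ∅ * i := Dvd.dvd.mul_right (Dvd.dvd.mul_right h0 _) _
  have h1 : (8 : ℤ) ∣ g ^ 2 - 1 := by rcases hg with rfl | rfl <;> norm_num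
  have h2 : g ^ (1 + TT L y ∅ * i) - g = g * ((g ^ 2) ^ r - 1 ^ r) := by
    rw [hr, ← pow_mul]
    ring
  rw [h2]
  exact (h1.trans (sub_dvd_pow_sub_pow _ _ _)).mul_left _

lemma glob_data {ε : ℝ} (hε : 0 < ε) : ∃ (q : ℕ) (P : Finset ℕ), 0 < q ∧
    (∀ p ∈ P, p.Prime ∧ 5 ≤ p) ∧ ∀ (a : ℕ) (m : ℤ), (q : ℤ) ∣ a - 8 - m →
      (m % 4 = 1 ∨ m % 8 = 2) → ¬ (3 : ℤ) ∣ m → (∀ p ∈ P, ¬ (p : ℤ) ∣ m) → Data ε q a := by
  obtain ⟨L, y, σ, hL, t1, t2, t3, t4, t5, t6⟩ := tails (ε := ε / 4) (by positivity)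
  set R := ∏ p ∈ (PP L y).erase 2, p with hR
  have hR0 : 0 < R := Finset.prod_pos fun p hp => (PP_prime (mem_erase.1 hp).2).pos
  refine ⟨8 * R, (PP L y).filter fun p => 5 ≤ p, by omega,
    fun p hp => ⟨PP_prime (mem_filter.1 hp).1, (mem_filter.1 hp).2⟩, ?_⟩
  intro a m hq hm h3 hP
  have hd : ∀ p ∈ (PP L y).erase 2, p ∣ R := fun p hp => Finset.dvd_prod_of_mem (fun p => p) hp
  have hnd : ∀ p ∈ (PP L y).erase 2, ∀ i j : ℕ,
      ¬ (p : ℤ) ∣ mm a (1 + TT L y ∅ * i) (1 + TT L y ∅ * j) := by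
    intro p hp i j h
    obtain ⟨h2, hp'⟩ := mem_erase.1 hp
    have a1 := glob_pow hL hp' (Or.inl rfl) i
    have a2 := glob_pow hL hp' (Or.inr rfl) j
    have a3 : (p : ℤ) ∣ a - 8 - m :=
      Dvd.dvd.trans (by exact_mod_cast (hd p hp).mul_left 8) hq
    have a4 : (p : ℤ) ∣ m := by
      have := ((h.add a1).add a2).sub a3
      unfold mm at this
      exact dv this (by ring)
    by_cases h5 : 5 ≤ p
    · exact hP p (mem_filter.2 ⟨hp', h5⟩) a4
    · have hpp := PP_prime hp'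
      have := hpp.two_le
      have h4 : p ≠ 4 := by rintro rfl; exact absurd hpp (by norm_num)
      have : p = 3 := by omega
      subst this
      exact h3 a4
  have h8 : ∀ i j : ℕ, (8 : ℤ) ∣ mm a (1 + TT L y ∅ * i) (1 + TT L y ∅ * j) - m := by
    intro i j
    have a1 := glob_eight (y := y) hL (Or.inl rfl) i
    have a2 := glob_eight (y := y) hL (Or.inr rfl) j
    have a3 : (8 : ℤ) ∣ a - 8 - m := Dvd.dvd.trans (by push_cast; exact Dvd.intro _ rfl) hq
    exact dv ((a3.sub a1).sub a2) (by unfold mm; ring)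
  have key : ∀ G e : ℕ, G * (2 ^ (e + 2) * R) = 8 * R → (∃ u v : ℕ, G = u ^ 2 + v ^ 2) →
      (∀ x : ℤ, (8 : ℤ) ∣ x - m → ∃ b : ℤ, x = G * b ∧ b % 4 = 1) → Data ε (8 * R) a := by
    intro G e hG hsq hb
    have hs : ∀ l ∈ sm L, l ∣ 2 ^ (e + 2) * R := by
      intro l hl
      by_cases h2 : l = 2
      · rw [h2]
        exact (dvd_pow_self 2 (by omega)).mul_right _
      · exact (hd l (mem_erase.2 ⟨h2, mem_PP.2 (Or.inl hl)⟩)).mul_left _
    have hok : ∀ q, 1 < q → q.Coprime (2 ^ (e + 2) * R) → Ok q := by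
      intro q h1 h2
      refine ⟨by omega, ?_⟩
      exact Nat.Coprime.mul_right (h2.of_dvd_right (hs 3 (mem_sm.2 ⟨by omega, Nat.prime_three⟩)))
        (h2.of_dvd_right (hs 5 (mem_sm.2 ⟨by omega, Nat.prime_five⟩)))
    refine ⟨G, 2 ^ (e + 2) * R, TT L y ∅, 1, 1, lamq L y ∅, hG, ?_, ?_, hsq, ?_, ?_, ?_⟩
    · exact Dvd.dvd.mul_right ⟨2 ^ e, by ring⟩ _
    · exact Nat.mul_pos (OO_pos hL) (Nat.mul_pos
        (Finset.prod_pos fun l hl => pow_pos (mem_sm.1 hl).2.pos _) (by simp))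
    · intro i j
      obtain ⟨b, b1, b2⟩ := hb _ (h8 i j)
      refine ⟨b, b1, b2, ?_⟩
      rw [hR]
      push_cast
      refine IsCoprime.mul_right (IsCoprime.pow_right ?_) (IsCoprime.prod_right fun p hp => ?_)
      · exact ⟨1, -(b / 2), by omega⟩
      · refine ((Nat.prime_iff_prime_int.1 (PP_prime (mem_erase.1 hp).2)).irreducible.coprime_iff_not_dvd.2
          fun h => hnd p hp i j ?_).symm
        rw [b1]
        exact h.mul_left _
    · intro q h1 h2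
      unfold lamq
      split_ifs with c1 c2 c3
      · exact ⟨le_rfl, sep_one _ _⟩
      · exact ⟨by omega, sep_lam hL (by simp) (hok q h1 h2) c1 c2⟩
      · obtain ⟨p, hp, hpq⟩ := c3
        obtain ⟨⟨b1, _⟩, hpp, _⟩ := mem_bg.1 hp
        have := Nat.dvd_gcd hpq
          ((hd p (mem_erase.2 ⟨by omega, mem_PP.2 (Or.inr hp)⟩)).mul_left (2 ^ (e + 2)))
        rw [h2] at this
        exact absurd (Nat.dvd_one.1 this) hpp.one_lt.ne'
      · exact ⟨le_rfl, sep_one _ _⟩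
    · intro Q
      have := gc_sum (F := ∅) hL hs t1 t2 t3 t5 (by simp; positivity) hok Q
      linarith
  rcases hm with hm | hm
  · exact key 1 1 (by ring) ⟨1, 0, rfl⟩ fun x hx => ⟨x, by simp, by omega⟩
  · exact key 2 0 (by ring) ⟨1, 1, rfl⟩ fun x hx => ⟨x / 2, by push_cast; omega, by omega⟩

theorem stFin (h : StLoc) : StFin := by
  obtain ⟨k, hk⟩ := h
  refine ⟨k + 1, ?_⟩
  rw [Metric.tendsto_atTop]
  intro ε hε
  set η : ℝ := ε / 24002 with hη
  have hη0 : 0 < η := by positivity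
  obtain ⟨q, P, hq, hP, hD⟩ := glob_data hη0
  choose s hs using fun r : ℕ => hk P hP ((r : ℤ) - 8)
  set a : ℕ → ℕ := fun r => (((r : ℤ) - s r) % q).toNat with ha
  have hq0 : (0 : ℤ) < q := by exact_mod_cast hq
  have ha1 : ∀ r, (a r : ℤ) = ((r : ℤ) - s r) % q := fun r =>
    Int.toNat_of_nonneg (Int.emod_nonneg _ hq0.ne')
  have h1 : ∀ᶠ X : ℕ in atTop, ∀ r ∈ range q,
      (((range X).filter fun t : ℕ => ¬ Rep (a r + q * t)).card : ℝ) ≤ 12000 * η * X := by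
    refine (Filter.eventually_all_finset _).2 fun r _ => ap hη0 hq (hD _ _ ?_ (hs r).2.1
      (hs r).2.2.1 (hs r).2.2.2)
    rw [ha1, Int.emod_def]
    exact ⟨-(((r : ℤ) - s r) / q), by ring⟩
  have t1 : Tendsto (fun x : ℕ => x / q + 1) atTop atTop :=
    tendsto_atTop_mono (fun x => Nat.le_succ _) (Nat.tendsto_div_const_atTop hq.ne')
  set S := (range q).sup s with hS
  have t2 : ∀ᶠ x : ℕ in atTop, (S : ℝ) / η ≤ x :=
    tendsto_natCast_atTop_atTop.eventually_ge_atTop _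
  obtain ⟨N, hN⟩ := eventually_atTop.1
    ((t1.eventually h1).and ((eventually_ge_atTop q).and t2))
  refine ⟨N, fun x hx => ?_⟩
  obtain ⟨b1, b2, b3⟩ := hN x hx
  set X := x / q + 1 with hX
  have hx0 : (0 : ℝ) < x := by exact_mod_cast lt_of_lt_of_le hq b2
  set B := range S ∪ (range q).biUnion fun r =>
    ((range X).filter fun t : ℕ => ¬ Rep (a r + q * t)).image fun t => a r + q * t + s r with hB
  have c1 : {n : ℕ | n < x ∧ ¬ ∃ (a b d : ℕ) (c : Fin (k + 1) → ℕ),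
      n = a ^ 2 + b ^ 2 + ∑ i, 3 ^ c i + 5 ^ d} ⊆ (B : Set ℕ) := by
    rintro n ⟨n1, n2⟩
    refine Finset.mem_coe.2 (mem_union.2 ?_)
    by_cases n3 : n < S
    · exact Or.inl (mem_range.2 n3)
    have hr : n % q ∈ range q := mem_range.2 (Nat.mod_lt _ hq)
    have n4 : s (n % q) ≤ n := (Finset.le_sup (f := s) hr).trans (not_lt.1 n3)
    have n5 : a (n % q) + q * ((n - s (n % q)) / q) = n - s (n % q) := by
      have e1 : a (n % q) = (n - s (n % q)) % q := by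
        have e2 : (a (n % q) : ℤ) = (((n - s (n % q)) % q : ℕ) : ℤ) := by
          rw [ha1]
          push_cast [n4]
          exact Int.emod_sub_emod _ _ _
        exact_mod_cast e2
      rw [e1, Nat.mod_add_div]
    refine Or.inr (mem_biUnion.2 ⟨n % q, hr, mem_image.2 ⟨(n - s (n % q)) / q,
      mem_filter.2 ⟨mem_range.2 ?_, ?_⟩, by omega⟩⟩)
    · exact Nat.lt_succ_of_le (Nat.div_le_div_right (by omega))
    · rw [n5]
      rintro ⟨u, v, c, d, e⟩
      obtain ⟨c', hc'⟩ := (hs (n % q)).1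
      refine n2 ⟨u, v, d, Fin.cons c c', ?_⟩
      rw [Fin.sum_univ_succ]
      simp only [Fin.cons_zero, Fin.cons_succ]
      omega
  have c2 : (B.card : ℝ) ≤ S + q * (12000 * η * X) := by
    have d1 : B.card ≤ S + ∑ r ∈ range q,
        ((range X).filter fun t : ℕ => ¬ Rep (a r + q * t)).card := by
      refine (card_union_le _ _).trans (Nat.add_le_add (card_range S).le ?_)
      exact card_biUnion_le.trans (Finset.sum_le_sum fun r _ => card_image_le)
    have d2 := Finset.sum_le_sum b1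
    rw [Finset.sum_const, card_range, nsmul_eq_mul, ← Nat.cast_sum] at d2
    have d3 : (B.card : ℝ) ≤ S + ((∑ r ∈ range q,
        ((range X).filter fun t : ℕ => ¬ Rep (a r + q * t)).card : ℕ) : ℝ) := by exact_mod_cast d1
    linarith
  have c3 := Set.ncard_le_ncard c1 (Finset.finite_toSet B)
  rw [Set.ncard_coe_finset] at c3
  have c4 : (q : ℝ) * X ≤ 2 * x := by
    have : q * X ≤ 2 * x := by
      have := Nat.mul_div_le x q
      rw [hX, Nat.mul_succ]
      omega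
    exact_mod_cast this
  rw [div_le_iff₀ hη0] at b3
  rw [Real.dist_eq, sub_zero, abs_of_nonneg (by positivity), div_lt_iff₀ hx0]
  refine lt_of_le_of_lt (Nat.cast_le.2 c3) (lt_of_le_of_lt c2 ?_)
  have e : ε = 24002 * η := by rw [hη]; ring
  rw [e]
  nlinarith [mul_pos hη0 hx0]

end Pool.Agent.MP_c903c4_nt.K
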