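import Pool.Agent.MP_c903c4_nt.K.Defs

/-! Good dilates generate many good dilates. -/

open Finset
open scoped Pointwise Classical

noncomputable section

namespace Pool.Agent.MP_c903c4_nt.K

/-- The dilate by y is good at level m. -/
def P_Grow {p : ℕ} (B : Finset (ZMod p)) (D : ℝ) (m : ℕ) (y : ZMod p) : Prop :=
  ((B - y • B).card : ℝ) ≤ D ^ m * B.card

section
variable {p : ℕ} [Fact p.Prime] {B : Finset (ZMod p)} {D : ℝ}

theorem mono_Grow (hD : 1 ≤ D) {m m' : ℕ} (h : m ≤ m') {y : ZMod p} (hy : P_Grow B D m y) :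
    P_Grow B D m' y :=
  hy.trans (mul_le_mul_of_nonneg_right (pow_le_pow_right₀ hD h) (Nat.cast_nonneg _))

theorem zero_Grow (hD : 1 ≤ D) (m : ℕ) : P_Grow B D m 0 := by
  have h : B - (0 : ZMod p) • B ⊆ B := by
    intro x hx
    obtain ⟨b, hb, c, hc, rfl⟩ := mem_sub.1 hx
    obtain ⟨d, -, rfl⟩ := mem_smul_finset.1 hc
    simpa using hb
  have h1 : ((B - (0 : ZMod p) • B).card : ℝ) ≤ B.card := by exact_mod_cast card_le_card h
  exact h1.trans (le_mul_of_one_le_left (Nat.cast_nonneg _) (one_le_pow₀ hD))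

theorem card_smul_Grow {y : ZMod p} (hy : y ≠ 0) (S : Finset (ZMod p)) : (y • S).card = S.card :=
  card_image_of_injective S (mul_right_injective₀ hy)

theorem smul_sub_Grow (y : ZMod p) (S T : Finset (ZMod p)) : y • (S - T) = y • S - y • T := by
  ext x
  constructor
  · intro hx
    obtain ⟨d, hd, rfl⟩ := mem_smul_finset.1 hx
    obtain ⟨a, ha, b, hb, rfl⟩ := mem_sub.1 hd
    exact mem_sub.2 ⟨_, smul_mem_smul_finset ha, _, smul_mem_smul_finset hb, (smul_sub y a b).symm⟩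
  · intro hx
    obtain ⟨a', ha', b', hb', rfl⟩ := mem_sub.1 hx
    obtain ⟨a, ha, rfl⟩ := mem_smul_finset.1 ha'
    obtain ⟨b, hb, rfl⟩ := mem_smul_finset.1 hb'
    exact mem_smul_finset.2 ⟨_, sub_mem_sub ha hb, smul_sub y a b⟩

theorem card_comm_Grow (S T : Finset (ZMod p)) : (S - T).card = (T - S).card := by
  rw [← card_neg, neg_sub]

theorem tri_Grow (hB : B.Nonempty) (A C M : Finset (ZMod p)) (hM : M.card = B.card) {u v : ℝ}
    (hu : 0 ≤ u) (h1 : ((A - M).card : ℝ) ≤ u * B.card) (h2 : ((C - M).card : ℝ) ≤ v * B.card) :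
    ((A - C).card : ℝ) ≤ u * v * B.card := by
  have hpos : (0 : ℝ) < B.card := by exact_mod_cast hB.card_pos
  have h : ((A - C).card : ℝ) * B.card ≤ (A - M).card * (C - M).card := by
    rw [← hM]
    exact_mod_cast ruzsa_triangle_inequality_sub_sub_sub A M C
  refine le_of_mul_le_mul_right (h.trans ?_) hpos
  calc ((A - M).card : ℝ) * (C - M).card ≤ (u * B.card) * (v * B.card) :=
        mul_le_mul h1 h2 (Nat.cast_nonneg _) (mul_nonneg hu hpos.le)
    _ = u * v * B.card * B.card := by ring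

theorem mul_Grow (hB : B.Nonempty) (hD : 1 ≤ D) {m m' : ℕ} {y z : ZMod p} (hy : P_Grow B D m y)
    (hz : P_Grow B D m' z) : P_Grow B D (m + m') (y * z) := by
  by_cases h0 : y = 0
  · rw [h0, zero_mul]
    exact zero_Grow hD _
  unfold P_Grow
  rw [pow_add]
  refine tri_Grow hB B ((y * z) • B) (y • B) (card_smul_Grow h0 B) (by positivity) hy ?_
  rw [mul_smul, ← smul_sub_Grow, card_smul_Grow h0, card_comm_Grow]
  exact hz

theorem inv_Grow {m : ℕ} {y : ZMod p} (hy : P_Grow B D m y) : P_Grow B D m y⁻¹ := by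
  by_cases h0 : y = 0
  · rw [h0, inv_zero, ← h0]
    exact hy
  unfold P_Grow
  rw [← card_smul_Grow h0, smul_sub_Grow, smul_smul, mul_inv_cancel₀ h0, one_smul, card_comm_Grow]
  exact hy

theorem pl_Grow (hB : B.Nonempty) (h : ((B - B).card : ℝ) ≤ D * B.card) (m n : ℕ) :
    ((m • B - n • B).card : ℝ) ≤ D ^ (m + n) * B.card := by
  have hpos : (0 : ℝ) < B.card := by exact_mod_cast hB.card_pos
  have h1 := pluennecke_ruzsa_inequality_nsmul_sub_nsmul_sub hB B m n
  have h2 : ((m • B - n • B).card : ℝ) ≤ (((B - B).card : ℝ) / B.card) ^ (m + n) * B.card := by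
    have h3 := (NNRat.cast_le (K := ℝ)).2 h1
    push_cast at h3
    exact h3
  refine h2.trans (mul_le_mul_of_nonneg_right (pow_le_pow_left₀ (by positivity) ?_ _) hpos.le)
  rwa [div_le_iff₀ hpos]

theorem neg_Grow (hB : B.Nonempty) (h : ((B - B).card : ℝ) ≤ D * B.card) : P_Grow B D 2 (-1) := by
  have h1 := pl_Grow hB h 2 0
  rw [zero_nsmul, sub_zero, two_nsmul] at h1
  refine le_trans ?_ h1
  refine Nat.cast_le.2 (card_le_card fun x hx => ?_)
  obtain ⟨a, ha, b', hb', rfl⟩ := mem_sub.1 hx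
  obtain ⟨b, hb, rfl⟩ := mem_smul_finset.1 hb'
  exact mem_add.2 ⟨a, ha, b, hb, by simp⟩

theorem succ_Grow (hB : B.Nonempty) (hD : 1 ≤ D) (h : ((B - B).card : ℝ) ≤ D * B.card) {m : ℕ}
    {y : ZMod p} (hy : P_Grow B D m y) : P_Grow B D (m + 3) (y + 1) := by
  have h1 := pl_Grow hB h 1 2
  rw [one_nsmul, two_nsmul, ← sub_sub] at h1
  have h2 : ((y • B - B).card : ℝ) ≤ D ^ m * B.card := by
    rw [card_comm_Grow]
    exact hy
  have h3 := tri_Grow hB (B - B) (y • B) B rfl (by positivity) h1 h2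
  rw [← pow_add, add_comm (1 + 2) m] at h3
  refine le_trans ?_ h3
  refine Nat.cast_le.2 (card_le_card fun x hx => ?_)
  obtain ⟨a, ha, b', hb', rfl⟩ := mem_sub.1 hx
  obtain ⟨b, hb, rfl⟩ := mem_smul_finset.1 hb'
  exact mem_sub.2 ⟨a - b, sub_mem_sub ha hb, y • b, smul_mem_smul_finset hb, by
    simp only [smul_eq_mul]; ring⟩

theorem add_Grow (hB : B.Nonempty) (hD : 1 ≤ D) (h : ((B - B).card : ℝ) ≤ D * B.card) {m m' : ℕ}
    {y z : ZMod p} (hy : P_Grow B D m y) (hz : P_Grow B D m' z) :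
    P_Grow B D (m + 2 * m' + 3) (y + z) := by
  by_cases h0 : z = 0
  · rw [h0, add_zero]
    exact mono_Grow hD (by omega) hy
  have h1 := mul_Grow hB hD hz (succ_Grow hB hD h (mul_Grow hB hD hy (inv_Grow hz)))
  have e : z * (y * z⁻¹ + 1) = y + z := by field_simp
  rw [e] at h1
  exact mono_Grow hD (by omega) h1

theorem sub_Grow (hB : B.Nonempty) (hD : 1 ≤ D) (h : ((B - B).card : ℝ) ≤ D * B.card) {m : ℕ}
    (hm : 3 ≤ m) {a b : ZMod p} (ha : P_Grow B D m a) (hb : P_Grow B D m b) :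
    P_Grow B D (6 * m) (a - b) := by
  have h1 := add_Grow hB hD h (mul_Grow hB hD (neg_Grow hB h) hb) ha
  have e : -1 * b + a = a - b := by ring
  rw [e] at h1
  exact mono_Grow hD (by omega) h1

theorem step_Grow (hB : B.Nonempty) (hD : 1 ≤ D) (h : ((B - B).card : ℝ) ≤ D * B.card) {m : ℕ}
    (hm : 3 ≤ m) (Y : Finset (ZMod p)) (hY : ∀ y ∈ Y, P_Grow B D m y) (h2 : 2 ≤ Y.card) :
    ∃ Y' : Finset (ZMod p), (∀ y ∈ Y', P_Grow B D (56 * m) y) ∧
      (Y'.card = p ∨ Y'.card = Y.card ^ 2) := by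
  let Q : ZMod p → Prop := fun x => ∃ a ∈ Y, ∃ b ∈ Y, ∃ c ∈ Y, ∃ d ∈ Y, c ≠ d ∧
    x = (a - b) * (c - d)⁻¹
  have hQ : ∀ x, Q x → P_Grow B D (12 * m) x := by
    rintro x ⟨a, ha, b, hb, c, hc, d, hd, -, rfl⟩
    exact mono_Grow hD (by omega) (mul_Grow hB hD (sub_Grow hB hD h hm (hY a ha) (hY b hb))
      (inv_Grow (sub_Grow hB hD h hm (hY c hc) (hY d hd))))
  by_cases hcl : ∀ x, Q x → Q (x + 1)
  · have h0 : Q 0 := by
      obtain ⟨c, hc, d, hd, hcd⟩ := one_lt_card.1 h2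
      exact ⟨c, hc, c, hc, c, hc, d, hd, hcd, by simp⟩
    have hn : ∀ n : ℕ, Q (n : ZMod p) := by
      intro n
      induction n with
      | zero => simpa using h0
      | succ n ih => simpa using hcl _ ih
    refine ⟨univ, fun y _ => mono_Grow hD (by omega) (hQ y ?_), Or.inl ?_⟩
    · rw [← ZMod.natCast_zmod_val y]
      exact hn _
    · rw [card_univ, ZMod.card]
  · push Not at hcl
    obtain ⟨x, hx, hx1⟩ := hcl
    have hxi : P_Grow B D (12 * m + 3) (x + 1) := succ_Grow hB hD h (hQ x hx)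
    refine ⟨(Y ×ˢ Y).image fun t => (x + 1) * t.2 + t.1, ?_, Or.inr ?_⟩
    · intro y hy
      obtain ⟨t, ht, rfl⟩ := mem_image.1 hy
      obtain ⟨h1, h3⟩ := mem_product.1 ht
      exact mono_Grow hD (by omega) (add_Grow hB hD h (mul_Grow hB hD hxi (hY _ h3)) (hY _ h1))
    · rw [card_image_of_injOn, card_product, pow_two]
      intro t ht u hu e
      obtain ⟨h1, h3⟩ := mem_product.1 (mem_coe.1 ht)
      obtain ⟨h4, h5⟩ := mem_product.1 (mem_coe.1 hu)
      have e' : (x + 1) * t.2 + t.1 = (x + 1) * u.2 + u.1 := e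
      by_cases hne : u.2 = t.2
      · rw [hne] at e'
        exact Prod.ext (add_left_cancel e') hne.symm
      · refine absurd ⟨t.1, h1, u.1, h4, u.2, h5, t.2, h3, hne, ?_⟩ hx1
        rw [eq_mul_inv_iff_mul_eq₀ (sub_ne_zero.2 hne)]
        linear_combination -e'

end

theorem stGrow : StGrow := by
  intro p hp B X D hB hD h h2 hX s
  suffices H : ∃ Y : Finset (ZMod p), (∀ y ∈ Y, P_Grow B D (3 * 56 ^ s) y) ∧
      min p (X.card ^ 2 ^ s) ≤ Y.card ∧ 2 ≤ Y.card by
    obtain ⟨Y, h1, h3, -⟩ := H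
    exact ⟨Y, h1, h3⟩
  induction s with
  | zero => exact ⟨X, hX, by simp, h2⟩
  | succ s ih =>
    obtain ⟨Y, h1, h3, h4⟩ := ih
    have hm : 3 ≤ 3 * 56 ^ s := Nat.le_mul_of_pos_right _ (by positivity)
    obtain ⟨Y', h5, h6⟩ := step_Grow hB hD h hm Y h1 h4
    refine ⟨Y', fun y hy => ?_, ?_, ?_⟩
    · have e : 3 * 56 ^ (s + 1) = 56 * (3 * 56 ^ s) := by ring
      rw [e]
      exact h5 y hy
    · rcases h6 with h6 | h6
      · rw [h6]
        exact min_le_left _ _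
      · rw [h6, pow_succ 2 s, pow_mul]
        rcases min_le_iff.1 h3 with h7 | h7
        · exact (min_le_left _ _).trans (h7.trans (Nat.le_self_pow two_ne_zero _))
        · exact (min_le_right _ _).trans (Nat.pow_le_pow_left h7 2)
    · rcases h6 with h6 | h6
      · rw [h6]
        exact hp.out.two_le
      · rw [h6]
        exact h4.trans (Nat.le_self_pow two_ne_zero _)

end Pool.Agent.MP_c903c4_nt.K
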