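import Pool.Agent.MP_c903c4_nt.K.Defs

/-!
The no-covering statement from the clock, the share bound and the potential lemma.
-/

open Finset
open scoped Pointwise Classical Nat

noncomputable section

namespace Pool.Agent.MP_c903c4_nt.K

/-- The order of nine. -/
def aa (p : ℕ) : ℕ := orderOf (9 : ZMod p)

/-- The largest prime factor of the order of nine. -/
def ll (p : ℕ) : ℕ := (aa p).primeFactors.sup id

/-- The order of nine to the power that is fixed at time t. -/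
def hh (L p t : ℕ) : ℕ := orderOf ((9 : ZMod p) ^ (t !) ^ L)

/-- Activation times, finishing times, shares and weights exist. -/
def StClock : Prop := ∃ K : ℕ, ∀ h₀ : ℕ, ∃ y : ℕ, ∀ P : Finset ℕ, (∀ p ∈ P, p.Prime ∧ 5 ≤ p) →
  ∀ L : ℕ, (∀ p ∈ P, aa p ≤ L) →
  ∃ (S : Finset ℕ) (T al fi : ℕ → ℕ) (σ W : ℕ → ℝ), Monotone T ∧ (∀ p ∈ S, p ∈ P ∧ p ≤ y) ∧
    (∀ p ∈ P, al p < fi p) ∧ (∀ p ∈ P, 0 ≤ σ p ∧ 0 ≤ W p) ∧
    (∀ p ∈ P, ∏ t ∈ Ico (al p) (fi p),
      (1 + 2 * ∑ q ∈ P.filter (fun q => al q = t), W q * σ q) ≤ W p) ∧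
    (∀ p ∈ P, ll p ≤ T (fi p)) ∧ (∀ p ∈ S, (1 : ℝ) / p ≤ σ p) ∧
    ∀ p ∈ P, p ∉ S → h₀ ≤ hh L p (T (al p)) ∧
      (1 : ℝ) / p + 1 / (hh L p (T (al p)) : ℝ) ^ K ≤ σ p ∧ ∀ q ∈ S, fi q ≤ fi p

theorem mart_R {G : Type} [CommRing G] [Fintype G] (ψ : G → Prop) (n m c : G) :
    ∑ w : G, ((univ.filter fun z : G => ψ (c + n * w + (n * m) * z)).card : ℝ) =
      Fintype.card G * ((univ.filter fun z : G => ψ (c + n * z)).card : ℝ) := by
  have h : ∀ z : G, ∑ w : G, (if ψ (c + n * w + (n * m) * z) then (1 : ℝ) else 0) =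
      ∑ w : G, if ψ (c + n * w) then (1 : ℝ) else 0 := fun z => by
    refine Fintype.sum_equiv (Equiv.addRight (m * z)) _ _ fun w => ?_
    rw [Equiv.coe_addRight, mul_add, mul_assoc, add_assoc]
  simp only [← sum_boole]
  rw [sum_comm, sum_congr rfl fun z _ => h z, sum_const, card_univ, nsmul_eq_mul]

theorem pot_R {G : Type} [CommRing G] [Fintype G] (P : Finset ℕ) (χ : ℕ → G → Prop)
    (M : ℕ → G) (a f : ℕ → ℕ) (σ W : ℕ → ℝ) (hM : ∀ t, M t ∣ M (t + 1))
    (haf : ∀ p ∈ P, a p < f p) (hσ : ∀ p ∈ P, 0 ≤ σ p ∧ 0 ≤ W p)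
    (hsh : ∀ p ∈ P, ∀ c : G, ((univ.filter fun z : G => χ p (c + M (a p) * z)).card : ℝ) ≤
      σ p * Fintype.card G)
    (hfin : ∀ p ∈ P, ∀ c z : G, χ p (c + M (f p) * z) ↔ χ p c)
    (hW : ∀ p ∈ P, ∏ t ∈ Ico (a p) (f p),
      (1 + 2 * ∑ q ∈ P.filter (fun q => a q = t), W q * σ q) ≤ W p) :
    ∃ c : G, ∀ p ∈ P, ¬ χ p c := by
  obtain ⟨ι, hι⟩ : ∃ ι : ℕ → ℝ, ∀ t, ι t = ∑ q ∈ P.filter (fun q => a q = t), W q * σ q :=
    ⟨_, fun _ => rfl⟩
  simp only [← hι] at hW
  have ι0 : ∀ t, 0 ≤ ι t := fun t => by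
    rw [hι]
    exact sum_nonneg fun q hq =>
      mul_nonneg (hσ q (mem_filter.1 hq).1).2 (hσ q (mem_filter.1 hq).1).1
  obtain ⟨om, hom⟩ : ∃ om : ℕ → ℝ, ∀ t, om t = ∏ s ∈ range t, (1 + 2 * ι s) :=
    ⟨_, fun _ => rfl⟩
  have om0 : ∀ t, 0 < om t := fun t => by
    rw [hom]
    exact prod_pos fun s _ => by linarith [ι0 s]
  have omW : ∀ p ∈ P, om (f p) ≤ om (a p) * W p := fun p hp => by
    have h := mul_le_mul_of_nonneg_left (hW p hp) (om0 (a p)).le
    rwa [hom (a p), prod_range_mul_prod_Ico _ (haf p hp).le, ← hom, ← hom] at h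
  obtain ⟨cn, hcn⟩ : ∃ cn : ℕ → ℕ → G → ℝ, ∀ p t c,
      cn p t c = ((univ.filter fun z : G => χ p (c + M t * z)).card : ℝ) :=
    ⟨_, fun _ _ _ => rfl⟩
  have cn0 : ∀ p t c, 0 ≤ cn p t c := fun p t c => by
    rw [hcn]
    exact Nat.cast_nonneg _
  have mart : ∀ p t c, ∑ w : G, cn p (t + 1) (c + M t * w) = Fintype.card G * cn p t c :=
    fun p t c => by
      obtain ⟨m, hm⟩ := hM t
      simp only [hcn, hm]
      exact mart_R (χ p) (M t) m c
  have dv : ∀ s t, s ≤ t → M s ∣ M t := fun s t h => by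
    induction h with
    | refl => exact dvd_rfl
    | step _ ih => exact ih.trans (hM _)
  have N0 : (0 : ℝ) < Fintype.card G := by exact_mod_cast Fintype.card_pos
  have key : ∀ t, ∃ c : G, (∀ p ∈ P, f p ≤ t → ¬ χ p c) ∧
      ∑ p ∈ P.filter (fun p => a p < t), om (f p) * cn p t c ≤ om t * Fintype.card G / 2 := by
    intro t
    induction t with
    | zero =>
      refine ⟨0, fun p hp h => absurd (haf p hp) (by omega), ?_⟩
      rw [filter_false_of_mem fun p _ => Nat.not_lt_zero _, sum_empty]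
      exact div_nonneg (mul_pos (om0 0) N0).le zero_le_two
    | succ t ih =>
      obtain ⟨c, ha, hb⟩ := ih
      have e1 : P.filter (fun p => a p < t + 1) =
          P.filter (fun p => a p < t) ∪ P.filter (fun p => a p = t) := by
        rw [← filter_or]
        exact filter_congr fun p _ => by omega
      have e2 : Disjoint (P.filter (fun p => a p < t)) (P.filter (fun p => a p = t)) :=
        disjoint_filter.2 fun p _ h => by omega
      have e3 : ∑ p ∈ P.filter (fun p => a p = t), om (f p) * cn p t c ≤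
          om t * Fintype.card G * ι t := by
        rw [hι, mul_sum]
        refine sum_le_sum fun p hq => ?_
        obtain ⟨hp, rfl⟩ := mem_filter.1 hq
        have h1 : cn p (a p) c ≤ σ p * Fintype.card G := by
          rw [hcn]
          exact hsh p hp c
        refine (mul_le_mul (omW p hp) h1 (cn0 _ _ _)
          (mul_nonneg (om0 _).le (hσ p hp).2)).trans (le_of_eq ?_)
        ring
      have e4 : om (t + 1) = om t * (1 + 2 * ι t) := by rw [hom, prod_range_succ, ← hom]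
      have e5 : ∑ w : G, ∑ p ∈ P.filter (fun p => a p < t + 1),
          om (f p) * cn p (t + 1) (c + M t * w) ≤ ∑ w : G, om (t + 1) * Fintype.card G / 2 := by
        rw [sum_comm, sum_const, card_univ, nsmul_eq_mul]
        simp only [← mul_sum, mart, mul_left_comm _ (Fintype.card G : ℝ)]
        refine mul_le_mul_of_nonneg_left ?_ N0.le
        rw [e1, sum_union e2, e4]
        linarith
      obtain ⟨w, -, hw⟩ := exists_le_of_sum_le univ_nonempty e5
      refine ⟨c + M t * w, fun p hp h hbad => ?_, hw⟩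
      rcases h.lt_or_eq with h | h
      · obtain ⟨k, hk⟩ := dv (f p) t (by omega)
        rw [hk, mul_assoc, hfin p hp] at hbad
        exact ha p hp (by omega) hbad
      · have h1 : cn p (t + 1) (c + M t * w) = Fintype.card G := by
          rw [hcn, ← h, filter_true_of_mem fun z _ => (hfin p hp _ z).2 hbad, card_univ]
        have h2 := single_le_sum (f := fun p => om (f p) * cn p (t + 1) (c + M t * w))
          (fun q _ => mul_nonneg (om0 _).le (cn0 _ _ _))
          (mem_filter.2 ⟨hp, by have := haf p hp; omega⟩ : p ∈ P.filter (fun p => a p < t + 1))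
        have h3 := h2.trans hw
        simp only [h1, h] at h3
        linarith [mul_pos (om0 (t + 1)) N0]
  obtain ⟨c, hc, -⟩ := key (P.sup f)
  exact ⟨c, fun p hp => hc p hp (le_sup hp)⟩

lemma nine_ne {p : ℕ} (hp : p.Prime) (h5 : 5 ≤ p) : (9 : ZMod p) ≠ 0 := by
  intro h
  have h1 : ((3 ^ 2 : ℕ) : ZMod p) = 0 := by simpa using h
  have := Nat.le_of_dvd (by norm_num) (hp.dvd_of_dvd_pow ((ZMod.natCast_eq_zero_iff _ _).1 h1))
  omega

lemma aa_dvd {p : ℕ} (hp : p.Prime) (h5 : 5 ≤ p) : aa p ∣ p - 1 := by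
  have := Fact.mk hp
  exact ZMod.orderOf_dvd_card_sub_one (nine_ne hp h5)

lemma aa_pos {p : ℕ} (hp : p.Prime) (h5 : 5 ≤ p) : 0 < aa p :=
  Nat.pos_of_dvd_of_pos (aa_dvd hp h5) (by omega)

lemma le_ll {p q : ℕ} (hp : p.Prime) (h5 : 5 ≤ p) (hq : q.Prime) (h : q ∣ aa p) : q ≤ ll p :=
  le_sup (f := id) (Nat.mem_primeFactors.2 ⟨hq, h, (aa_pos hp h5).ne'⟩)

lemma nine_fin {p L t : ℕ} (hp : p.Prime) (h5 : 5 ≤ p) (hL : aa p ≤ L) (ht : ll p ≤ t) :
    (9 : ZMod p) ^ (t !) ^ L = 1 := by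
  refine orderOf_dvd_iff_pow_eq_one.1 ?_
  refine (Nat.dvd_prod_primeFactors_pow_self (aa_pos hp h5).ne').trans
    ((pow_dvd_pow_of_dvd ?_ _).trans (pow_dvd_pow _ hL))
  refine Finset.prod_primes_dvd _ (fun q hq => (Nat.prime_of_mem_primeFactors hq).prime)
    fun q hq => ?_
  exact Nat.dvd_factorial (Nat.prime_of_mem_primeFactors hq).pos
    ((le_sup (f := id) hq).trans ht)

lemma pow_val {p L : ℕ} [NeZero L] {g : ZMod p} (hg : g ^ L = 1) (x z : ZMod L) (m : ℕ) :
    g ^ (x + m * z).val = g ^ x.val * (g ^ m) ^ z.val := by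
  rw [← pow_mul, ← pow_add]
  refine pow_eq_pow_of_modEq ?_ hg
  rw [← ZMod.natCast_eq_natCast_iff]
  simp

lemma cnt_fst {A B : Type} [Fintype A] [Fintype B] (ψ : A × B → Prop) [DecidablePred ψ] {σ : ℝ}
    (h : ∀ a, ((univ.filter fun b => ψ (a, b)).card : ℝ) ≤ σ * Fintype.card B) :
    ((univ.filter ψ).card : ℝ) ≤ σ * Fintype.card (A × B) := by
  simp only [← sum_boole] at h ⊢
  rw [Fintype.sum_prod_type, Fintype.card_prod]
  refine (sum_le_sum fun a _ => h a).trans (le_of_eq ?_)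
  simp
  ring

lemma cnt_snd {A B : Type} [Fintype A] [Fintype B] (ψ : A × B → Prop) [DecidablePred ψ] {σ : ℝ}
    (h : ∀ b, ((univ.filter fun a => ψ (a, b)).card : ℝ) ≤ σ * Fintype.card A) :
    ((univ.filter ψ).card : ℝ) ≤ σ * Fintype.card (A × B) := by
  simp only [← sum_boole] at h ⊢
  rw [Fintype.sum_prod_type_right, Fintype.card_prod]
  refine (sum_le_sum fun a _ => h a).trans (le_of_eq ?_)
  simp
  ring

lemma cnt_lin {p Q : ℕ} [NeZero Q] (hp : p.Prime) (hd : p ∣ Q) {u : ZMod p} (hu : u ≠ 0)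
    (r : ZMod p) :
    ((univ.filter fun z : ZMod Q => u * (z.val : ZMod p) = r).card : ℝ) ≤ 1 / p * Q := by
  have := Fact.mk hp
  set A := univ.filter fun z : ZMod Q => u * (z.val : ZMod p) = r with hA
  have h1 : (A ×ˢ (univ : Finset (ZMod p))).card ≤ (univ : Finset (ZMod Q)).card := by
    refine card_le_card_of_injOn (fun x => x.1 + (x.2.val : ZMod Q)) (fun _ _ => by simp) ?_
    rintro ⟨z, i⟩ h1 ⟨w, j⟩ h2 h
    have a1 := (mem_filter.1 (mem_product.1 (mem_coe.1 h1)).1).2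
    have a2 := (mem_filter.1 (mem_product.1 (mem_coe.1 h2)).1).2
    have a3 : (z.val : ZMod p) = w.val := mul_left_cancel₀ hu (a1.trans a2.symm)
    have a4 := congrArg (ZMod.castHom hd (ZMod p)) h
    have e : ∀ w : ZMod Q, ZMod.castHom hd (ZMod p) w = (w.val : ZMod p) := fun w => by simp
    simp only [map_add, map_natCast, ZMod.natCast_zmod_val] at a4
    have a5 : i = j := by
      rw [e, e, a3] at a4
      exact add_left_cancel a4
    subst a5
    exact Prod.ext (add_right_cancel h) rfl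
  rw [card_product, card_univ, card_univ, ZMod.card, ZMod.card] at h1
  have h0 : (0 : ℝ) < p := by exact_mod_cast hp.pos
  rw [one_div_mul_eq_div, le_div_iff₀ h0]
  exact_mod_cast h1

lemma sp_add {k l s t : ℕ} (h1 : SumPow k s) (h2 : SumPow l t) : SumPow (k + l) (s + t) := by
  obtain ⟨c, rfl⟩ := h1
  obtain ⟨d, rfl⟩ := h2
  exact ⟨Fin.append c d, by simp [Fin.sum_univ_add]⟩

lemma sp_lin (m : ℕ) : ∀ j ≤ m, SumPow m (m + 2 * j) := by
  induction m with
  | zero => exact fun j hj => ⟨fun _ => 0, by simp; omega⟩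
  | succ m ih =>
    intro j hj
    rcases hj.lt_or_eq with h | h
    · have := sp_add (ih j (by omega)) (⟨fun _ => 0, by simp⟩ : SumPow 1 1)
      rwa [show m + 2 * j + 1 = m + 1 + 2 * j by ring] at this
    · have := sp_add (ih m le_rfl) (⟨fun _ => 1, by simp⟩ : SumPow 1 3)
      rwa [show m + 2 * m + 3 = m + 1 + 2 * j by omega] at this

theorem stLoc (hS : StShare) (hC : StClock) : StLoc := by
  obtain ⟨K, hC⟩ := hC
  obtain ⟨k, h₀, hS⟩ := hS K
  obtain ⟨y, hC⟩ := hC h₀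
  refine ⟨12 * y ! + k, fun P hP n => ?_⟩
  set L := ∏ p ∈ P, aa p with hL
  have L0 : 0 < L := prod_pos fun p hp => aa_pos (hP p hp).1 (hP p hp).2
  have aL : ∀ p ∈ P, aa p ∣ L := fun p hp => dvd_prod_of_mem _ hp
  obtain ⟨S, T, al, fi, σ, W, c1, c2, c3, c4, c5, c6, c7, c8⟩ :=
    hC P hP L fun p hp => Nat.le_of_dvd L0 (aL p hp)
  set Q := ∏ p ∈ S, p with hQ
  have Q0 : 0 < Q := prod_pos fun p hp => (hP p (c2 p hp).1).1.pos
  have Q1 : Q ≤ y ! := Nat.le_of_dvd (Nat.factorial_pos y)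
    (Finset.prod_primes_dvd _ (fun p hp => (hP p (c2 p hp).1).1.prime)
      fun p hp => Nat.dvd_factorial (hP p (c2 p hp).1).1.pos (c2 p hp).2)
  have : NeZero L := ⟨L0.ne'⟩
  have : NeZero Q := ⟨Q0.ne'⟩
  obtain ⟨i, hi, hi2⟩ : ∃ i : ℕ, i < 12 ∧ ((n - 12 * (y ! : ℕ) - 9 * k - 2 * i) % 24 = 1 ∨
      (n - 12 * (y ! : ℕ) - 9 * k - 2 * i) % 24 = 2) :=
    ⟨((n - 12 * (y ! : ℕ) - 9 * k - 1) / 2 % 12).toNat, by omega, by omega⟩
  set N : ℕ → ℕ := fun t => ∏ q ∈ S.filter (fun q => fi q ≤ t), q with hN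
  set s : ZMod Q × (Fin k → ZMod L) → ℕ := fun c =>
    (12 * y ! + 2 * (i + 12 * c.1.val)) + ∑ j, 3 ^ (2 * (c.2 j).val + 2) with hs
  have s1 : ∀ p c, (s c : ZMod p) = ((12 * y ! + 2 * i : ℕ) : ZMod p) + 24 * (c.1.val : ZMod p) +
      ∑ j, 9 * (9 : ZMod p) ^ (c.2 j).val := by
    intro p c
    simp only [hs]
    push_cast
    congr 1
    · ring
    · refine sum_congr rfl fun j _ => ?_
      rw [pow_add, pow_mul]
      norm_num [mul_comm]
  have s2 : ∀ p ∈ P, ∀ (t : ℕ) (c z : ZMod Q × (Fin k → ZMod L)),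
      (s (c + ((N t : ZMod Q), fun _ => ((((T t)!) ^ L : ℕ) : ZMod L)) * z) : ZMod p) =
      ((12 * y ! + 2 * i : ℕ) : ZMod p) + 24 * ((c.1 + N t * z.1).val : ZMod p) +
      ∑ j, 9 * (9 : ZMod p) ^ (c.2 j).val * ((9 : ZMod p) ^ ((T t)!) ^ L) ^ (z.2 j).val := by
    intro p hp t c z
    rw [s1]
    congr 1
    refine sum_congr rfl fun j _ => ?_
    rw [mul_assoc, ← pow_val (orderOf_dvd_iff_pow_eq_one.1 (aL p hp))]
    rfl
  have s3 : ∀ p ∈ S, ∀ (m : ℕ) (x z : ZMod Q),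
      ((x + m * z).val : ZMod p) = x.val + m * z.val := by
    intro p hp m x z
    have hd : p ∣ Q := dvd_prod_of_mem _ hp
    have e : ∀ w : ZMod Q, (w.val : ZMod p) = ZMod.castHom hd (ZMod p) w := fun w => by simp
    simp only [e, map_add, map_mul, map_natCast]
  refine (pot_R (G := ZMod Q × (Fin k → ZMod L)) P (fun p c => (s c : ZMod p) = n)
    (fun t => ((N t : ZMod Q), fun _ => ((((T t)!) ^ L : ℕ) : ZMod L))) al fi σ W ?_ c3 c4 ?_ ?_
    c5).elim fun c hc => ?_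
  rotate_right
  · refine ⟨s c, sp_add (sp_lin _ _ ?_) ⟨_, rfl⟩, ?_⟩
    · have := ZMod.val_lt c.1
      omega
    have e1 : (24 : ℤ) ∣ ((∑ j, 3 ^ (2 * (c.2 j).val + 2) : ℕ) : ℤ) - 9 * k := by
      have e2 : (9 : ℤ) * k = ∑ _j : Fin k, (9 : ℤ) := by simp [mul_comm]
      rw [e2]
      push_cast
      rw [← sum_sub_distrib]
      refine dvd_sum fun j _ => ?_
      obtain ⟨w, hw⟩ := sub_dvd_pow_sub_pow (9 : ℤ) 1 (c.2 j).val
      refine ⟨3 * w, ?_⟩
      rw [pow_add, pow_mul]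
      norm_num at hw ⊢
      linarith
    have e3 : (s c : ℤ) = 12 * (y ! : ℕ) + 2 * (i + 12 * (c.1.val : ℕ)) +
        ((∑ j, 3 ^ (2 * (c.2 j).val + 2) : ℕ) : ℤ) := by
      simp only [hs]
      push_cast
      rfl
    refine ⟨by omega, by omega, fun p hp h => hc p hp ?_⟩
    have := (ZMod.intCast_zmod_eq_zero_iff_dvd _ _).2 h
    push_cast at this
    exact (sub_eq_zero.1 this).symm
  · intro t
    obtain ⟨u, hu⟩ : N t ∣ N (t + 1) := prod_dvd_prod_of_subset _ _ _
      fun q hq => mem_filter.2 ⟨(mem_filter.1 hq).1, (mem_filter.1 hq).2.trans (Nat.le_succ t)⟩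
    obtain ⟨v, hv⟩ : ((T t)!) ^ L ∣ ((T (t + 1))!) ^ L :=
      pow_dvd_pow_of_dvd (Nat.factorial_dvd_factorial (c1 (Nat.le_succ t))) L
    refine ⟨((u : ZMod Q), fun _ => (v : ZMod L)), Prod.ext ?_ (funext fun _ => ?_)⟩
    · simp [hu]
    · simp only [hv, Prod.snd_mul, Pi.mul_apply, Nat.cast_mul]
  · intro p hp c
    obtain ⟨p1, p5⟩ := hP p hp
    have := Fact.mk p1
    simp only [s2 p hp]
    by_cases h : p ∈ S
    · refine cnt_snd _ fun w => ?_
      have hu : (24 * N (al p) : ZMod p) ≠ 0 := by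
        intro h0
        have h1 : p ∣ 24 * N (al p) := (ZMod.natCast_eq_zero_iff _ _).1 (by exact_mod_cast h0)
        rcases (Nat.Prime.dvd_mul p1).1 h1 with h2 | h2
        · rcases (Nat.Prime.dvd_mul p1).1 (show p ∣ 2 ^ 3 * 3 from h2) with h3 | h3
          · have := Nat.le_of_dvd two_pos (p1.dvd_of_dvd_pow h3)
            omega
          · have := Nat.le_of_dvd three_pos h3
            omega
        · obtain ⟨q, hq, h3⟩ := (Prime.dvd_finsetProd_iff p1.prime _).1 h2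
          obtain ⟨q1, q2⟩ := mem_filter.1 hq
          have h4 := (Nat.prime_dvd_prime_iff_eq p1 (hP q (c2 q q1).1).1).1 h3
          subst h4
          have := c3 p hp
          omega
      have h1 := cnt_lin p1 (dvd_prod_of_mem _ h : p ∣ Q) hu
        ((n : ZMod p) - (((12 * y ! + 2 * i : ℕ) : ZMod p) + 24 * (c.1.val : ZMod p) +
          ∑ j, 9 * (9 : ZMod p) ^ (c.2 j).val * ((9 : ZMod p) ^ ((T (al p))!) ^ L) ^ (w j).val))
      rw [ZMod.card]
      refine le_trans (le_of_eq ?_) (h1.trans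
        (mul_le_mul_of_nonneg_right (c7 p h) (Nat.cast_nonneg _)))
      refine congrArg _ (congrArg _ (Finset.ext fun z => ?_))
      simp only [mem_filter, mem_univ, true_and]
      rw [s3 p h]
      constructor <;> intro e <;> linear_combination e
    · refine cnt_fst _ fun w => ?_
      obtain ⟨d1, d2, -⟩ := c8 p hp h
      have h9 := nine_ne p1 p5
      have h1 := hS p L ((9 : ZMod p) ^ ((T (al p))!) ^ L)
        ((n : ZMod p) - (((12 * y ! + 2 * i : ℕ) : ZMod p) +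
          24 * ((c.1 + N (al p) * w).val : ZMod p)))
        (fun j => 9 * (9 : ZMod p) ^ (c.2 j).val) (pow_ne_zero _ h9) d1
        ((orderOf_pow_dvd _).trans (aL p hp)) fun j => mul_ne_zero h9 (pow_ne_zero _ h9)
      rw [Fintype.card_fun, ZMod.card, Fintype.card_fin, Nat.cast_pow]
      refine le_trans (le_of_eq ?_) (h1.trans (mul_le_mul_of_nonneg_right d2 (by positivity)))
      refine congrArg _ (congrArg _ (Finset.ext fun z => ?_))
      simp only [mem_filter, mem_univ, true_and]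
      constructor <;> intro e <;> linear_combination e
  · intro p hp c z
    obtain ⟨p1, p5⟩ := hP p hp
    rw [s2 p hp, s1, nine_fin p1 p5 (Nat.le_of_dvd L0 (aL p hp)) (c6 p hp)]
    have e : ((c.1 + N (fi p) * z.1).val : ZMod p) = c.1.val := by
      by_cases h : p ∈ S
      · have h1 : p ∣ N (fi p) := dvd_prod_of_mem _ (mem_filter.2 ⟨h, le_rfl⟩)
        rw [s3 p h, (ZMod.natCast_eq_zero_iff _ _).2 h1, zero_mul, add_zero]
      · have h1 : N (fi p) = Q := by
          simp only [hN]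
          rw [filter_true_of_mem (c8 p hp h).2.2]
        rw [h1, ZMod.natCast_self, zero_mul, add_zero]
    simp only [e, one_pow, mul_one]

end Pool.Agent.MP_c903c4_nt.K
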