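import Pool.Agent.MP_c903c4_nt.K.Defs

open Finset
open scoped Pointwise Classical

noncomputable section

namespace Pool.Agent.MP_c903c4_nt.K

theorem mart_Pot {G : Type} [AddCommGroup G] [Fintype G] (ψ : G → Prop) (n m : ℕ) (c : G) :
    ∑ w : G, ((univ.filter fun z : G => ψ (c + n • w + (n * m) • z)).card : ℝ) =
      Fintype.card G * ((univ.filter fun z : G => ψ (c + n • z)).card : ℝ) := by
  have h : ∀ z : G, ∑ w : G, (if ψ (c + n • w + (n * m) • z) then (1 : ℝ) else 0) =
      ∑ w : G, if ψ (c + n • w) then (1 : ℝ) else 0 := fun z => by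
    refine Fintype.sum_equiv (Equiv.addRight (m • z)) _ _ fun w => ?_
    rw [Equiv.coe_addRight, smul_add, mul_smul, add_assoc]
  simp only [← sum_boole]
  rw [sum_comm, sum_congr rfl fun z _ => h z, sum_const, card_univ, nsmul_eq_mul]

theorem stPot : StPot := by
  intro G _ _ P φ M a f σ W hM haf hσ hsh hfin hW
  obtain ⟨ι, hι⟩ : ∃ ι : ℕ → ℝ, ∀ t, ι t = ∑ q ∈ P.filter (fun q => a q = t), W q * σ q :=
    ⟨_, fun _ => rfl⟩
  simp only [← hι] at hW
  have ι0 : ∀ t, 0 ≤ ι t := fun t => by
    rw [hι]
    exact sum_nonneg fun q hq =>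
      mul_nonneg (hσ q (mem_filter.1 hq).1).2 (hσ q (mem_filter.1 hq).1).1
  obtain ⟨om, hom⟩ : ∃ om : ℕ → ℝ, ∀ t, om t = ∏ s ∈ range t, (1 + 2 * ι s) :=
    ⟨_, fun _ => rfl⟩
  have om0 : ∀ t, 0 < om t := fun t => by
    rw [hom]
    exact prod_pos fun s _ => by linarith [ι0 s]
  have omW : ∀ p ∈ P, om (f p) ≤ om (a p) * W p := fun p hp => by
    have h := mul_le_mul_of_nonneg_left (hW p hp) (om0 (a p)).le
    rwa [hom (a p), prod_range_mul_prod_Ico _ (haf p hp).le, ← hom, ← hom] at h
  obtain ⟨cn, hcn⟩ : ∃ cn : ℕ → ℕ → G → ℝ, ∀ p t c,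
      cn p t c = ((univ.filter fun z : G => φ p (c + M t • z)).card : ℝ) :=
    ⟨_, fun _ _ _ => rfl⟩
  have cn0 : ∀ p t c, 0 ≤ cn p t c := fun p t c => by
    rw [hcn]
    exact Nat.cast_nonneg _
  have mart : ∀ p t c, ∑ w : G, cn p (t + 1) (c + M t • w) = Fintype.card G * cn p t c :=
    fun p t c => by
      obtain ⟨m, hm⟩ := hM t
      simp only [hcn, hm]
      exact mart_Pot (φ p) (M t) m c
  have dv : ∀ s t, s ≤ t → M s ∣ M t := fun s t h => by
    induction h with
    | refl => exact dvd_rfl
    | step _ ih => exact ih.trans (hM _)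
  have N0 : (0 : ℝ) < Fintype.card G := by exact_mod_cast Fintype.card_pos
  have key : ∀ t, ∃ c : G, (∀ p ∈ P, f p ≤ t → ¬ φ p c) ∧
      ∑ p ∈ P.filter (fun p => a p < t), om (f p) * cn p t c ≤ om t * Fintype.card G / 2 := by
    intro t
    induction t with
    | zero =>
      refine ⟨0, fun p hp h => absurd (haf p hp) (by omega), ?_⟩
      rw [filter_false_of_mem fun p _ => Nat.not_lt_zero _, sum_empty]
      exact div_nonneg (mul_pos (om0 0) N0).le zero_le_two
    | succ t ih =>
      obtain ⟨c, ha, hb⟩ := ih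
      have e1 : P.filter (fun p => a p < t + 1) =
          P.filter (fun p => a p < t) ∪ P.filter (fun p => a p = t) := by
        rw [← filter_or]
        exact filter_congr fun p _ => by omega
      have e2 : Disjoint (P.filter (fun p => a p < t)) (P.filter (fun p => a p = t)) :=
        disjoint_filter.2 fun p _ h => by omega
      have e3 : ∑ p ∈ P.filter (fun p => a p = t), om (f p) * cn p t c ≤
          om t * Fintype.card G * ι t := by
        rw [hι, mul_sum]
        refine sum_le_sum fun p hq => ?_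
        obtain ⟨hp, rfl⟩ := mem_filter.1 hq
        have h1 : cn p (a p) c ≤ σ p * Fintype.card G := by
          rw [hcn]
          exact hsh p hp c
        refine (mul_le_mul (omW p hp) h1 (cn0 _ _ _)
          (mul_nonneg (om0 _).le (hσ p hp).2)).trans (le_of_eq ?_)
        ring
      have e4 : om (t + 1) = om t * (1 + 2 * ι t) := by rw [hom, prod_range_succ, ← hom]
      have e5 : ∑ w : G, ∑ p ∈ P.filter (fun p => a p < t + 1),
          om (f p) * cn p (t + 1) (c + M t • w) ≤ ∑ w : G, om (t + 1) * Fintype.card G / 2 := by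
        rw [sum_comm, sum_const, card_univ, nsmul_eq_mul]
        simp only [← mul_sum, mart, mul_left_comm _ (Fintype.card G : ℝ)]
        refine mul_le_mul_of_nonneg_left ?_ N0.le
        rw [e1, sum_union e2, e4]
        linarith
      obtain ⟨w, -, hw⟩ := exists_le_of_sum_le univ_nonempty e5
      refine ⟨c + M t • w, fun p hp h hφ => ?_, hw⟩
      rcases h.lt_or_eq with h | h
      · obtain ⟨k, hk⟩ := dv (f p) t (by omega)
        rw [hk, mul_smul, hfin p hp] at hφ
        exact ha p hp (by omega) hφ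
      · have h1 : cn p (t + 1) (c + M t • w) = Fintype.card G := by
          rw [hcn, ← h, filter_true_of_mem fun z _ => (hfin p hp _ z).2 hφ, card_univ]
        have h2 := single_le_sum (f := fun p => om (f p) * cn p (t + 1) (c + M t • w))
          (fun q _ => mul_nonneg (om0 _).le (cn0 _ _ _))
          (mem_filter.2 ⟨hp, by have := haf p hp; omega⟩ : p ∈ P.filter (fun p => a p < t + 1))
        have h3 := h2.trans hw
        simp only [h1, h] at h3
        linarith [mul_pos (om0 (t + 1)) N0]
  obtain ⟨c, hc, -⟩ := key (P.sup f)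
  exact ⟨c, fun p hp => hc p hp (le_sup hp)⟩

end Pool.Agent.MP_c903c4_nt.K
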