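import Mathlib

open Finset
open scoped Pointwise Classical

noncomputable section

namespace Pool.Agent.MP_c903c4_nt.K

theorem mart_Pot2 {G : Type} [AddCommGroup G] [Fintype G] (ψ : G → Prop) (S S' : G →+ G)
    (hS : ∀ z, ∃ w, S' z = S w) (c : G) :
    ∑ w : G, ((univ.filter fun z : G => ψ (c + S w + S' z)).card : ℝ) =
      Fintype.card G * ((univ.filter fun z : G => ψ (c + S z)).card : ℝ) := by
  have h : ∀ z : G, ∑ w : G, (if ψ (c + S w + S' z) then (1 : ℝ) else 0) =
      ∑ w : G, if ψ (c + S w) then (1 : ℝ) else 0 := fun z => by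
    obtain ⟨v, hv⟩ := hS z
    refine Fintype.sum_equiv (Equiv.addRight v) _ _ fun w => ?_
    rw [Equiv.coe_addRight, map_add, hv, add_assoc]
  simp only [← sum_boole]
  rw [sum_comm, sum_congr rfl fun z _ => h z, sum_const, card_univ, nsmul_eq_mul]

/-- The potential lemma for a decreasing chain of images. -/
theorem pot2 (G : Type) [AddCommGroup G] [Fintype G] (P : Finset ℕ) (φ : ℕ → G → Prop)
    (T : ℕ → G →+ G) (a f : ℕ → ℕ) (σ W : ℕ → ℝ) (hM : ∀ t z, ∃ w, T (t + 1) z = T t w)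
    (haf : ∀ p ∈ P, a p < f p) (hσ : ∀ p ∈ P, 0 ≤ σ p ∧ 0 ≤ W p)
    (hsh : ∀ p ∈ P, ∀ c : G, ((univ.filter fun z : G => φ p (c + T (a p) z)).card : ℝ) ≤
      σ p * Fintype.card G)
    (hfin : ∀ p ∈ P, ∀ c z : G, φ p (c + T (f p) z) ↔ φ p c)
    (hW : ∀ p ∈ P, ∏ t ∈ Ico (a p) (f p),
      (1 + 2 * ∑ q ∈ P.filter (fun q => a q = t), W q * σ q) ≤ W p) :
    ∃ c : G, ∀ p ∈ P, ¬ φ p c := by
  obtain ⟨ι, hι⟩ : ∃ ι : ℕ → ℝ, ∀ t, ι t = ∑ q ∈ P.filter (fun q => a q = t), W q * σ q :=
    ⟨_, fun _ => rfl⟩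
  simp only [← hι] at hW
  have ι0 : ∀ t, 0 ≤ ι t := fun t => by
    rw [hι]
    exact sum_nonneg fun q hq =>
      mul_nonneg (hσ q (mem_filter.1 hq).1).2 (hσ q (mem_filter.1 hq).1).1
  obtain ⟨om, hom⟩ : ∃ om : ℕ → ℝ, ∀ t, om t = ∏ s ∈ range t, (1 + 2 * ι s) :=
    ⟨_, fun _ => rfl⟩
  have om0 : ∀ t, 0 < om t := fun t => by
    rw [hom]
    exact prod_pos fun s _ => by linarith [ι0 s]
  have omW : ∀ p ∈ P, om (f p) ≤ om (a p) * W p := fun p hp => by
    have h := mul_le_mul_of_nonneg_left (hW p hp) (om0 (a p)).le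
    rwa [hom (a p), prod_range_mul_prod_Ico _ (haf p hp).le, ← hom, ← hom] at h
  obtain ⟨cn, hcn⟩ : ∃ cn : ℕ → ℕ → G → ℝ, ∀ p t c,
      cn p t c = ((univ.filter fun z : G => φ p (c + T t z)).card : ℝ) :=
    ⟨_, fun _ _ _ => rfl⟩
  have cn0 : ∀ p t c, 0 ≤ cn p t c := fun p t c => by
    rw [hcn]
    exact Nat.cast_nonneg _
  have mart : ∀ p t c, ∑ w : G, cn p (t + 1) (c + T t w) = Fintype.card G * cn p t c :=
    fun p t c => by
      simp only [hcn]
      exact mart_Pot2 (φ p) (T t) (T (t + 1)) (hM t) c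
  have dv : ∀ s t, s ≤ t → ∀ z, ∃ w, T t z = T s w := fun s t h => by
    induction h with
    | refl => exact fun z => ⟨z, rfl⟩
    | step _ ih =>
      intro z
      obtain ⟨v, hv⟩ := hM _ z
      obtain ⟨w, hw⟩ := ih v
      exact ⟨w, hv.trans hw⟩
  have N0 : (0 : ℝ) < Fintype.card G := by exact_mod_cast Fintype.card_pos
  have key : ∀ t, ∃ c : G, (∀ p ∈ P, f p ≤ t → ¬ φ p c) ∧
      ∑ p ∈ P.filter (fun p => a p < t), om (f p) * cn p t c ≤ om t * Fintype.card G / 2 := by
    intro t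
    induction t with
    | zero =>
      refine ⟨0, fun p hp h => absurd (haf p hp) (by omega), ?_⟩
      rw [filter_false_of_mem fun p _ => Nat.not_lt_zero _, sum_empty]
      exact div_nonneg (mul_pos (om0 0) N0).le zero_le_two
    | succ t ih =>
      obtain ⟨c, ha, hb⟩ := ih
      have e1 : P.filter (fun p => a p < t + 1) =
          P.filter (fun p => a p < t) ∪ P.filter (fun p => a p = t) := by
        rw [← filter_or]
        exact filter_congr fun p _ => by omega
      have e2 : Disjoint (P.filter (fun p => a p < t)) (P.filter (fun p => a p = t)) :=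
        disjoint_filter.2 fun p _ h => by omega
      have e3 : ∑ p ∈ P.filter (fun p => a p = t), om (f p) * cn p t c ≤
          om t * Fintype.card G * ι t := by
        rw [hι, mul_sum]
        refine sum_le_sum fun p hq => ?_
        obtain ⟨hp, rfl⟩ := mem_filter.1 hq
        have h1 : cn p (a p) c ≤ σ p * Fintype.card G := by
          rw [hcn]
          exact hsh p hp c
        refine (mul_le_mul (omW p hp) h1 (cn0 _ _ _)
          (mul_nonneg (om0 _).le (hσ p hp).2)).trans (le_of_eq ?_)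
        ring
      have e4 : om (t + 1) = om t * (1 + 2 * ι t) := by rw [hom, prod_range_succ, ← hom]
      have e5 : ∑ w : G, ∑ p ∈ P.filter (fun p => a p < t + 1),
          om (f p) * cn p (t + 1) (c + T t w) ≤ ∑ w : G, om (t + 1) * Fintype.card G / 2 := by
        rw [sum_comm, sum_const, card_univ, nsmul_eq_mul]
        simp only [← mul_sum, mart, mul_left_comm _ (Fintype.card G : ℝ)]
        refine mul_le_mul_of_nonneg_left ?_ N0.le
        rw [e1, sum_union e2, e4]
        linarith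
      obtain ⟨w, -, hw⟩ := exists_le_of_sum_le univ_nonempty e5
      refine ⟨c + T t w, fun p hp h hφ => ?_, hw⟩
      rcases h.lt_or_eq with h | h
      · obtain ⟨k, hk⟩ := dv (f p) t (by omega) w
        rw [hk, hfin p hp] at hφ
        exact ha p hp (by omega) hφ
      · have h1 : cn p (t + 1) (c + T t w) = Fintype.card G := by
          rw [hcn, ← h, filter_true_of_mem fun z _ => (hfin p hp _ z).2 hφ, card_univ]
        have h2 := single_le_sum (f := fun p => om (f p) * cn p (t + 1) (c + T t w))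
          (fun q _ => mul_nonneg (om0 _).le (cn0 _ _ _))
          (mem_filter.2 ⟨hp, by have := haf p hp; omega⟩ : p ∈ P.filter (fun p => a p < t + 1))
        have h3 := h2.trans hw
        simp only [h1, h] at h3
        linarith [mul_pos (om0 (t + 1)) N0]
  obtain ⟨c, hc, -⟩ := key (P.sup f)
  exact ⟨c, fun p hp => hc p hp (le_sup hp)⟩

/-- Scaling of the coordinates. -/
def scl {I A : Type} [AddCommGroup A] (m : I → ℕ) : (I → A) →+ (I → A) where
  toFun z i := m i • z i
  map_zero' := funext fun _ => smul_zero _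
  map_add' _ _ := funext fun _ => smul_add _ _ _

/-- The potential lemma with one scale for each coordinate. -/
theorem pot3 (I A : Type) [Fintype I] [AddCommGroup A] [Fintype A] (P : Finset ℕ)
    (φ : ℕ → (I → A) → Prop) (M : ℕ → I → ℕ) (a f : ℕ → ℕ) (σ W : ℕ → ℝ)
    (hM : ∀ t i, M t i ∣ M (t + 1) i) (haf : ∀ p ∈ P, a p < f p)
    (hσ : ∀ p ∈ P, 0 ≤ σ p ∧ 0 ≤ W p)
    (hsh : ∀ p ∈ P, ∀ c : I → A, ((univ.filter fun z : I → A =>
      φ p (fun i => c i + M (a p) i • z i)).card : ℝ) ≤ σ p * Fintype.card (I → A))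
    (hfin : ∀ p ∈ P, ∀ c z : I → A, φ p (fun i => c i + M (f p) i • z i) ↔ φ p c)
    (hW : ∀ p ∈ P, ∏ t ∈ Ico (a p) (f p),
      (1 + 2 * ∑ q ∈ P.filter (fun q => a q = t), W q * σ q) ≤ W p) :
    ∃ c : I → A, ∀ p ∈ P, ¬ φ p c :=
  pot2 (I → A) P φ (fun t => scl (M t)) a f σ W (fun t z => by
    choose k hk using hM t
    exact ⟨fun i => k i • z i, funext fun i => by
      change M (t + 1) i • z i = M t i • k i • z i
      rw [hk, mul_smul]⟩) haf hσ hsh hfin hW

end Pool.Agent.MP_c903c4_nt.K
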