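import Pool.Agent.MP_c903c4_nt.K.Defs

/-! Sums of many powers are spread out modulo a prime. -/

open Finset
open scoped Pointwise Classical

noncomputable section

namespace Pool.Agent.MP_c903c4_nt.K

theorem unif_Share {p : ℕ} (g : ZMod p) (L q : ℕ) [NeZero L] (hL : L = orderOf g * q)
    (F : ZMod p → ℂ) :
    ∑ z : ZMod L, F (g ^ z.val) = q * ∑ x ∈ (range (orderOf g)).image (g ^ ·), F x := by
  have e : ∑ z : ZMod L, F (g ^ z.val) = ∑ i ∈ range L, F (g ^ i) := by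
    obtain ⟨n, rfl⟩ := Nat.exists_eq_succ_of_ne_zero (NeZero.ne L)
    exact Fin.sum_univ_eq_sum_range (fun i => F (g ^ i)) (n + 1)
  rw [e, sum_image fun i hi j hj h => pow_injOn_Iio_orderOf (mem_range.1 hi) (mem_range.1 hj) h, hL]
  clear e hL
  induction q with
  | zero => simp
  | succ q ih =>
    rw [Nat.mul_succ, sum_range_add, ih]
    simp only [pow_add, pow_mul, pow_orderOf_eq_one, one_pow, one_mul]
    push_cast
    ring

theorem grp_Share {p : ℕ} [Fact p.Prime] (g : ZMod p) (hg : g ≠ 0) (h0 : 0 < orderOf g) :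
    Grp ((range (orderOf g)).image (g ^ ·)) := by
  have m : ∀ n, g ^ n ∈ (range (orderOf g)).image (g ^ ·) := fun n =>
    mem_image.2 ⟨n % orderOf g, mem_range.2 (Nat.mod_lt _ h0), pow_mod_orderOf g n⟩
  refine ⟨fun h => ?_, pow_zero g ▸ m 0, fun x hx y hy => ?_, fun x hx => ?_⟩
  · obtain ⟨i, -, hi⟩ := mem_image.1 h
    exact pow_ne_zero i hg hi
  · obtain ⟨i, -, rfl⟩ := mem_image.1 hx
    obtain ⟨j, -, rfl⟩ := mem_image.1 hy
    exact pow_add g i j ▸ m _
  · obtain ⟨i, -, rfl⟩ := mem_image.1 hx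
    rw [inv_eq_of_mul_eq_one_right (b := g ^ ((orderOf g - 1) * i)) (by
      rw [← pow_add, add_comm, ← Nat.succ_mul, Nat.succ_eq_add_one,
        Nat.sub_add_cancel h0, pow_mul, pow_orderOf_eq_one, one_pow])]
    exact m _

theorem psi_Share {p : ℕ} [NeZero p] {ι : Type} (s : Finset ι) (f : ι → ZMod p) :
    ZMod.stdAddChar (∑ i ∈ s, f i) = ∏ i ∈ s, ZMod.stdAddChar (f i) := by
  induction s using Finset.induction_on with
  | empty => simp
  | insert a s ha ih => rw [sum_insert ha, prod_insert ha, AddChar.map_add_eq_mul, ih]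

theorem count_Share {p k L : ℕ} [NeZero p] [NeZero L] (f : Fin k → ZMod L → ZMod p) (r : ZMod p) :
    ((univ.filter fun z : Fin k → ZMod L => ∑ i, f i (z i) = r).card : ℝ) * p ≤
      ∑ ξ : ZMod p, ∏ i, ‖∑ z : ZMod L, ZMod.stdAddChar (ξ * f i z)‖ := by
  have e : ((univ.filter fun z : Fin k → ZMod L => ∑ i, f i (z i) = r).card : ℂ) * p =
      ∑ ξ : ZMod p, ZMod.stdAddChar (-(ξ * r)) * ∏ i, ∑ z : ZMod L, ZMod.stdAddChar (ξ * f i z) := by
    simp only [prod_univ_sum, Fintype.piFinset_univ, mul_sum, ← psi_Share, ← AddChar.map_add_eq_mul]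
    rw [sum_comm, card_filter, Nat.cast_sum, sum_mul]
    refine sum_congr rfl fun z _ => ?_
    have := AddChar.sum_mulShift (∑ i, f i (z i) - r) (ZMod.isPrimitive_stdAddChar p)
    simp only [sub_eq_zero, ZMod.card] at this
    rw [sum_congr rfl fun ξ _ => congrArg ZMod.stdAddChar
      (show -(ξ * r) + ∑ i, ξ * f i (z i) = ξ * (∑ i, f i (z i) - r) by rw [← mul_sum]; ring), this]
    split_ifs <;> simp
  have e' := congrArg norm e
  rw [norm_mul, Complex.norm_natCast, Complex.norm_natCast] at e'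
  rw [e']
  refine (norm_sum_le _ _).trans (le_of_eq (sum_congr rfl fun ξ _ => ?_))
  rw [norm_mul, AddChar.norm_apply, one_mul, norm_prod]

theorem stShare (hS : StSpec) : StShare := by
  intro κ
  obtain ⟨N, hN, hS⟩ := hS (κ + 1)
  refine ⟨N * (κ + 1), max (2 ^ N) (N * (κ + 1) + 1), fun p _ L _ g r u hg hh ⟨q, hq⟩ hu => ?_⟩
  obtain ⟨h1, h2⟩ := max_le_iff.1 hh
  have h0 : 0 < orderOf g := by omega
  have hc : ((range (orderOf g)).image (g ^ ·)).card = orderOf g := by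
    rw [card_image_of_injOn fun i hi j hj h =>
      pow_injOn_Iio_orderOf (mem_range.1 hi) (mem_range.1 hj) h, card_range]
  have un := unif_Share g L q hq
  have gr := grp_Share g hg h0
  generalize (range (orderOf g)).image (g ^ ·) = H at hc un gr
  generalize orderOf g = h at *
  have h0' : (0 : ℝ) < h := by exact_mod_cast h0
  have p0 : (0 : ℝ) < p := by exact_mod_cast (Fact.out : p.Prime).pos
  obtain ⟨w, w0, hw⟩ : ∃ w : ℝ, 0 ≤ w ∧ w ^ N = h :=
    ⟨(h : ℝ) ^ ((N : ℝ)⁻¹), by positivity, Real.rpow_inv_natCast_pow h0'.le hN.ne'⟩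
  have w2 : 2 ≤ w := le_of_pow_le_pow_left₀ hN.ne' w0 (by rw [hw]; exact_mod_cast h1)
  have hΛ := hS p H w gr w2 (by rw [hw, hc])
  rw [hc] at hΛ
  obtain ⟨Λ, eΛ⟩ : ∃ Λ, Λ = (Spec H (2 / w ^ 2)).erase 0 := ⟨_, rfl⟩
  rw [← eΛ, ← le_div_iff₀ (by positivity)] at hΛ
  have hL : (L : ℝ) = q * h := by rw [hq]; push_cast; ring
  have c := count_Share (fun i (z : ZMod L) => u i * g ^ z.val) r
  have e : ∀ (ξ : ZMod p) i, ‖∑ z : ZMod L, ZMod.stdAddChar (ξ * (u i * g ^ z.val))‖ =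
      q * SS H (ξ * u i) := fun ξ i => by
    simp only [← mul_assoc]
    rw [un fun x => ZMod.stdAddChar (ξ * u i * x), norm_mul, Complex.norm_natCast, SS]
  simp only [e] at c
  have s0 : ∀ ξ, 0 ≤ SS H ξ := fun ξ => norm_nonneg _
  have s1 : ∀ ξ, SS H ξ ≤ h := fun ξ => (norm_sum_le _ _).trans (by simp [hc])
  have bd : ∀ (ξ : ZMod p) (t : ℝ), (∀ i, SS H (ξ * u i) ≤ t * h) →
      ∏ i, (q * SS H (ξ * u i)) ≤ (L : ℝ) ^ (N * (κ + 1)) * t ^ (N * (κ + 1)) := fun ξ t ht => by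
    refine (prod_le_prod (g := fun _ => L * t) (fun i _ => mul_nonneg q.cast_nonneg (s0 _))
      fun i _ => ?_).trans (by simp [mul_pow])
    rw [hL, mul_assoc, mul_comm _ t]
    exact mul_le_mul_of_nonneg_left (ht i) q.cast_nonneg
  have t1 : ∀ ξ : ZMod p, ∏ i, (q * SS H (ξ * u i)) ≤ (L : ℝ) ^ (N * (κ + 1)) *
      ((if ξ = 0 then 1 else 0) + ∑ i, (if ξ * u i ∈ Λ then 1 else 0) + 1 / (h : ℝ) ^ (κ + 1)) := by
    intro ξ
    have a1 : (0 : ℝ) ≤ if ξ = 0 then 1 else 0 := by positivity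
    have a2 : ∀ i, (0 : ℝ) ≤ if ξ * u i ∈ Λ then 1 else 0 := fun i => by positivity
    have a3 := sum_nonneg fun i (_ : i ∈ univ) => a2 i
    have a4 : (0 : ℝ) ≤ 1 / (h : ℝ) ^ (κ + 1) := by positivity
    have a5 := bd ξ 1 fun i => by rw [one_mul]; exact s1 _
    rw [one_pow] at a5
    by_cases z : ξ = 0
    · refine a5.trans (mul_le_mul_of_nonneg_left ?_ (by positivity))
      rw [if_pos z]
      linarith
    by_cases b : ∃ i, ξ * u i ∈ Λ
    · obtain ⟨i, hi⟩ := b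
      have := single_le_sum (fun i _ => a2 i) (mem_univ i)
      rw [if_pos hi] at this
      exact a5.trans (mul_le_mul_of_nonneg_left (by linarith) (by positivity))
    refine (bd ξ (1 / w) fun i => ?_).trans (mul_le_mul_of_nonneg_left ?_ (by positivity))
    · have : ¬2 / w ^ 2 * H.card ≤ SS H (ξ * u i) := fun d => b ⟨i, eΛ ▸ mem_erase.2
        ⟨mul_ne_zero z (hu i), mem_filter.2 ⟨mem_univ _, d⟩⟩⟩
      rw [hc] at this
      refine (not_le.1 this).le.trans (mul_le_mul_of_nonneg_right ?_ h0'.le)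
      rw [div_le_div_iff₀ (by positivity) (by positivity)]
      nlinarith
    · rw [div_pow, one_pow, pow_mul, hw]
      linarith
  have t2 : ∀ i, ∑ ξ : ZMod p, (if ξ * u i ∈ Λ then (1 : ℝ) else 0) ≤ p / (h : ℝ) ^ (κ + 1) := by
    intro i
    rw [sum_boole]
    exact (Nat.cast_le.2 (card_le_card_of_injOn (· * u i) (fun ξ hξ => (mem_filter.1 hξ).2)
      (mul_left_injective₀ (hu i)).injOn)).trans hΛ
  have t3 := c.trans (sum_le_sum fun ξ _ => t1 ξ)
  rw [← mul_sum, sum_add_distrib, sum_add_distrib, sum_ite_eq', if_pos (mem_univ _), sum_comm,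
    sum_const, card_univ, ZMod.card, nsmul_eq_mul] at t3
  have t4 := sum_le_card_nsmul _ _ _ fun i (_ : i ∈ univ) => t2 i
  rw [card_univ, Fintype.card_fin, nsmul_eq_mul] at t4
  have t5 : (((N * (κ + 1) : ℕ) : ℝ) + 1) * (p / (h : ℝ) ^ (κ + 1)) ≤ p / (h : ℝ) ^ κ := by
    have h3 : ((N * (κ + 1) : ℕ) : ℝ) + 1 ≤ h := by exact_mod_cast h2
    refine (mul_le_mul_of_nonneg_right h3 (by positivity)).trans (le_of_eq ?_)
    field_simp
    ring
  refine le_of_mul_le_mul_right (t3.trans ?_) p0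
  rw [mul_comm (_ + _), mul_assoc]
  refine mul_le_mul_of_nonneg_left ?_ (by positivity)
  rw [add_mul, one_div_mul_cancel p0.ne', mul_one_div, one_div_mul_eq_div]
  linarith

end Pool.Agent.MP_c903c4_nt.K
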