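import Pool.Agent.MP_c903c4_nt.K.Defs
import Pool.Agent.MP_fdd1d3_nt.Mertens

open Finset
open scoped Pointwise Classical

noncomputable section

namespace Pool.Agent.MP_c903c4_nt.K

open Pool.Agent.MP_fdd1d3_nt

theorem sub_Smooth (X Y : ℕ) (hX : 1 ≤ X) (U : Finset ℕ) : (∀ q ∈ U, q ≤ Y) → X < ∏ q ∈ U, q →
    ∃ T ⊆ U, ∏ q ∈ T, q ≤ X ∧ X ≤ Y * ∏ q ∈ T, q := by
  induction U using Finset.induction_on with
  | empty => intro _ h; simp at h; omega
  | @insert a U ha ih =>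
    intro h1 h2
    by_cases h : ∏ q ∈ U, q ≤ X
    · rw [prod_insert ha] at h2
      exact ⟨U, subset_insert _ _, h,
        h2.le.trans (Nat.mul_le_mul_right _ (h1 a (mem_insert_self _ _)))⟩
    · obtain ⟨T, t1, t2⟩ := ih (fun q hq => h1 q (mem_insert_of_mem hq)) (by omega)
      exact ⟨T, t1.trans (subset_insert _ _), t2⟩

theorem tot_Smooth (T : Finset ℕ) : (∀ q ∈ T, q.Prime) →
    ∏ q ∈ T, ((q : ℝ) - 1) ≤ ((∏ q ∈ T, q).totient : ℝ) := by
  induction T using Finset.induction_on with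
  | empty => simp
  | @insert a T ha ih =>
    intro h
    have h1 := h a (mem_insert_self _ _)
    have h2 := ih fun q hq => h q (mem_insert_of_mem hq)
    have h3 : ((a.totient : ℝ)) * ((∏ q ∈ T, q).totient : ℝ) ≤ ((a * ∏ q ∈ T, q).totient : ℝ) := by
      exact_mod_cast Nat.totient_super_multiplicative _ _
    rw [prod_insert ha, prod_insert ha]
    refine le_trans ?_ h3
    rw [Nat.totient_prime h1, Nat.cast_pred h1.pos]
    have : (1 : ℝ) ≤ a := by exact_mod_cast h1.pos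
    exact mul_le_mul_of_nonneg_left h2 (by linarith)

theorem exp_half_Smooth {g : ℝ} (h0 : 0 ≤ g) (h1 : g ≤ 1) : Real.exp (g / 2) ≤ 1 + g := by
  have e1 := Real.add_one_le_exp (-(g / 2))
  have e2 : Real.exp (g / 2) * Real.exp (-(g / 2)) = 1 := by rw [← Real.exp_add]; simp
  have e3 := Real.exp_pos (g / 2)
  have e4 := mul_le_mul_of_nonneg_left e1 e3.le
  by_contra hc
  push Not at hc
  nlinarith [mul_nonneg h0 (sub_nonneg.2 h1)]

theorem sq_Smooth (E x : ℕ) (hE : 0 < E) (A : Finset ℕ)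
    (hA : ∀ p ∈ A, 2 ≤ p ∧ p ≤ x ∧ ∃ e, E < e ∧ e ^ 2 ∣ p - 1) : (A.card : ℝ) ≤ x / E := by
  have h1 : A ⊆ (Ioc E x).biUnion fun e => ((Ioc 0 x).filter fun n => e ^ 2 ∣ n).image (· + 1) := by
    intro p hp
    obtain ⟨p1, p2, e, e1, e2⟩ := hA p hp
    have e3 : e ^ 2 ≤ p - 1 := Nat.le_of_dvd (by omega) e2
    have e4 : e ≤ e ^ 2 := Nat.le_self_pow two_ne_zero e
    exact mem_biUnion.2 ⟨e, mem_Ioc.2 ⟨e1, by omega⟩, mem_image.2 ⟨p - 1,
      mem_filter.2 ⟨mem_Ioc.2 ⟨by omega, by omega⟩, e2⟩, by omega⟩⟩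
  have h2 : A.card ≤ ∑ e ∈ Ioc E x, x / e ^ 2 :=
    (card_le_card h1).trans (card_biUnion_le.trans (sum_le_sum fun e _ =>
      card_image_le.trans (Nat.Ioc_filter_dvd_card_eq_div x _).le))
  have h3 : (A.card : ℝ) ≤ ∑ e ∈ Ioc E x, ((x / e ^ 2 : ℕ) : ℝ) := by exact_mod_cast h2
  have h4 := mul_le_mul_of_nonneg_left (inv_sq_tail E x hE) (Nat.cast_nonneg (α := ℝ) x)
  rw [mul_sum, mul_one_div] at h4
  refine h3.trans (le_trans (sum_le_sum fun e _ => Nat.cast_div_le.trans (le_of_eq ?_)) h4)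
  push_cast
  rw [one_div_pow, mul_one_div]

theorem rank_Smooth (hB : StBT) (X Y x : ℕ) (hY : 4 ≤ Y) (hX : 1 ≤ X) (hx : X ≤ x) (A : Finset ℕ)
    (hA : ∀ p ∈ A, p.Prime ∧ Y < p ∧ p ≤ x ∧ ∃ U : Finset ℕ, (∀ q ∈ U, q.Prime ∧ q ≤ Y) ∧
      X < ∏ q ∈ U, q ∧ ∏ q ∈ U, q ∣ p - 1) :
    (A.card : ℝ) * Real.exp ((Real.log X / Real.log Y - 1) / 2) ≤
      2 * x / Real.log Y * Real.exp 4 + X * (Y : ℝ) ^ 2 := by
  have Y4 : (4 : ℝ) ≤ Y := by exact_mod_cast hY
  have l4 : Real.log 4 ≤ Real.log Y := Real.log_le_log (by norm_num) Y4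
  have l0 : 0 < Real.log Y := Real.log_pos (by linarith)
  obtain ⟨g, hg⟩ : ∃ g : ℕ → ℝ, ∀ q, g q = Real.log q / Real.log Y := ⟨_, fun _ => rfl⟩
  have g0 : ∀ q, 0 ≤ g q := fun q => by
    rw [hg]
    exact div_nonneg (Real.log_natCast_nonneg q) l0.le
  have g1 : ∀ q ∈ PP 0 Y, g q ≤ 1 := fun q hq => by
    obtain ⟨⟨q1, q2⟩, -⟩ := (mem_PP _ _ _).1 hq
    rw [hg, div_le_one l0]
    exact Real.log_le_log (by exact_mod_cast q1) (by exact_mod_cast q2)
  obtain ⟨S, hS⟩ : ∃ S, S = (PP 0 Y).powerset.filter fun T => ∏ q ∈ T, q ≤ X := ⟨_, rfl⟩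
  have mS : ∀ T, T ∈ S ↔ T ⊆ PP 0 Y ∧ ∏ q ∈ T, q ≤ X := fun T => by
    rw [hS, mem_filter, mem_powerset]
  have pr : ∀ T ⊆ PP 0 Y, ∀ q ∈ T, q.Prime := fun T hT q hq => ((mem_PP _ _ _).1 (hT hq)).2
  have h1 : ∀ p ∈ A, Real.exp ((Real.log X / Real.log Y - 1) / 2) ≤
      ∑ T ∈ S, if ∏ q ∈ T, q ∣ p - 1 then ∏ q ∈ T, g q else 0 := fun p hp => by
    obtain ⟨-, -, -, U, u1, u2, u3⟩ := hA p hp
    obtain ⟨W, w1, w2, w3⟩ := sub_Smooth X Y hX U (fun q hq => (u1 q hq).2) u2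
    have w4 : W ⊆ PP 0 Y := fun q hq =>
      (mem_PP _ _ _).2 ⟨⟨(u1 q (w1 hq)).1.pos, (u1 q (w1 hq)).2⟩, (u1 q (w1 hq)).1⟩
    have w5 : 0 < ∏ q ∈ W, q := prod_pos fun q hq => (pr W w4 q hq).pos
    have w6 : Real.log X ≤ Real.log Y + ∑ q ∈ W, Real.log q := by
      rw [← Real.log_prod fun q hq => by exact_mod_cast (pr W w4 q hq).ne_zero,
        ← Nat.cast_prod (fun q => q) W, ← Real.log_mul (by linarith) (by exact_mod_cast w5.ne')]
      exact Real.log_le_log (by exact_mod_cast hX) (by exact_mod_cast w3)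
    have w7 : (Real.log X / Real.log Y - 1) / 2 ≤ ∑ q ∈ W, g q / 2 := by
      simp only [hg, ← sum_div]
      have : Real.log X / Real.log Y ≤ 1 + (∑ q ∈ W, Real.log q) / Real.log Y := by
        rw [div_le_iff₀ l0, add_mul, one_mul, div_mul_cancel₀ _ l0.ne']
        exact w6
      linarith
    calc _ ≤ Real.exp (∑ q ∈ W, g q / 2) := Real.exp_le_exp.2 w7
      _ ≤ ∏ q ∈ W, (1 + g q) := by
        rw [Real.exp_sum]
        exact prod_le_prod (fun _ _ => (Real.exp_pos _).le) fun q hq =>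
          exp_half_Smooth (g0 q) (g1 q (w4 hq))
      _ = ∑ T ∈ W.powerset, if ∏ q ∈ T, q ∣ p - 1 then ∏ q ∈ T, g q else 0 := by
        rw [prod_one_add]
        exact sum_congr rfl fun T hT => (if_pos ((prod_dvd_prod_of_subset _ _ _
          ((mem_powerset.1 hT).trans w1)).trans u3)).symm
      _ ≤ _ := by
        refine sum_le_sum_of_subset_of_nonneg (fun T hT => (mS T).2
          ⟨(mem_powerset.1 hT).trans w4, le_trans (Nat.le_of_dvd w5
            (prod_dvd_prod_of_subset _ _ _ (mem_powerset.1 hT))) w2⟩) fun T _ _ => ?_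
        split_ifs
        · exact prod_nonneg fun q _ => g0 q
        · exact le_rfl
  have h2 : ∀ T ∈ S, ∑ p ∈ A, (if ∏ q ∈ T, q ∣ p - 1 then ∏ q ∈ T, g q else 0) ≤
      2 * x / Real.log Y * ∏ q ∈ T, g q / (q - 1) + (Y : ℝ) ^ 2 := fun T hT => by
    obtain ⟨t1, t2⟩ := (mS T).1 hT
    have t3 : 0 < ∏ q ∈ T, q := prod_pos fun q hq => (pr T t1 q hq).pos
    have t4 := hB _ Y x t3 (t2.trans hx) (by omega)
    have t5 : ((A.filter fun p => ∏ q ∈ T, q ∣ p - 1).card : ℝ) ≤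
        ((Ioc Y x).filter fun p => p.Prime ∧ ∏ q ∈ T, q ∣ p - 1).card := by
      refine Nat.cast_le.2 (card_le_card fun p hp => ?_)
      obtain ⟨p1, p2⟩ := mem_filter.1 hp
      obtain ⟨p3, p4, p5, -⟩ := hA p p1
      exact mem_filter.2 ⟨mem_Ioc.2 ⟨p4, p5⟩, p3, p2⟩
    have t6 : 0 ≤ ∏ q ∈ T, g q := prod_nonneg fun q _ => g0 q
    have t7 : ∏ q ∈ T, g q ≤ 1 := prod_le_one (fun q _ => g0 q) fun q hq => g1 q (t1 hq)
    have t8 : 0 < ∏ q ∈ T, ((q : ℝ) - 1) := prod_pos fun q hq =>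
      sub_pos.2 (by exact_mod_cast (pr T t1 q hq).one_lt)
    have t9 : 2 * (x : ℝ) / ((∏ q ∈ T, q).totient * Real.log Y) ≤
        2 * x / Real.log Y / ∏ q ∈ T, ((q : ℝ) - 1) := by
      rw [div_div, mul_comm (Real.log Y)]
      exact div_le_div_of_nonneg_left (by positivity) (by positivity)
        (mul_le_mul_of_nonneg_right (tot_Smooth T (pr T t1)) l0.le)
    rw [← sum_filter, sum_const, nsmul_eq_mul, prod_div_distrib]
    have t10 := mul_le_mul_of_nonneg_right (t5.trans (t4.trans (add_le_add_left t9 _))) t6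
    have t11 := mul_le_mul_of_nonneg_left t7 (show (0 : ℝ) ≤ (Y : ℝ) ^ 2 by positivity)
    have t12 : 2 * x / Real.log Y * ((∏ q ∈ T, g q) / ∏ q ∈ T, ((q : ℝ) - 1)) =
        2 * x / Real.log Y / (∏ q ∈ T, ((q : ℝ) - 1)) * ∏ q ∈ T, g q := by ring
    rw [t12]
    linarith
  have gq : ∀ q ∈ PP 0 Y, 0 ≤ g q / ((q : ℝ) - 1) := fun q hq =>
    div_nonneg (g0 q) (sub_nonneg.2 (by exact_mod_cast (pr _ Subset.rfl q hq).pos))
  have h3 : ∑ T ∈ S, ∏ q ∈ T, g q / ((q : ℝ) - 1) ≤ Real.exp 4 := by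
    calc _ ≤ ∑ T ∈ (PP 0 Y).powerset, ∏ q ∈ T, g q / ((q : ℝ) - 1) := by
          rw [hS]
          exact sum_le_sum_of_subset_of_nonneg (filter_subset _ _) fun T hT _ =>
            prod_nonneg fun q hq => gq q (mem_powerset.1 hT hq)
      _ = ∏ q ∈ PP 0 Y, (1 + g q / ((q : ℝ) - 1)) := (prod_one_add _).symm
      _ ≤ Real.exp (∑ q ∈ PP 0 Y, g q / ((q : ℝ) - 1)) := by
          rw [Real.exp_sum]
          exact prod_le_prod (fun q hq => by linarith [gq q hq]) fun q _ => by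
            linarith [Real.add_one_le_exp (g q / ((q : ℝ) - 1))]
      _ ≤ _ := by
          rw [Real.exp_le_exp]
          have m1 := mertens_a Y (by omega)
          have m2 : ∑ q ∈ PP 0 Y, g q / ((q : ℝ) - 1) ≤
              ∑ q ∈ PP 0 Y, 2 / Real.log Y * (Real.log q * (1 / (q : ℝ))) :=
            sum_le_sum fun q hq => by
              have q2 : (2 : ℝ) ≤ q := by exact_mod_cast (pr _ Subset.rfl q hq).two_le
              have e : 2 / Real.log Y * (Real.log q * (1 / (q : ℝ))) = g q / (q / 2) := by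
                rw [hg]
                field_simp
              rw [e]
              exact div_le_div_of_nonneg_left (g0 q) (by linarith) (by linarith)
          rw [← mul_sum] at m2
          refine m2.trans ((mul_le_mul_of_nonneg_left m1 (by positivity)).trans ?_)
          rw [div_mul_eq_mul_div, div_le_iff₀ l0]
          linarith
  have h4 : S.card ≤ X := by
    have := card_le_card_of_injOn (s := S) (t := Ioc 0 X) (fun T => ∏ q ∈ T, q)
      (fun T hT => mem_coe.2 (mem_Ioc.2 ⟨prod_pos fun q hq => (pr T ((mS T).1 hT).1 q hq).pos,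
        ((mS T).1 hT).2⟩))
      fun T hT T' hT' e => by
        rw [← Nat.primeFactors_prod (pr T ((mS T).1 hT).1),
          ← Nat.primeFactors_prod (pr T' ((mS T').1 hT').1)]
        exact congrArg _ e
    simpa using this
  have h5 := sum_le_sum h1
  rw [sum_const, nsmul_eq_mul, sum_comm] at h5
  have h6 := sum_le_sum h2
  rw [sum_add_distrib, ← mul_sum, sum_const, nsmul_eq_mul] at h6
  have h7 := mul_le_mul_of_nonneg_left h3 (show 0 ≤ 2 * (x : ℝ) / Real.log Y by positivity)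
  have h8 := mul_le_mul_of_nonneg_right (show (S.card : ℝ) ≤ X by exact_mod_cast h4)
    (show (0 : ℝ) ≤ (Y : ℝ) ^ 2 by positivity)
  linarith

theorem stSmooth (hB : StBT) : StSmooth := by
  refine ⟨4 + Real.exp (1 / 2) * (4 * Real.exp 4 + 1), by positivity, fun j m hm => ?_⟩
  obtain ⟨J, hJ⟩ : ∃ J, J = 2 ^ j := ⟨_, rfl⟩
  have J1 : 1 ≤ J := hJ ▸ Nat.one_le_two_pow
  have J2 : 64 * J ≤ m := by rw [hJ]; rw [pow_add] at hm; omega
  have J3 : (2 : ℝ) ^ j = J := by rw [hJ]; push_cast; rfl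
  have J4 : 2 ^ (j + 1) = 2 * J := by rw [hJ, pow_succ']
  have J5 : (1 : ℝ) ≤ J := by exact_mod_cast J1
  have J6 : 64 * (J : ℝ) ≤ m := by exact_mod_cast J2
  have l2 := Real.log_two_gt_d9
  rw [J3]
  obtain ⟨u, hu⟩ : ∃ u : ℝ, u = m / (64 * J) := ⟨_, rfl⟩
  rw [← hu]
  obtain ⟨A, hA⟩ : ∃ A, A = (Ico (2 ^ m) (2 ^ (m + 1))).filter fun p => p.Prime ∧ Smo j p :=
    ⟨_, rfl⟩
  rw [← hA]
  have mA : ∀ p ∈ A, (2 ^ m ≤ p ∧ p < 2 ^ (m + 1)) ∧ p.Prime ∧ Smo j p := fun p hp => by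
    rwa [hA, mem_filter, mem_Ico] at hp
  have c1 := sq_Smooth (2 ^ (m / 16)) (2 ^ (m + 1)) (by positivity)
    (A.filter fun p => ∃ e, 2 ^ (m / 16) < e ∧ e ^ 2 ∣ p - 1) fun p hp =>
      ⟨(mA p (mem_filter.1 hp).1).2.1.two_le, (mA p (mem_filter.1 hp).1).1.2.le,
        (mem_filter.1 hp).2⟩
  have c2 := rank_Smooth hB (2 ^ (m / 8)) (2 ^ (2 * J)) (2 ^ (m + 1))
    (le_trans (by norm_num) (Nat.pow_le_pow_right two_pos (show 2 ≤ 2 * J by omega)))
    Nat.one_le_two_pow (Nat.pow_le_pow_right two_pos (by omega))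
    (A.filter fun p => ¬ ∃ e, 2 ^ (m / 16) < e ∧ e ^ 2 ∣ p - 1) fun p hp => by
      obtain ⟨p1, p2⟩ := mem_filter.1 hp
      obtain ⟨⟨p3, p4⟩, p5, d, d1, d2, d3⟩ := mA p p1
      obtain ⟨f, e, e1, e2⟩ := Nat.sq_mul_squarefree d
      have e3 : e ≤ 2 ^ (m / 16) := by
        by_contra hc
        exact p2 ⟨e, not_le.1 hc, (Dvd.intro _ e1).trans d1⟩
      have e4 : f ∣ d := Dvd.intro_left _ e1
      refine ⟨p5, (Nat.pow_lt_pow_right one_lt_two (by omega)).trans_le p3, p4.le,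
        f.primeFactors, fun q hq => ⟨Nat.prime_of_mem_primeFactors hq, J4 ▸ (d2 q
          (Nat.prime_of_mem_primeFactors hq) ((Nat.dvd_of_mem_primeFactors hq).trans e4)).le⟩,
        ?_, ?_⟩
      · rw [Nat.prod_primeFactors_of_squarefree e2]
        by_contra hc
        have e5 : d ^ 4 ≤ ((2 ^ (m / 16)) ^ 2 * 2 ^ (m / 8)) ^ 4 := by
          rw [← e1]
          gcongr
          exact not_lt.1 hc
        rw [← pow_mul, ← pow_add, ← pow_mul] at e5
        have e6 : 2 ^ ((m / 16 * 2 + m / 8) * 4) ≤ 2 ^ m := Nat.pow_le_pow_right two_pos (by omega)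
        omega
      · rw [Nat.prod_primeFactors_of_squarefree e2]
        exact e4.trans d1
  have c3 : (A.card : ℝ) = (A.filter fun p => ∃ e, 2 ^ (m / 16) < e ∧ e ^ 2 ∣ p - 1).card +
      (A.filter fun p => ¬ ∃ e, 2 ^ (m / 16) < e ∧ e ^ 2 ∣ p - 1).card := by
    exact_mod_cast (card_filter_add_card_filter_not _).symm
  push_cast at c1 c2
  have m0 : (0 : ℝ) < 2 ^ m := by positivity
  have k1 : (J : ℝ) * Real.exp u ≤ 2 * 2 ^ (m / 16) := by
    have e1 : u ≤ m / 64 := by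
      rw [hu]
      exact div_le_div_of_nonneg_left (by positivity) (by norm_num) (by linarith)
    have e2 : (J : ℝ) ≤ Real.exp (m / 64) := by linarith [Real.add_one_le_exp ((m : ℝ) / 64)]
    have e3 : (m : ℝ) ≤ 16 * ((m / 16 + 1 : ℕ) : ℝ) := by
      exact_mod_cast (show m ≤ 16 * (m / 16 + 1) by omega)
    have e4 : (0 : ℝ) ≤ ((m / 16 + 1 : ℕ) : ℝ) := Nat.cast_nonneg _
    calc _ ≤ Real.exp (m / 64) * Real.exp (m / 64) := by gcongr
      _ ≤ Real.exp (((m / 16 + 1 : ℕ) : ℝ) * Real.log 2) := by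
        rw [← Real.exp_add, Real.exp_le_exp]
        nlinarith
      _ = _ := by rw [Real.exp_nat_mul, Real.exp_log two_pos, pow_succ']
  have k2 : (2 : ℝ) ^ (m + 1) / 2 ^ (m / 16) ≤ 4 * (2 ^ m / J * Real.exp (-u)) := by
    rw [Real.exp_neg, ← div_eq_mul_inv, div_div, ← mul_div_assoc,
      div_le_div_iff₀ (by positivity) (by positivity), pow_succ]
    nlinarith [mul_le_mul_of_nonneg_left k1 m0.le]
  have k3 : Real.exp u * Real.exp (-(1 / 2)) ≤ Real.exp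
      ((Real.log ((2 : ℝ) ^ (m / 8)) / Real.log ((2 : ℝ) ^ (2 * J)) - 1) / 2) := by
    rw [← Real.exp_add, Real.exp_le_exp, Real.log_pow, Real.log_pow,
      mul_div_mul_right _ _ (by linarith)]
    have e1 : (m : ℝ) ≤ 16 * ((m / 8 : ℕ) : ℝ) := by
      exact_mod_cast (show m ≤ 16 * (m / 8) by omega)
    have e2 : 2 * u ≤ ((m / 8 : ℕ) : ℝ) / ((2 * J : ℕ) : ℝ) := by
      rw [hu, ← mul_div_assoc, div_le_div_iff₀ (by positivity) (by positivity)]
      push_cast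
      nlinarith
    linarith
  have k4 : 2 * (2 : ℝ) ^ (m + 1) / Real.log ((2 : ℝ) ^ (2 * J)) ≤ 4 * (2 ^ m / J) := by
    rw [Real.log_pow, ← mul_div_assoc, div_le_div_iff₀ (by positivity) (by positivity), pow_succ]
    push_cast
    nlinarith [mul_pos m0 (show (0 : ℝ) < J by linarith)]
  have k5 : (2 : ℝ) ^ (m / 8) * ((2 : ℝ) ^ (2 * J)) ^ 2 ≤ 2 ^ m / J := by
    rw [le_div_iff₀ (by linarith)]
    have e1 : 2 ^ (m / 8) * (2 ^ (2 * J)) ^ 2 * J ≤ 2 ^ m :=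
      calc _ ≤ 2 ^ (m / 8) * (2 ^ (2 * J)) ^ 2 * 2 ^ J :=
            Nat.mul_le_mul_left _ Nat.lt_two_pow_self.le
        _ ≤ _ := by
          rw [← pow_mul, ← pow_add, ← pow_add]
          exact Nat.pow_le_pow_right two_pos (by omega)
    exact_mod_cast e1
  obtain ⟨a, ha⟩ : ∃ a : ℝ,
    a = (A.filter fun p => ¬ ∃ e, 2 ^ (m / 16) < e ∧ e ^ 2 ∣ p - 1).card := ⟨_, rfl⟩
  rw [← ha] at c2 c3
  have a0 : 0 ≤ a := ha ▸ Nat.cast_nonneg _
  have k6 : a * (Real.exp u * Real.exp (-(1 / 2))) ≤ (4 * Real.exp 4 + 1) * (2 ^ m / J) := by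
    have := mul_le_mul_of_nonneg_right k4 (Real.exp_pos 4).le
    linarith [mul_le_mul_of_nonneg_left k3 a0]
  have k7 := mul_le_mul_of_nonneg_right k6
    (show 0 ≤ Real.exp (1 / 2) * Real.exp (-u) by positivity)
  have k8 : Real.exp u * Real.exp (-(1 / 2)) * (Real.exp (1 / 2) * Real.exp (-u)) = 1 := by
    simp only [← Real.exp_add]
    norm_num
  rw [mul_assoc a, k8] at k7
  rw [c3, mul_div_assoc]
  linarith

end Pool.Agent.MP_c903c4_nt.K
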