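import Pool.Agent.MP_c903c4_nt.K.Defs

/-! The large spectrum of a multiplicative subgroup is small. -/

open Finset
open scoped Pointwise Classical

noncomputable section

namespace Pool.Agent.MP_c903c4_nt.K

theorem fin_Spec {p a b y L K v : ℝ} (hp : 0 < p) (hb : 0 < b) (hy : 0 < y) (hv : 2 ≤ v)
    (hK : 1 ≤ K) (hL : 0 ≤ L) (hba : b ≤ a) (h1 : a * v ^ 2 ≤ p) (h2 : a ≤ K ^ 3 * b)
    (h3 : L * K ^ 4 ≤ v) (h4 : p * v ^ 4 ≤ y * a) (h5 : 1 ≤ L * b / p + L * p / (y * b)) :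
    False := by
  have k1 : L * K ^ 3 ≤ v :=
    (mul_le_mul_of_nonneg_left (pow_le_pow_right₀ hK (by norm_num)) hL).trans h3
  have k2 : L ≤ v := (le_mul_of_one_le_right hL (one_le_pow₀ hK)).trans k1
  have k3 : L * b / p ≤ 1 / 2 := by
    rw [div_le_iff₀ hp]
    have e1 : L * b ≤ v * a := mul_le_mul k2 hba hb.le (by linarith)
    have e2 : 0 ≤ a * v * (v - 2) := mul_nonneg (mul_nonneg (by linarith) (by linarith)) (by linarith)
    nlinarith
  have k4 : L * p / (y * b) < 1 / 2 := by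
    rw [div_lt_iff₀ (mul_pos hy hb)]
    have e1 : y * a ≤ y * (K ^ 3 * b) := mul_le_mul_of_nonneg_left h2 hy.le
    have e2 : L * K ^ 3 * p ≤ v * p := mul_le_mul_of_nonneg_right k1 hp.le
    have e3 : 2 * v < v ^ 4 := by
      have : (2 : ℝ) ^ 3 ≤ v ^ 3 := pow_le_pow_left₀ (by norm_num) hv 3
      nlinarith
    have e4 : 2 * v * p < v ^ 4 * p := mul_lt_mul_of_pos_right e3 hp
    have e5 : K ^ 3 * (L * p) < K ^ 3 * (1 / 2 * (y * b)) := by nlinarith
    exact lt_of_mul_lt_mul_left e5 (by positivity)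
  linarith

theorem core_Spec (hB : StBSG) (hG : StGrow) (hA : StAvg) (hI : StInv) {p κ : ℕ} [Fact p.Prime]
    {H A : Finset (ZMod p)} {K v : ℝ} (hH : Grp H) (hinv : ∀ x ∈ H, ∀ a ∈ A, x * a ∈ A)
    (hh : v ^ 4 = H.card) (hK : 2 ≤ K) (hKv : K ^ (54 * 56 ^ (κ + 2) + 4) ≤ v)
    (h1 : (H.card : ℝ) ≤ A.card) (h2 : (p : ℝ) < A.card * (H.card : ℝ) ^ κ)
    (h3 : A.card * v ^ 2 ≤ p) (h4 : (A.card : ℝ) ^ 3 ≤ K * En A) : False := by
  have hp : (0 : ℝ) < p := by exact_mod_cast (Fact.out : p.Prime).pos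
  have hK1 : 1 ≤ K := by linarith
  have hK0 : 0 < K := by linarith
  have hK4 : K ^ 4 ≤ v := (pow_le_pow_right₀ hK1 (by omega)).trans hKv
  have hv : 2 ≤ v := hK.trans ((le_self_pow₀ hK1 (by norm_num)).trans hK4)
  have hv0 : 0 < v := by linarith
  have hA0 : (0 : ℝ) < A.card := lt_of_lt_of_le (by rw [← hh]; positivity) h1
  obtain ⟨B, hBA, b1, b2⟩ := hB p A K (card_pos.1 (by exact_mod_cast hA0)) hK1 h4
  have hB0 : (0 : ℝ) < B.card := by
    by_contra c
    have : (B.card : ℝ) = 0 := le_antisymm (not_lt.1 c) (Nat.cast_nonneg _)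
    rw [this] at b1
    linarith
  have hBn : B.Nonempty := card_pos.1 (by exact_mod_cast hB0)
  have pw : ∀ n : ℕ, (2 : ℝ) ^ n ≤ K ^ n := fun n => pow_le_pow_left₀ (by norm_num) hK n
  have b3 : (A.card : ℝ) ≤ K ^ 3 * B.card := by
    refine b1.trans (mul_le_mul_of_nonneg_right ?_ hB0.le)
    have := pw 2
    nlinarith
  have b4 : ((B - B).card : ℝ) ≤ K ^ 18 * B.card := by
    refine b2.trans (mul_le_mul_of_nonneg_right ?_ hB0.le)
    rw [show K ^ 18 = K ^ 12 * K ^ 6 by ring]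
    exact mul_le_mul_of_nonneg_right (le_trans (by norm_num) (pw 12)) (by positivity)
  obtain ⟨X, x1, x2⟩ := hI p H A B (K ^ 3) (K ^ 18) hH hinv hBA hBn b3 b4
  have x3 : v ^ 2 ≤ X.card := by
    have e1 : 2 * K ^ 3 ≤ v := by
      refine le_trans ?_ hK4
      rw [show K ^ 4 = K * K ^ 3 by ring]
      exact mul_le_mul_of_nonneg_right hK (by positivity)
    have e2 : v * v ^ 3 ≤ v * X.card := by
      rw [← hh] at x1
      refine le_trans (le_of_eq (by ring)) (x1.trans ?_)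
      exact mul_le_mul_of_nonneg_right e1 (Nat.cast_nonneg _)
    exact (pow_le_pow_right₀ (by linarith) (by norm_num)).trans (le_of_mul_le_mul_left e2 hv0)
  have x4 : 2 ≤ X.card := by
    have : (2 : ℝ) ≤ X.card := le_trans (by nlinarith) x3
    exact_mod_cast this
  obtain ⟨Y, y1, y2⟩ := hG p B X (K ^ 18) hBn (one_le_pow₀ hK1) b4 x4 (fun x hx => by
    refine (x2 x hx).trans (mul_le_mul_of_nonneg_right ?_ hB0.le)
    rw [show (K ^ 18) ^ 3 = K ^ 15 * (K ^ 3 * (K ^ 18) ^ 2) by ring, mul_assoc]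
    exact mul_le_mul_of_nonneg_right (le_trans (by norm_num) (pw 15)) (by positivity)) (κ + 2)
  have y3 : p * v ^ 4 ≤ Y.card * A.card := by
    rcases min_le_iff.1 y2 with c | c
    · rw [hh]
      exact mul_le_mul (by exact_mod_cast c) h1 (Nat.cast_nonneg _) (Nat.cast_nonneg _)
    · have e1 : (X.card : ℝ) ^ 2 ^ (κ + 2) ≤ Y.card := by exact_mod_cast c
      have e2 : (v ^ 4) ^ κ * v ^ 4 ≤ Y.card := by
        refine le_trans ?_ ((pow_le_pow_left₀ (by positivity) x3 _).trans e1)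
        rw [← pow_succ, ← pow_mul, ← pow_mul]
        refine pow_le_pow_right₀ (by linarith) ?_
        have := @Nat.lt_two_pow_self κ
        rw [pow_add]
        omega
      rw [← hh] at h2
      calc p * v ^ 4 ≤ A.card * (v ^ 4) ^ κ * v ^ 4 :=
            mul_le_mul_of_nonneg_right h2.le (by positivity)
        _ = (v ^ 4) ^ κ * v ^ 4 * A.card := by ring
        _ ≤ _ := mul_le_mul_of_nonneg_right e2 hA0.le
  have hY0 : (0 : ℝ) < Y.card := by
    by_contra c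
    have : (Y.card : ℝ) = 0 := le_antisymm (not_lt.1 c) (Nat.cast_nonneg _)
    rw [this, zero_mul] at y3
    have : 0 < p * v ^ 4 := by positivity
    linarith
  refine fin_Spec hp hB0 hY0 hv hK1 (by positivity) (by exact_mod_cast card_le_card hBA) h3 b3 ?_ y3
    (hA p B Y _ hBn (card_pos.1 (by exact_mod_cast hY0)) y1)
  rw [← pow_mul, ← pow_add]
  refine le_trans (le_of_eq ?_) hKv
  congr 1
  ring

theorem inv_Spec {p : ℕ} [Fact p.Prime] {H : Finset (ZMod p)} (hH : Grp H) (t : ℝ) :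
    ∀ x ∈ H, ∀ a ∈ Spec H t, x * a ∈ Spec H t := by
  intro x hx a ha
  have hx0 : x ≠ 0 := fun c => hH.1 (c ▸ hx)
  have : SS H (x * a) = SS H a := by
    unfold SS
    congr 1
    refine sum_nbij' (fun y => x * y) (fun y => x⁻¹ * y) (fun y hy => hH.2.2.1 _ hx _ hy)
      (fun y hy => hH.2.2.1 _ (hH.2.2.2 _ hx) _ hy) (fun y _ => by field_simp)
      (fun y _ => by field_simp) (fun y _ => ?_)
    congr 1
    ring
  simp only [Spec, mem_filter, mem_univ, true_and] at ha ⊢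
  rwa [this]

theorem mono_Spec {p : ℕ} [Fact p.Prime] (H : Finset (ZMod p)) {t t' : ℝ} (h : t ≤ t') :
    Spec H t' ⊆ Spec H t := by
  intro a ha
  simp only [Spec, mem_filter, mem_univ, true_and] at ha ⊢
  exact (mul_le_mul_of_nonneg_right h (Nat.cast_nonneg _)).trans ha

theorem num_Spec (κ C : ℕ) (hC : 0 < C) : ∃ J M n : ℕ, 0 < n ∧ C * (M + 8 * 2 ^ J) ≤ n ∧
    M * J = 4 * n * κ ∧ 2 * 2 ^ J ≤ n := by
  obtain ⟨u, hu⟩ : ∃ u, u = 2 ^ (8 * C * κ + 1) := ⟨_, rfl⟩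
  have h0 : 0 < u := by rw [hu]; positivity
  refine ⟨8 * C * κ + 1, κ * (64 * C * u), (8 * C * κ + 1) * (16 * C * u), by positivity, ?_,
    by ring, ?_⟩
  · rw [← hu]
    nlinarith [Nat.zero_le (C * C * κ * u), Nat.zero_le (C * u)]
  · rw [← hu]
    nlinarith [Nat.zero_le (C * C * κ * u), Nat.mul_le_mul_right u hC]

theorem pig_Spec {a : ℕ → ℝ} {m : ℝ} (hm : 0 ≤ m) (J : ℕ) (h : ∀ j < J, m * a j < a (j + 1)) :
    m ^ J * a 0 ≤ a J := by
  induction J with
  | zero => simp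
  | succ J ih =>
    have h1 := mul_le_mul_of_nonneg_left (ih fun j hj => h j (by omega)) hm
    have h2 := h J (by omega)
    rw [pow_succ]
    linarith

theorem stSpec (hB : StBSG) (hG : StGrow) (hA : StAvg) (hI : StInv) (hF : StFou) : StSpec := by
  intro κ
  obtain ⟨J, M, n, n0, n1, n2, n3⟩ := num_Spec κ (54 * 56 ^ (κ + 2) + 4) (by positivity)
  refine ⟨4 * n, by omega, fun p _ H w hH hw hN => ?_⟩
  by_contra hc
  rw [not_le] at hc
  have hp : (0 : ℝ) < p := by exact_mod_cast (Fact.out : p.Prime).pos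
  have hw1 : 1 ≤ w := by linarith
  have hw0 : 0 < w := by linarith
  obtain ⟨t, ht⟩ : ∃ t : ℕ → ℝ, ∀ j, t j = 2 / w ^ 2 ^ (j + 1) := ⟨_, fun _ => rfl⟩
  have t0 : t 0 = 2 / w ^ 2 := by rw [ht]; norm_num
  have t1 : ∀ j, t (j + 1) = t j ^ 2 / 2 := fun j => by
    rw [ht, ht, pow_succ 2 (j + 1), pow_mul]
    field_simp
  have t2 : ∀ j, 0 < t j := fun j => by rw [ht]; positivity
  have t3 : ∀ j, t j ≤ t 0 := fun j => by
    rw [ht, ht]
    exact div_le_div_of_nonneg_left (by norm_num) (by positivity)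
      (pow_le_pow_right₀ hw1 (Nat.pow_le_pow_right (by norm_num) (by omega)))
  rw [← t0] at hc
  have c1 : ∀ j, (p : ℝ) < (Spec H (t j)).card * (H.card : ℝ) ^ κ := fun j =>
    hc.trans_le (mul_le_mul_of_nonneg_right (by
      exact_mod_cast card_le_card ((erase_subset _ _).trans (mono_Spec H (t3 j)))) (by positivity))
  obtain ⟨ξ, hξ⟩ : ((Spec H (t 0)).erase 0).Nonempty := by
    rw [nonempty_iff_ne_empty]
    intro c
    rw [c] at hc
    simp at hc
    linarith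
  obtain ⟨j, hj, c2⟩ : ∃ j < J, ((Spec H (t (j + 1))).card : ℝ) ≤ w ^ M * (Spec H (t j)).card := by
    by_contra c
    push Not at c
    have e1 := pig_Spec (a := fun j => ((Spec H (t j)).card : ℝ)) (by positivity) J c
    have e2 : ((Spec H (t J)).card : ℝ) ≤ p := by
      have := card_le_univ (Spec H (t J))
      rw [ZMod.card] at this
      exact_mod_cast this
    have e3 := c1 0
    rw [← hN, ← pow_mul, ← n2, pow_mul] at e3
    linarith
  obtain ⟨f1, f2⟩ := hF p H (t j) ⟨1, hH.2.1⟩ (t2 j)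
  rw [t1] at c2
  replace f2 := f2 _ c2
  have hJ : 2 ^ j ≤ 2 ^ J := Nat.pow_le_pow_right (by norm_num) hj.le
  have hh : (w ^ n) ^ 4 = H.card := by rw [← hN, ← pow_mul, mul_comm]
  refine core_Spec hB hG hA hI (K := w ^ (M + 8 * 2 ^ J)) (v := w ^ n) (κ := κ) hH
    (inv_Spec hH (t j)) hh (hw.trans (le_self_pow₀ hw1 (by positivity))) ?_ ?_ (c1 j) ?_ ?_
  · rw [← pow_mul, mul_comm]
    exact pow_le_pow_right₀ hw1 n1
  · have := card_le_card_of_injOn (s := H) (t := Spec H (t j)) (fun x => x * ξ)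
      (fun x hx => inv_Spec hH _ x hx ξ (mono_Spec H (t3 j) (mem_of_mem_erase hξ)))
      (fun x _ y _ h => mul_right_cancel₀ (ne_of_mem_erase hξ) h)
    exact_mod_cast this
  · have e1 : (w ^ 2 ^ (j + 1)) ^ 2 ≤ (w ^ n) ^ 2 :=
      pow_le_pow_left₀ (by positivity) (pow_le_pow_right₀ hw1 (by rw [pow_succ]; omega)) 2
    have e2 : 1 ≤ t j ^ 2 * (w ^ n) ^ 2 := by
      rw [ht, div_pow, div_mul_eq_mul_div, one_le_div (by positivity)]
      have : 0 ≤ (w ^ n) ^ 2 := by positivity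
      linarith
    rw [← hh] at f1
    refine le_trans ?_ f1
    rw [show ((Spec H (t j)).card : ℝ) * t j ^ 2 * (w ^ n) ^ 4 =
      (Spec H (t j)).card * (w ^ n) ^ 2 * (t j ^ 2 * (w ^ n) ^ 2) by ring]
    exact le_mul_of_one_le_right (by positivity) e2
  · have e1 : (w ^ 2 ^ (j + 1 + 1)) ^ 2 ≤ w ^ (8 * 2 ^ J) := by
      rw [← pow_mul]
      exact pow_le_pow_right₀ hw1 (by rw [pow_succ, pow_succ]; omega)
    have e2 : 1 ≤ w ^ (8 * 2 ^ J) * (t j ^ 2 / 2) ^ 2 := by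
      rw [← t1, ht, div_pow, ← mul_div_assoc, one_le_div (by positivity)]
      have : 0 ≤ w ^ (8 * 2 ^ J) := by positivity
      linarith
    calc ((Spec H (t j)).card : ℝ) ^ 3
        ≤ w ^ (8 * 2 ^ J) * (t j ^ 2 / 2) ^ 2 * ((Spec H (t j)).card : ℝ) ^ 3 :=
          le_mul_of_one_le_left (by positivity) e2
      _ ≤ w ^ (8 * 2 ^ J) * (w ^ M * En (Spec H (t j))) := by
          rw [mul_assoc]
          exact mul_le_mul_of_nonneg_left f2 (by positivity)
      _ = _ := by ring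

end Pool.Agent.MP_c903c4_nt.K
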