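import Pool.Agent.MP_c903c4_nt.K.Defs

open Finset
open scoped Pointwise Classical

noncomputable section

namespace Pool.Agent.MP_c903c4_nt.K

theorem geo_TailB {ρ : ℝ} (h0 : 0 ≤ ρ) (h1 : 2 * ρ ≤ 1) (N M : ℕ) :
    ∑ m ∈ Ico N (N * (M + 1)), ρ ^ (m / N) ≤ N * (2 * ρ - 2 * ρ ^ (M + 1)) := by
  induction M with
  | zero => simp
  | succ M ih =>
    rw [← sum_Ico_consecutive _ (Nat.le_mul_of_pos_right N (Nat.succ_pos M))
      (Nat.mul_le_mul_left N (Nat.le_succ (M + 1)))]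
    have h2 : ∑ m ∈ Ico (N * (M + 1)) (N * (M + 1 + 1)), ρ ^ (m / N) = N * ρ ^ (M + 1) := by
      rw [sum_congr rfl (g := fun _ => ρ ^ (M + 1)), sum_const, Nat.card_Ico, nsmul_eq_mul,
        Nat.mul_succ N (M + 1), Nat.add_sub_cancel_left]
      intro m hm
      obtain ⟨a, b⟩ := mem_Ico.1 hm
      rw [Nat.div_eq_of_lt_le (by rwa [mul_comm]) (by rwa [mul_comm])]
    have h3 : 0 ≤ (N : ℝ) * (ρ ^ (M + 1) * (1 - 2 * ρ)) :=
      mul_nonneg (Nat.cast_nonneg N) (mul_nonneg (pow_nonneg h0 _) (by linarith))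
    rw [Nat.succ_eq_add_one, h2, pow_succ ρ (M + 1)]
    linarith

theorem par_TailB (C : ℝ) : ∃ κ : ℕ, 6 ≤ κ ∧
    2 ^ κ * ((2 : ℝ) ^ (64 * κ + 100) * Real.exp (-(2 ^ κ / 64))) * (120 * C + 2) ≤ 1 := by
  obtain ⟨a, ha⟩ := exists_nat_ge (120 * C + 2)
  refine ⟨a + 20, by omega, ?_⟩
  have h1 : a + 1 ≤ 2 ^ a := Nat.lt_two_pow_self
  have h2 : 64 * (a + 20 + (64 * (a + 20) + 100) + a) ≤ 2 ^ (a + 20) := by
    rw [pow_add]
    omega
  generalize a + 20 = κ at h2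
  have h3 : (120 * C + 2 : ℝ) ≤ 2 ^ a := ha.trans (by exact_mod_cast (Nat.le_succ a).trans h1)
  have h4 : (2 : ℝ) ^ (κ + (64 * κ + 100) + a) ≤ Real.exp (2 ^ κ / 64) := by
    have h5 : (2 : ℝ) ≤ Real.exp 1 := by linarith [Real.add_one_le_exp 1]
    refine (pow_le_pow_left₀ (by norm_num) h5 _).trans ?_
    rw [← Real.exp_nat_mul, Real.exp_le_exp, mul_one, le_div_iff₀ (by norm_num), mul_comm]
    exact_mod_cast h2
  have h6 := Real.exp_pos (2 ^ κ / 64)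
  rw [Real.exp_neg]
  calc _ ≤ 2 ^ κ * ((2 : ℝ) ^ (64 * κ + 100) * (Real.exp (2 ^ κ / 64))⁻¹) * 2 ^ a := by gcongr
    _ = 2 ^ (κ + (64 * κ + 100) + a) / Real.exp (2 ^ κ / 64) := by
      rw [pow_add (2 : ℝ) _ a, pow_add (2 : ℝ) κ]
      ring
    _ ≤ 1 := (div_le_one h6).2 h4

theorem stTailB (hS : StSmooth) : StTailB := by
  obtain ⟨C, hC, hS⟩ := hS
  obtain ⟨κ, hκ, hp⟩ := par_TailB C
  refine ⟨κ, hκ, fun j T hT => ?_⟩
  obtain ⟨ρ, hρ⟩ : ∃ ρ : ℝ, ρ = (2 : ℝ) ^ (64 * κ + 100) * Real.exp (-(2 ^ κ / 64)) := ⟨_, rfl⟩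
  rw [← hρ] at hp
  have r0 : 0 ≤ ρ := by rw [hρ]; positivity
  have k1 : (1 : ℝ) ≤ 2 ^ κ := one_le_pow₀ (by norm_num)
  have r2 : 0 ≤ 2 ^ κ * ρ := by positivity
  have r1 : 2 * ρ ≤ 1 := by nlinarith [mul_nonneg r2 hC.le, mul_nonneg (sub_nonneg.2 k1) r0]
  obtain ⟨N, hN⟩ : ∃ N : ℕ, N = 2 ^ (κ + j) := ⟨_, rfl⟩
  have N0 : 0 < N := by rw [hN]; positivity
  rw [← hN] at hT ⊢
  obtain ⟨M, hM⟩ : ∃ M : ℕ, ∀ p ∈ T, Nat.log 2 p ∈ Ico N (N * (M + 1)) :=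
    ⟨T.sup (Nat.log 2), fun p h => mem_Ico.2 ⟨(hT p h).2.1,
      (Nat.lt_succ_of_le (le_sup (f := Nat.log 2) h)).trans_le (Nat.le_mul_of_pos_left _ N0)⟩⟩
  rw [← sum_fiberwise_of_maps_to hM]
  have key : ∀ m ∈ Ico N (N * (M + 1)), ∑ p ∈ T with Nat.log 2 p = m,
      ((2 : ℝ) ^ (64 * κ + 100)) ^ (Nat.log 2 p / N) * (2 / p) ≤ 2 * C / 2 ^ j * ρ ^ (m / N) := by
    intro m hm
    have m1 := (mem_Ico.1 hm).1
    have a1 := hS j m ((Nat.pow_le_pow_right (by norm_num) (by omega)).trans (hN ▸ m1))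
    have a2 : T.filter (fun p => Nat.log 2 p = m) ⊆
        (Ico (2 ^ m) (2 ^ (m + 1))).filter fun p => p.Prime ∧ Smo j p := by
      intro p h
      obtain ⟨b1, rfl⟩ := mem_filter.1 h
      exact mem_filter.2 ⟨mem_Ico.2 ⟨Nat.pow_log_le_self 2 (hT p b1).1.ne_zero,
        Nat.lt_pow_succ_log_self (by norm_num) p⟩, (hT p b1).1, (hT p b1).2.2⟩
    have a3 : ∀ p ∈ T.filter (fun p => Nat.log 2 p = m),
        ((2 : ℝ) ^ (64 * κ + 100)) ^ (Nat.log 2 p / N) * (2 / p) ≤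
          ((2 : ℝ) ^ (64 * κ + 100)) ^ (m / N) * (2 / 2 ^ m) := by
      intro p h
      have b2 : (2 : ℝ) ^ m ≤ p := by exact_mod_cast (mem_Ico.1 (mem_filter.1 (a2 h)).1).1
      rw [(mem_filter.1 h).2]
      gcongr
    have a4 : Real.exp (-(m / (64 * 2 ^ j))) ≤ Real.exp (-(2 ^ κ / 64)) ^ (m / N) := by
      have b1 : ((m / N : ℕ) : ℝ) * (2 ^ κ * 2 ^ j) ≤ m := by
        have b2 := Nat.div_mul_le_self m N
        rw [← pow_add]
        nth_rewrite 2 [hN] at b2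
        exact_mod_cast b2
      rw [← Real.exp_nat_mul, Real.exp_le_exp, mul_neg, neg_le_neg_iff,
        le_div_iff₀ (by positivity)]
      linarith
    refine (sum_le_card_nsmul _ _ _ a3).trans ?_
    rw [nsmul_eq_mul, hρ, mul_pow]
    have a5 : ((T.filter fun p => Nat.log 2 p = m).card : ℝ) ≤
        C * 2 ^ m / 2 ^ j * Real.exp (-(2 ^ κ / 64)) ^ (m / N) :=
      ((Nat.cast_le.2 (card_le_card a2)).trans a1).trans (by gcongr)
    refine (mul_le_mul_of_nonneg_right a5 (by positivity)).trans (le_of_eq ?_)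
    field_simp
  refine (sum_le_sum key).trans ?_
  rw [← mul_sum]
  have g1 := geo_TailB r0 r1 N M
  have g2 : (N : ℝ) * (2 * ρ - 2 * ρ ^ (M + 1)) ≤ N * (2 * ρ) := by
    have := pow_nonneg r0 (M + 1)
    gcongr
    linarith
  refine (mul_le_mul_of_nonneg_left (g1.trans g2) (by positivity)).trans ?_
  have g3 : 2 * C / 2 ^ j * ((N : ℝ) * (2 * ρ)) = 4 * (2 ^ κ * ρ * C) := by
    rw [hN]
    push_cast
    rw [pow_add]
    field_simp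
    ring
  rw [g3]
  linarith

end Pool.Agent.MP_c903c4_nt.K
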